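import Pool.Agent.Helper14.LD.Base

/-!
# Block A01: monotone maps give a realizer
-/

namespace Pool.Agent.Helper14.LD

open Pool.Agent.Helper87.PD

/-- refinement of a monotone map by a linear extension -/
private def a01_lex {V : Type*} (L : V → V → Prop) (ρ : V → ℕ) (x y : V) : Prop :=
  ρ x < ρ y ∨ (ρ x = ρ y ∧ L x y)

private theorem a01_lin {V : Type*} {L : V → V → Prop} (hL : IsLin L) (ρ : V → ℕ) :
    IsLin (a01_lex L ρ) := by
  obtain ⟨⟨h1, h2, h3⟩, h4⟩ := hL
  refine ⟨⟨fun a => Or.inr ⟨rfl, h1 a⟩, ?_, ?_⟩, ?_⟩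
  · rintro a b (h | ⟨h, h'⟩) (g | ⟨g, g'⟩)
    · omega
    · omega
    · omega
    · exact h2 a b h' g'
  · rintro a b c (h | ⟨h, h'⟩) (g | ⟨g, g'⟩)
    · exact Or.inl (by omega)
    · exact Or.inl (by omega)
    · exact Or.inl (by omega)
    · exact Or.inr ⟨by omega, h3 a b c h' g'⟩
  · intro a b
    rcases lt_trichotomy (ρ a) (ρ b) with h | h | h
    · exact Or.inl (Or.inl h)
    · rcases h4 a b with g | g
      · exact Or.inl (Or.inr ⟨h, g⟩)
      · exact Or.inr (Or.inr ⟨h.symm, g⟩)
    · exact Or.inr (Or.inl h)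

theorem dim_le_of_cov {V : Type*} [Fintype V] {r : V → V → Prop} (hr : IsPO r) {k : ℕ}
    (h : Cov r Finset.univ k) : dim r ≤ k + 1 := by
  classical
  obtain ⟨F, hF, h2, h3⟩ := h
  have : IsPartialOrder V r :=
    { refl := hr.1
      trans := hr.2.2
      antisymm := hr.2.1 }
  obtain ⟨L0, hL0, hle⟩ := extend_partialOrder r
  have hlin : IsLin L0 :=
    ⟨⟨fun a => hL0.refl a, fun a b => hL0.antisymm a b, fun a b c => hL0.trans a b c⟩,
      fun a b => hL0.total a b⟩
  refine Nat.sInf_le ⟨fun i => if h : (i : ℕ) < F.card then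
    a01_lex L0 (F.equivFin.symm ⟨i, h⟩ : V → ℕ) else L0, fun i => ?_, fun a b => ?_⟩
  · dsimp only
    split_ifs with h
    · exact a01_lin hlin _
    · exact hlin
  · constructor
    · intro hab i
      split_ifs with h
      · have hm := h2 _ (F.equivFin.symm ⟨i, h⟩).2 a (Finset.mem_univ a) b (Finset.mem_univ b) hab
        rcases hm.lt_or_eq with h4 | h4
        · exact Or.inl h4
        · exact Or.inr ⟨h4, hle a b hab⟩
      · exact hle a b hab
    · intro hall
      by_contra hab
      have h0 : L0 a b := by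
        have := hall ⟨k, by omega⟩
        have hk : ¬ (k < F.card) := by omega
        simpa [hk] using this
      by_cases hba : r b a
      · have := hlin.1.2.1 a b h0 (hle b a hba)
        subst this
        exact hab (hr.1 a)
      · obtain ⟨ρ, hρ, hlt⟩ := h3 a (Finset.mem_univ a) b (Finset.mem_univ b) trivial hab hba
        have hi : ((F.equivFin ⟨ρ, hρ⟩ : Fin F.card) : ℕ) < k + 1 := by
          have := (F.equivFin ⟨ρ, hρ⟩).2
          omega
        have := hall ⟨(F.equivFin ⟨ρ, hρ⟩ : Fin F.card), hi⟩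
        have hj : ((F.equivFin ⟨ρ, hρ⟩ : Fin F.card) : ℕ) < F.card := (F.equivFin ⟨ρ, hρ⟩).2
        simp only [hj, dif_pos, Fin.eta, Equiv.symm_apply_apply] at this
        rcases this with h5 | ⟨h5, _⟩
        · omega
        · omega

end Pool.Agent.Helper14.LD
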