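import Pool.Agent.Helper14.LD.Base

/-!
# Block A02: Dilworth's theorem
-/

namespace Pool.Agent.Helper14.LD

open Pool.Agent.Helper87.PD

private lemma a02_max {V : Type*} {r : V → V → Prop} (hr : IsPO r) (A : Finset V) (hA : A.Nonempty) :
    ∃ a ∈ A, ∀ b ∈ A, r a b → b = a := by
  classical
  obtain ⟨a, ha, hmax⟩ := Finset.exists_max_image A (fun x => (A.filter fun c => r c x).card) hA
  refine ⟨a, ha, fun b hb hab => ?_⟩
  have hsub : (A.filter fun c => r c a) ⊆ (A.filter fun c => r c b) := by
    intro c hc
    rw [Finset.mem_filter] at hc ⊢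
    exact ⟨hc.1, hr.2.2 _ _ _ hc.2 hab⟩
  have heq := Finset.eq_of_subset_of_card_le hsub (hmax b hb)
  have hb' : b ∈ (A.filter fun c => r c a) := by
    rw [heq]
    exact Finset.mem_filter.2 ⟨hb, hr.1 b⟩
  exact hr.2.1 _ _ (Finset.mem_filter.1 hb').2 hab

private lemma a02_inj {V : Type*} {r : V → V → Prop} {A : Finset V} {col : V → ℕ}
    (hch : ∀ x ∈ A, ∀ y ∈ A, col x = col y → r x y ∨ r y x) {Z : Finset V} (hZ : Z ⊆ A)
    (hanti : Anti r Z) : Set.InjOn col (Z : Set V) := by
  intro x hx y hy hxy
  rcases hch x (hZ hx) y (hZ hy) hxy with h | h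
  · exact hanti x hx y hy h
  · exact (hanti y hy x hx h).symm

private lemma a02_meet {V : Type*} {r : V → V → Prop} {A : Finset V} {col : V → ℕ} {k : ℕ}
    (hcol : ∀ x ∈ A, col x < k) (hch : ∀ x ∈ A, ∀ y ∈ A, col x = col y → r x y ∨ r y x)
    {Z : Finset V} (hZ : Z ⊆ A) (hanti : Anti r Z) (hk : Z.card = k) {i : ℕ} (hi : i < k) :
    ∃ z ∈ Z, col z = i := by
  classical
  have h1 : Z.image col ⊆ Finset.range k := by
    intro j hj
    obtain ⟨z, hz, rfl⟩ := Finset.mem_image.1 hj
    exact Finset.mem_range.2 (hcol z (hZ hz))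
  have h2 : (Z.image col).card = k := by
    rw [Finset.card_image_of_injOn (a02_inj hch hZ hanti), hk]
  have h3 : Z.image col = Finset.range k :=
    Finset.eq_of_subset_of_card_le h1 (by rw [h2, Finset.card_range])
  have h4 : i ∈ Z.image col := by rw [h3]; exact Finset.mem_range.2 hi
  exact Finset.mem_image.1 h4

private lemma a02_main {V : Type*} {r : V → V → Prop} (hr : IsPO r) (n : ℕ) :
    ∀ A : Finset V, A.card = n →
    ∃ (W : Finset V) (col : V → ℕ), W ⊆ A ∧ Anti r W ∧ (∀ x ∈ A, col x < W.card) ∧
      ∀ x ∈ A, ∀ y ∈ A, col x = col y → r x y ∨ r y x := by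
  classical
  induction n using Nat.strong_induction_on with
  | _ n ih =>
    intro A hAn
    rcases A.eq_empty_or_nonempty with rfl | hne
    · refine ⟨∅, fun _ => 0, by simp, ?_, by simp, by simp⟩
      intro x hx
      simp at hx
    obtain ⟨a, ha, hamax⟩ := a02_max hr A hne
    have hlt : (A.erase a).card < n := by rw [← hAn]; exact Finset.card_erase_lt_of_mem ha
    obtain ⟨W, col, hWA, hWanti, hcol, hch⟩ := ih _ hlt (A.erase a) rfl
    have hsub : A.erase a ⊆ A := Finset.erase_subset _ _
    -- the points of colour i in antichains of maximum size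
    let Y : ℕ → Finset V := fun i => (A.erase a).filter fun z => col z = i ∧
      ∃ Z : Finset V, Z ⊆ A.erase a ∧ Anti r Z ∧ Z.card = W.card ∧ z ∈ Z
    have hY : ∀ i, i < W.card → ∃ x ∈ Y i, ∀ b ∈ Y i, r b x := by
      intro i hi
      obtain ⟨z, hz, hzi⟩ := a02_meet hcol hch hWA hWanti rfl hi
      have hne' : (Y i).Nonempty :=
        ⟨z, Finset.mem_filter.2 ⟨hWA hz, hzi, W, hWA, hWanti, rfl, hz⟩⟩
      obtain ⟨x, hx, hxmax⟩ := a02_max hr (Y i) hne'
      refine ⟨x, hx, fun b hb => ?_⟩
      have hx' := Finset.mem_filter.1 hx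
      have hb' := Finset.mem_filter.1 hb
      rcases hch b hb'.1 x hx'.1 (hb'.2.1.trans hx'.2.1.symm) with h | h
      · exact h
      · rw [hxmax b hb h]; exact hr.1 x
    haveI : Nonempty V := ⟨a⟩
    choose! x hxY hxmax using hY
    have hxA : ∀ i < W.card, x i ∈ A.erase a := fun i hi => (Finset.mem_filter.1 (hxY i hi)).1
    have hxcol : ∀ i < W.card, col (x i) = i := fun i hi => (Finset.mem_filter.1 (hxY i hi)).2.1
    have hxle : ∀ i < W.card, ∀ j < W.card, r (x i) (x j) → i = j := by
      intro i hi j hj hij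
      obtain ⟨-, -, Z, hZA, hZanti, hZk, hxZ⟩ := Finset.mem_filter.1 (hxY j hj)
      obtain ⟨y, hy, hyi⟩ := a02_meet hcol hch hZA hZanti hZk hi
      have h1 : r y (x i) := hxmax i hi y (Finset.mem_filter.2 ⟨hZA hy, hyi, Z, hZA, hZanti, hZk, hy⟩)
      have h2 : y = x j := hZanti y hy _ hxZ (hr.2.2 _ _ _ h1 hij)
      rw [← hyi, h2, hxcol j hj]
    by_cases hcase : ∃ i < W.card, r (x i) a
    · obtain ⟨i, hi, hia⟩ := hcase
      -- remove the chain K
      let K : Finset V := A.filter fun z => z = a ∨ (z ≠ a ∧ col z = i ∧ r z (x i))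
      have hKa : a ∈ K := Finset.mem_filter.2 ⟨ha, Or.inl rfl⟩
      have hKch : ∀ u ∈ K, ∀ v ∈ K, r u v ∨ r v u := by
        intro u hu v hv
        obtain ⟨huA, hu⟩ := Finset.mem_filter.1 hu
        obtain ⟨hvA, hv⟩ := Finset.mem_filter.1 hv
        rcases hu with rfl | ⟨hua, hui, hux⟩
        · rcases hv with rfl | ⟨hva, hvi, hvx⟩
          · exact Or.inl (hr.1 _)
          · exact Or.inr (hr.2.2 _ _ _ hvx hia)
        · rcases hv with rfl | ⟨hva, hvi, hvx⟩
          · exact Or.inl (hr.2.2 _ _ _ hux hia)
          · exact hch u (Finset.mem_erase.2 ⟨hua, huA⟩) v (Finset.mem_erase.2 ⟨hva, hvA⟩)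
              (hui.trans hvi.symm)
      have hlt2 : (A \ K).card < n := by
        rw [← hAn]
        refine Finset.card_lt_card ⟨Finset.sdiff_subset, fun h => ?_⟩
        exact (Finset.mem_sdiff.1 (h ha)).2 hKa
      obtain ⟨W2, col2, hW2A, hW2anti, hcol2, hch2⟩ := ih _ hlt2 (A \ K) rfl
      have hW2e : W2 ⊆ A.erase a := by
        intro z hz
        have h := Finset.mem_sdiff.1 (hW2A hz)
        refine Finset.mem_erase.2 ⟨?_, h.1⟩
        rintro rfl
        exact h.2 hKa
      have hW2k : W2.card < W.card := by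
        have hle : W2.card ≤ W.card := by
          have h1 : W2.image col ⊆ Finset.range W.card := by
            intro j hj
            obtain ⟨z, hz, rfl⟩ := Finset.mem_image.1 hj
            exact Finset.mem_range.2 (hcol z (hW2e hz))
          have h2 := Finset.card_le_card h1
          rwa [Finset.card_image_of_injOn (a02_inj hch hW2e hW2anti), Finset.card_range] at h2
        refine lt_of_le_of_ne hle fun heq => ?_
        obtain ⟨z, hz, hzi⟩ := a02_meet hcol hch hW2e hW2anti heq hi
        have h1 : r z (x i) := hxmax i hi z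
          (Finset.mem_filter.2 ⟨hW2e hz, hzi, W2, hW2e, hW2anti, heq, hz⟩)
        have h2 := Finset.mem_sdiff.1 (hW2A hz)
        exact h2.2 (Finset.mem_filter.2 ⟨h2.1, Or.inr ⟨(Finset.mem_erase.1 (hW2e hz)).1, hzi, h1⟩⟩)
      refine ⟨W, fun z => if z ∈ K then W2.card else col2 z, hWA.trans hsub, hWanti, ?_, ?_⟩
      · intro z hz
        by_cases hzK : z ∈ K
        · simpa [hzK] using hW2k
        · simp only [hzK, if_false]
          exact (hcol2 z (Finset.mem_sdiff.2 ⟨hz, hzK⟩)).trans hW2k
      · intro u hu v hv huv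
        by_cases huK : u ∈ K
        · by_cases hvK : v ∈ K
          · exact hKch u huK v hvK
          · simp only [huK, hvK, if_true, if_false] at huv
            have := hcol2 v (Finset.mem_sdiff.2 ⟨hv, hvK⟩)
            omega
        · by_cases hvK : v ∈ K
          · simp only [huK, hvK, if_true, if_false] at huv
            have := hcol2 u (Finset.mem_sdiff.2 ⟨hu, huK⟩)
            omega
          · simp only [huK, hvK, if_false] at huv
            exact hch2 u (Finset.mem_sdiff.2 ⟨hu, huK⟩) v (Finset.mem_sdiff.2 ⟨hv, hvK⟩) huv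
    · push Not at hcase
      let X : Finset V := (Finset.range W.card).image x
      have hXcard : X.card = W.card := by
        rw [Finset.card_image_of_injOn, Finset.card_range]
        intro i hi j hj hij
        have hi' := Finset.mem_range.1 (Finset.mem_coe.1 hi)
        have hj' := Finset.mem_range.1 (Finset.mem_coe.1 hj)
        have hij' : x i = x j := hij
        exact hxle i hi' j hj' (by rw [hij']; exact hr.1 _)
      have hXmem : ∀ z ∈ X, ∃ i < W.card, z = x i := by
        intro z hz
        obtain ⟨i, hi, rfl⟩ := Finset.mem_image.1 hz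
        exact ⟨i, Finset.mem_range.1 hi, rfl⟩
      have haX : a ∉ X := by
        intro h
        obtain ⟨i, hi, h⟩ := hXmem a h
        exact (Finset.mem_erase.1 (hxA i hi)).1 h.symm
      refine ⟨insert a X, fun z => if z = a then W.card else col z, ?_, ?_, ?_, ?_⟩
      · intro z hz
        rcases Finset.mem_insert.1 hz with rfl | hz
        · exact ha
        · obtain ⟨i, hi, rfl⟩ := hXmem z hz
          exact hsub (hxA i hi)
      · intro u hu v hv huv
        rcases Finset.mem_insert.1 hu with rfl | hu
        · rcases Finset.mem_insert.1 hv with rfl | hv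
          · rfl
          · obtain ⟨i, hi, rfl⟩ := hXmem v hv
            exact (hamax _ (hsub (hxA i hi)) huv).symm
        · obtain ⟨i, hi, rfl⟩ := hXmem u hu
          rcases Finset.mem_insert.1 hv with rfl | hv
          · exact absurd huv (hcase i hi)
          · obtain ⟨j, hj, rfl⟩ := hXmem v hv
            rw [hxle i hi j hj huv]
      · intro z hz
        rw [Finset.card_insert_of_notMem haX, hXcard]
        by_cases hza : z = a
        · simp [hza]
        · simp only [hza, if_false]
          exact (hcol z (Finset.mem_erase.2 ⟨hza, hz⟩)).trans (Nat.lt_succ_self _)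
      · intro u hu v hv huv
        by_cases hua : u = a
        · by_cases hva : v = a
          · subst hua; subst hva
            exact Or.inl (hr.1 _)
          · simp only [hua, hva, if_true, if_false] at huv
            have := hcol v (Finset.mem_erase.2 ⟨hva, hv⟩)
            omega
        · by_cases hva : v = a
          · simp only [hua, hva, if_true, if_false] at huv
            have := hcol u (Finset.mem_erase.2 ⟨hua, hu⟩)
            omega
          · simp only [hua, hva, if_false] at huv
            exact hch u (Finset.mem_erase.2 ⟨hua, hu⟩) v (Finset.mem_erase.2 ⟨hva, hv⟩) huv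

theorem dilworth {V : Type*} {r : V → V → Prop} (hr : IsPO r) (A : Finset V) :
    ∃ (W : Finset V) (col : V → ℕ), W ⊆ A ∧ Anti r W ∧ (∀ x ∈ A, col x < W.card) ∧
      ∀ x ∈ A, ∀ y ∈ A, col x = col y → r x y ∨ r y x :=
  a02_main hr A.card A rfl

end Pool.Agent.Helper14.LD
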