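import Pool.Agent.Helper14.LD.Base

/-!
# A03: two maps which separate the points of an antichain
-/

namespace Pool.Agent.Helper14.LD

open Pool.Agent.Helper87.PD

theorem cv_mid {V : Type*} [DecidableEq V] {r : V → V → Prop} (hr : IsPO r) {L W U : Finset V} (hW : Anti r W)
    (hLW : Disjoint L W) (hLU : Disjoint L U) (hWU : Disjoint W U)
    (hL : ∀ x ∈ L ∪ W ∪ U, ∀ y ∈ L, r x y → x ∈ L) (hU : ∀ x ∈ U, ∀ y ∈ L ∪ W ∪ U, r x y → y ∈ U) :
    Cv r (L ∪ W ∪ U) (fun x y => x ∉ L ∧ y ∉ U) 2 := by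
  classical
  let j : V → ℕ := fun p => W.toList.idxOf p
  have hj : ∀ p ∈ W, j p < W.card := fun p hp => by
    have := List.idxOf_lt_length_of_mem (Finset.mem_toList.2 hp)
    rwa [Finset.length_toList] at this
  have hjj : ∀ p ∈ W, ∀ q ∈ W, j p = j q → p = q := fun p hp q hq h =>
    (List.idxOf_inj (Finset.mem_toList.2 hp)).1 h
  have hWc : ∀ p ∈ W, p ∉ L ∧ p ∉ U := fun p hp =>
    ⟨fun h => (Finset.disjoint_left.1 hLW h hp).elim, fun h => (Finset.disjoint_left.1 hWU hp h).elim⟩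
  have hUc : ∀ p ∈ U, p ∉ L := fun p hp h => (Finset.disjoint_left.1 hLU h hp).elim
  let ρ₁ : V → ℕ := fun p => if p ∈ L then 0 else if p ∈ U then W.card + 1 else 1 + j p
  let ρ₂ : V → ℕ := fun p => if p ∈ L then 0 else if p ∈ U then W.card + 1 else W.card - j p
  have e1 : ∀ p ∈ L, ρ₁ p = 0 ∧ ρ₂ p = 0 := fun p hp => by simp [ρ₁, ρ₂, hp]
  have e2 : ∀ p ∈ U, ρ₁ p = W.card + 1 ∧ ρ₂ p = W.card + 1 := fun p hp => by simp [ρ₁, ρ₂, hp, hUc p hp]
  have e3 : ∀ p ∈ W, ρ₁ p = 1 + j p ∧ ρ₂ p = W.card - j p := fun p hp => by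
    simp [ρ₁, ρ₂, (hWc p hp).1, (hWc p hp).2]
  have key : ∀ x ∈ L ∪ W ∪ U, ∀ y ∈ L ∪ W ∪ U, r x y → ρ₁ x ≤ ρ₁ y ∧ ρ₂ x ≤ ρ₂ y := by
    intro x hx y hy hxy
    by_cases hxL : x ∈ L
    · rw [(e1 x hxL).1, (e1 x hxL).2]; exact ⟨Nat.zero_le _, Nat.zero_le _⟩
    by_cases hyU : y ∈ U
    · rw [(e2 y hyU).1, (e2 y hyU).2]
      by_cases hxU : x ∈ U
      · rw [(e2 x hxU).1, (e2 x hxU).2]; exact ⟨le_rfl, le_rfl⟩
      · have hxW : x ∈ W := by simp only [Finset.mem_union] at hx; tauto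
        have := hj x hxW
        rw [(e3 x hxW).1, (e3 x hxW).2]; constructor <;> omega
    have hyL : y ∉ L := fun h => hxL (hL x hx y h hxy)
    have hxU : x ∉ U := fun h => hyU (hU x h y hy hxy)
    have hxW : x ∈ W := by simp only [Finset.mem_union] at hx; tauto
    have hyW : y ∈ W := by simp only [Finset.mem_union] at hy; tauto
    rw [hW x hxW y hyW hxy]; exact ⟨le_rfl, le_rfl⟩
  refine ⟨{ρ₁, ρ₂}, Finset.card_le_two, ?_, ?_⟩
  · intro ρ hρ
    rw [Finset.mem_insert, Finset.mem_singleton] at hρ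
    rcases hρ with rfl | rfl
    · exact fun x hx y hy hxy => (key x hx y hy hxy).1
    · exact fun x hx y hy hxy => (key x hx y hy hxy).2
  · rintro x hx y hy ⟨hxL, hyU⟩ h1 h2
    by_cases hyL : y ∈ L
    · refine ⟨ρ₁, by simp, ?_⟩
      rw [(e1 y hyL).1]
      by_cases hxU : x ∈ U
      · rw [(e2 x hxU).1]; omega
      · have hxW : x ∈ W := by simp only [Finset.mem_union] at hx; tauto
        rw [(e3 x hxW).1]; omega
    have hyW : y ∈ W := by simp only [Finset.mem_union] at hy; tauto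
    have hjy := hj y hyW
    by_cases hxU : x ∈ U
    · refine ⟨ρ₁, by simp, ?_⟩
      rw [(e2 x hxU).1, (e3 y hyW).1]; omega
    have hxW : x ∈ W := by simp only [Finset.mem_union] at hx; tauto
    have hjx := hj x hxW
    have hne : j x ≠ j y := fun h => h1 (by rw [hjj x hxW y hyW h]; exact hr.1 _)
    rcases lt_or_gt_of_ne hne with h | h
    · refine ⟨ρ₂, by simp, ?_⟩
      rw [(e3 x hxW).2, (e3 y hyW).2]; omega
    · refine ⟨ρ₁, by simp, ?_⟩
      rw [(e3 x hxW).1, (e3 y hyW).1]; omega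

/-- For two antichains with no point of `Y` below a point of `X`, two maps suffice for all pairs but those in
`X × Y`. -/
theorem cv_bip {V : Type*} [DecidableEq V] {r : V → V → Prop} (hr : IsPO r) {X Y : Finset V} (hX : Anti r X)
    (hY : Anti r Y) (hXY : Disjoint X Y) (h : ∀ x ∈ X, ∀ y ∈ Y, ¬ r y x) :
    Cv r (X ∪ Y) (fun x y => ¬ (x ∈ X ∧ y ∈ Y)) 4 := by
  have h1 := cv_mid (L := ∅) (W := X) (U := Y) hr hX (by simp) (by simp) hXY (by simp) (by
    intro x hx y hy hxy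
    simp only [Finset.empty_union, Finset.mem_union] at hy
    rcases hy with hy | hy
    · exact absurd hxy (h y hy x hx)
    · exact hy)
  have h2 := cv_mid (L := X) (W := Y) (U := ∅) hr hY hXY (by simp) (by simp) (by
    intro x hx y hy hxy
    simp only [Finset.union_empty, Finset.mem_union] at hx
    rcases hx with hx | hx
    · exact hx
    · exact absurd hxy (h y hy x hx)) (by simp)
  rw [Finset.empty_union] at h1
  rw [Finset.union_empty] at h2
  refine (h1.union h2).mono ?_ (by omega)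
  intro x hx y hy _ _ hS
  by_cases hxX : x ∈ X
  · exact Or.inl ⟨by simp, fun hyY => hS ⟨hxX, hyY⟩⟩
  · exact Or.inr ⟨hxX, by simp⟩

end Pool.Agent.Helper14.LD
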