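import Pool.Agent.Helper14.LD.Base

/-!
# A04: a maximal matching, and the cover it gives
-/

namespace Pool.Agent.Helper14.LD

open Pool.Agent.Helper87.PD

/-- If each edge of the graph `g` on `B` has a common cover of cost `1` for its two points, and each point of `B` has
a cover of cost `1`, then either there are `q` maps less than `|B|` which cover all points of `B`, or one can remove
`2 q` points of `B` so that no edge remains. -/
theorem match_step {V : Type*} [DecidableEq V] {r : V → V → Prop} {A : Finset V} (g : V → V → Prop)
    (S : V → V → V → Prop) (q : ℕ) : ∀ B : Finset V, (∀ b ∈ B, Cv r A (S b) 1) →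
    (∀ a ∈ B, ∀ b ∈ B, a ≠ b → g a b → Cv r A (fun x y => S a x y ∨ S b x y) 1) →
    (2 * q ≤ B.card ∧ Cv r A (fun x y => ∃ b ∈ B, S b x y) (B.card - q)) ∨
      ∃ R ⊆ B, R.card ≤ 2 * q ∧ ∀ a ∈ B \ R, ∀ b ∈ B \ R, a ≠ b → ¬ g a b := by
  induction q with
  | zero =>
    intro B h1 _
    exact Or.inl ⟨by omega, (Cv.biUnion B h1).mono (fun _ _ _ _ _ _ h => h) (by omega)⟩
  | succ q ih =>
    intro B h1 h2
    by_cases hB : ∃ a ∈ B, ∃ b ∈ B, a ≠ b ∧ g a b
    · obtain ⟨a, ha, b, hb, hab, hg⟩ := hB
      have hsub : (B.erase a).erase b ⊆ B := (Finset.erase_subset _ _).trans (Finset.erase_subset _ _)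
      have hb' : b ∈ B.erase a := Finset.mem_erase.2 ⟨hab.symm, hb⟩
      have hcard : ((B.erase a).erase b).card + 2 = B.card := by
        have e1 := Finset.card_erase_add_one ha
        have e2 := Finset.card_erase_add_one hb'
        omega
      have hmem : ∀ c ∈ B, c = a ∨ c = b ∨ c ∈ (B.erase a).erase b := by
        intro c hc
        simp only [Finset.mem_erase]
        tauto
      rcases ih ((B.erase a).erase b) (fun c hc => h1 c (hsub hc))
        (fun c hc d hd => h2 c (hsub hc) d (hsub hd)) with ⟨h3, h4⟩ | ⟨R, hR, hRc, hRg⟩
      · left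
        refine ⟨by omega, (h4.union (h2 a ha b hb hab hg)).mono ?_ (by omega)⟩
        rintro x _ y _ _ _ ⟨c, hc, hS⟩
        rcases hmem c hc with rfl | rfl | hc'
        · exact Or.inr (Or.inl hS)
        · exact Or.inr (Or.inr hS)
        · exact Or.inl ⟨c, hc', hS⟩
      · right
        refine ⟨insert a (insert b R), ?_, ?_, ?_⟩
        · intro c hc
          rcases Finset.mem_insert.1 hc with rfl | hc
          · exact ha
          rcases Finset.mem_insert.1 hc with rfl | hc
          · exact hb
          · exact hsub (hR hc)
        · have e1 := Finset.card_insert_le a (insert b R)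
          have e2 := Finset.card_insert_le b R
          omega
        · intro c hc d hd
          have conv : ∀ c ∈ B \ insert a (insert b R), c ∈ (B.erase a).erase b \ R := by
            intro c hc
            simp only [Finset.mem_sdiff, Finset.mem_insert, Finset.mem_erase, not_or] at hc ⊢
            tauto
          exact hRg c (conv c hc) d (conv d hd)
    · right
      refine ⟨∅, by simp, by simp, ?_⟩
      intro a ha b hb hab hg
      rw [Finset.sdiff_empty] at ha hb
      exact hB ⟨a, ha, b, hb, hab, hg⟩

end Pool.Agent.Helper14.LD
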