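import Pool.Agent.Helper14.LD.A02
import Pool.Agent.Helper14.LD.A03
import Pool.Agent.Helper14.LD.A04

/-!
# Block A05: the first step of the structure theorem
-/

namespace Pool.Agent.Helper14.LD

open Pool.Agent.Helper87.PD

/-- Three layers. -/
structure Tri {V : Type*} [DecidableEq V] (r : V → V → Prop) (L W U : Finset V) : Prop where
  antiL : Anti r L
  antiW : Anti r W
  antiU : Anti r U
  LW : Disjoint L W
  LU : Disjoint L U
  WU : Disjoint W U
  down : ∀ x ∈ L ∪ W ∪ U, ∀ y ∈ L, r x y → x ∈ L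
  up : ∀ x ∈ U, ∀ y ∈ L ∪ W ∪ U, r x y → y ∈ U
  all : ∀ x ∈ L, ∀ y ∈ U, r x y

/-- Colour classes give a cover. -/
private theorem a05_col {V : Type*} {r : V → V → Prop} (hr : IsPO r) {A : Finset V} {col : V → ℕ} {w : ℕ}
    (h1 : ∀ x ∈ A, col x < w) (h2 : ∀ x ∈ A, ∀ y ∈ A, col x = col y → r x y ∨ r y x) : Cov r A w := by
  classical
  have h : Cv r A (fun x y => ∃ i ∈ Finset.range w, x ∈ A.filter fun z => col z = i)
      ((Finset.range w).card * 1) := by
    refine Cv.biUnion (Finset.range w) (S := fun i x _ => x ∈ A.filter fun z => col z = i) fun i _ => ?_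
    refine cv_up hr ?_
    intro x hx y hy
    rw [Finset.mem_filter] at hx hy
    exact h2 x hx.1 y hy.1 (hx.2.trans hy.2.symm)
  refine h.mono ?_ (by rw [Finset.card_range, mul_one])
  intro x hx y _ _ _ _
  exact ⟨col x, Finset.mem_range.2 (h1 x hx), Finset.mem_filter.2 ⟨hx, rfl⟩⟩

/-- A maximum antichain of a chain decomposition meets each point. -/
private theorem a05_cmp {V : Type*} [DecidableEq V] {r : V → V → Prop} {A W : Finset V} {col : V → ℕ}
    (hWA : W ⊆ A) (h1 : ∀ x ∈ A, col x < W.card)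
    (h2 : ∀ x ∈ A, ∀ y ∈ A, col x = col y → r x y ∨ r y x) (hW : Anti r W)
    {x : V} (hx : x ∈ A) (hxW : x ∉ W) : (∃ w ∈ W, r x w) ∨ ∃ w ∈ W, r w x := by
  by_contra hcon
  push Not at hcon
  have hcard : (Finset.range W.card).card < (insert x W).card := by
    rw [Finset.card_range, Finset.card_insert_of_notMem hxW]
    exact Nat.lt_succ_self _
  have hmaps : ∀ a ∈ insert x W, col a ∈ Finset.range W.card := by
    intro a ha
    rw [Finset.mem_range]
    rcases Finset.mem_insert.1 ha with rfl | ha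
    · exact h1 _ hx
    · exact h1 _ (hWA ha)
  obtain ⟨a, ha, b, hb, hab, hcol⟩ := Finset.exists_ne_map_eq_of_card_lt_of_maps_to hcard hmaps
  have hA : ∀ a ∈ insert x W, a ∈ A := by
    intro a ha
    rcases Finset.mem_insert.1 ha with rfl | ha
    · exact hx
    · exact hWA ha
  rcases Finset.mem_insert.1 ha with rfl | ha' <;> rcases Finset.mem_insert.1 hb with rfl | hb'
  · exact hab rfl
  · rcases h2 _ (hA _ ha) _ (hA _ hb) hcol with h | h
    · exact hcon.1 _ hb' h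
    · exact hcon.2 _ hb' h
  · rcases h2 _ (hA _ ha) _ (hA _ hb) hcol with h | h
    · exact hcon.2 _ ha' h
    · exact hcon.1 _ ha' h
  · rcases h2 _ (hA _ ha) _ (hA _ hb) hcol with h | h
    · exact hab (hW _ ha' _ hb' h)
    · exact hab (hW _ hb' _ ha' h).symm

theorem tri_step {V : Type*} [DecidableEq V] {r : V → V → Prop} (hr : IsPO r) {A : Finset V} {c : ℕ}
    (hA : Hi r A c) : ∃ L W U : Finset V, Tri r L W U ∧ L ∪ W ∪ U ⊆ A ∧
      A.card ≤ (L ∪ W ∪ U).card + (2 * c + 6) ∧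
      ∀ k, Cov r (L ∪ W ∪ U) k → L.card + U.card ≤ k + (5 * c + 12) := by
  classical
  obtain ⟨W, col, hWA, hW, hc1, hc2⟩ := dilworth hr A
  have hAW : A.card ≤ 2 * W.card + c := hA _ (a05_col hr hc1 hc2)
  let L₀ : Finset V := (A \ W).filter fun x => ∃ w ∈ W, r x w
  let U₀ : Finset V := (A \ W).filter fun x => ∃ w ∈ W, r w x
  have mL : ∀ x, x ∈ L₀ ↔ (x ∈ A ∧ x ∉ W) ∧ ∃ w ∈ W, r x w := fun x => by
    simp only [L₀, Finset.mem_filter, Finset.mem_sdiff]
  have mU : ∀ x, x ∈ U₀ ↔ (x ∈ A ∧ x ∉ W) ∧ ∃ w ∈ W, r w x := fun x => by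
    simp only [U₀, Finset.mem_filter, Finset.mem_sdiff]
  -- no point outside `W` lies between two points of `W`
  have btw : ∀ x, x ∉ W → ∀ w ∈ W, ∀ w' ∈ W, r w x → r x w' → False := by
    intro x hx w hw w' hw' h1 h2
    have h3 := hW w hw w' hw' (hr.2.2 _ _ _ h1 h2)
    subst h3
    exact hx (by rw [hr.2.1 _ _ h2 h1]; exact hw)
  have dLW : Disjoint L₀ W := Finset.disjoint_left.2 fun x hx hxW => ((mL x).1 hx).1.2 hxW
  have dWU : Disjoint W U₀ := Finset.disjoint_left.2 fun x hxW hx => ((mU x).1 hx).1.2 hxW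
  have dLU : Disjoint L₀ U₀ := Finset.disjoint_left.2 fun x hx hx' => by
    obtain ⟨⟨_, hxW⟩, w, hw, h1⟩ := (mL x).1 hx
    obtain ⟨_, w', hw', h2⟩ := (mU x).1 hx'
    exact btw x hxW w' hw' w hw h2 h1
  have hun : L₀ ∪ W ∪ U₀ = A := by
    ext x
    simp only [Finset.mem_union]
    constructor
    · rintro ((h | h) | h)
      · exact ((mL x).1 h).1.1
      · exact hWA h
      · exact ((mU x).1 h).1.1
    · intro hx
      by_cases hxW : x ∈ W
      · exact Or.inl (Or.inr hxW)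
      rcases a05_cmp hWA hc1 hc2 hW hx hxW with h | h
      · exact Or.inl (Or.inl ((mL x).2 ⟨⟨hx, hxW⟩, h⟩))
      · exact Or.inr ((mU x).2 ⟨⟨hx, hxW⟩, h⟩)
  have hcard : A.card = L₀.card + W.card + U₀.card := by
    rw [← hun, Finset.card_union_of_disjoint, Finset.card_union_of_disjoint dLW]
    rw [Finset.disjoint_union_left]
    exact ⟨dLU, dWU⟩
  have hdown : ∀ x ∈ L₀ ∪ W ∪ U₀, ∀ y ∈ L₀, r x y → x ∈ L₀ := by
    intro x hx y hy hxy
    obtain ⟨⟨_, hyW⟩, w, hw, h1⟩ := (mL y).1 hy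
    have hxw : r x w := hr.2.2 _ _ _ hxy h1
    rw [hun] at hx
    refine (mL x).2 ⟨⟨hx, fun hxW => ?_⟩, w, hw, hxw⟩
    exact btw y hyW x hxW w hw hxy h1
  have hup : ∀ x ∈ U₀, ∀ y ∈ L₀ ∪ W ∪ U₀, r x y → y ∈ U₀ := by
    intro x hx y hy hxy
    obtain ⟨⟨_, hxW⟩, w, hw, h1⟩ := (mU x).1 hx
    have hwy : r w y := hr.2.2 _ _ _ h1 hxy
    rw [hun] at hy
    refine (mU y).2 ⟨⟨hy, fun hyW => ?_⟩, w, hw, hwy⟩
    exact btw x hxW w hw y hyW h1 hxy
  have key : ∀ k, Cov r A k → L₀.card + U₀.card ≤ k + c := by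
    intro k hk
    have := hA k hk
    omega
  have hBcard : (L₀ ∪ U₀).card = L₀.card + U₀.card := Finset.card_union_of_disjoint dLU
  let S : V → V → V → Prop := fun b x y => if b ∈ L₀ then x = b else y = b
  have SL : ∀ b ∈ L₀, ∀ x y, S b x y ↔ x = b := fun b hb x y => by simp only [S, if_pos hb]
  have SU : ∀ b ∈ U₀, ∀ x y, S b x y ↔ y = b := fun b hb x y => by
    have : b ∉ L₀ := fun h => Finset.disjoint_left.1 dLU h hb
    simp only [S, if_neg this]
  let g : V → V → Prop := fun a b => (a ∈ L₀ ∧ b ∈ L₀ ∧ (r a b ∨ r b a)) ∨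
    (a ∈ U₀ ∧ b ∈ U₀ ∧ (r a b ∨ r b a)) ∨ (a ∈ L₀ ∧ b ∈ U₀ ∧ ¬ r a b) ∨ (a ∈ U₀ ∧ b ∈ L₀ ∧ ¬ r b a)
  have chain2 : ∀ a b, (r a b ∨ r b a) → Chain r ({a, b} : Finset V) := by
    intro a b hab x hx y hy
    rw [Finset.mem_insert, Finset.mem_singleton] at hx hy
    rcases hx with rfl | rfl <;> rcases hy with rfl | rfl
    · exact Or.inl (hr.1 _)
    · exact hab
    · exact hab.symm
    · exact Or.inl (hr.1 _)
  have hm1 : ∀ b ∈ L₀ ∪ U₀, Cv r A (S b) 1 := by
    intro b hb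
    rcases Finset.mem_union.1 hb with hb | hb
    · refine (cv_up hr (chain_single hr b)).mono ?_ le_rfl
      intro x _ y _ _ _ h
      rw [SL b hb] at h
      exact Finset.mem_singleton.2 h
    · refine (cv_dn hr (chain_single hr b)).mono ?_ le_rfl
      intro x _ y _ _ _ h
      rw [SU b hb] at h
      exact Finset.mem_singleton.2 h
  have hm2 : ∀ a ∈ L₀ ∪ U₀, ∀ b ∈ L₀ ∪ U₀, a ≠ b → g a b → Cv r A (fun x y => S a x y ∨ S b x y) 1 := by
    rintro a _ b _ _ (⟨ha, hb, h⟩ | ⟨ha, hb, h⟩ | ⟨ha, hb, h⟩ | ⟨ha, hb, h⟩)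
    · refine (cv_up hr (chain2 a b h)).mono ?_ le_rfl
      intro x _ y _ _ _ h'
      rw [SL a ha, SL b hb] at h'
      rw [Finset.mem_insert, Finset.mem_singleton]
      exact h'
    · refine (cv_dn hr (chain2 a b h)).mono ?_ le_rfl
      intro x _ y _ _ _ h'
      rw [SU a ha, SU b hb] at h'
      rw [Finset.mem_insert, Finset.mem_singleton]
      exact h'
    · refine (cv_merge hr h).mono ?_ le_rfl
      intro x _ y _ _ _ h'
      rw [SL a ha, SU b hb] at h'
      exact h'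
    · refine (cv_merge hr h).mono ?_ le_rfl
      intro x _ y _ _ _ h'
      rw [SU a ha, SL b hb] at h'
      exact h'.symm
  rcases match_step (r := r) (A := A) g S (c + 3) (L₀ ∪ U₀) hm1 hm2 with ⟨h1, h2⟩ | ⟨R, hR, hRc, hRg⟩
  · exfalso
    have h3 := cv_mid hr hW dLW dLU dWU hdown hup
    rw [hun] at h3
    have h4 : Cov r A ((L₀ ∪ U₀).card - (c + 3) + 2) := by
      refine (h2.union h3).mono ?_ le_rfl
      intro x hx y hy _ _ _
      by_cases hxL : x ∈ L₀
      · exact Or.inl ⟨x, Finset.mem_union_left _ hxL, (SL x hxL x y).2 rfl⟩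
      by_cases hyU : y ∈ U₀
      · exact Or.inl ⟨y, Finset.mem_union_right _ hyU, (SU y hyU x y).2 rfl⟩
      exact Or.inr ⟨hxL, hyU⟩
    have h5 := key _ h4
    omega
  · have hRW : ∀ x ∈ W, x ∉ R := by
      intro x hx hxR
      rcases Finset.mem_union.1 (hR hxR) with h | h
      · exact Finset.disjoint_left.1 dLW h hx
      · exact Finset.disjoint_left.1 dWU hx h
    have hAR : L₀ \ R ∪ W ∪ U₀ \ R = A \ R := by
      rw [← hun]
      ext x
      simp only [Finset.mem_union, Finset.mem_sdiff]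
      constructor
      · rintro ((h | h) | h)
        · exact ⟨Or.inl (Or.inl h.1), h.2⟩
        · exact ⟨Or.inl (Or.inr h), hRW x h⟩
        · exact ⟨Or.inr h.1, h.2⟩
      · rintro ⟨(h | h) | h, h'⟩
        · exact Or.inl (Or.inl ⟨h, h'⟩)
        · exact Or.inl (Or.inr h)
        · exact Or.inr ⟨h, h'⟩
    have hsub : L₀ \ R ∪ W ∪ U₀ \ R ⊆ L₀ ∪ W ∪ U₀ := by
      rw [hAR, hun]
      exact Finset.sdiff_subset
    have memL : ∀ x ∈ L₀ \ R, x ∈ (L₀ ∪ U₀) \ R := fun x hx => by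
      rw [Finset.mem_sdiff] at hx ⊢
      exact ⟨Finset.mem_union_left _ hx.1, hx.2⟩
    have memU : ∀ x ∈ U₀ \ R, x ∈ (L₀ ∪ U₀) \ R := fun x hx => by
      rw [Finset.mem_sdiff] at hx ⊢
      exact ⟨Finset.mem_union_right _ hx.1, hx.2⟩
    have hLs : L₀ \ R ⊆ L₀ := Finset.sdiff_subset
    have hUs : U₀ \ R ⊆ U₀ := Finset.sdiff_subset
    refine ⟨L₀ \ R, W, U₀ \ R, ⟨?_, hW, ?_, ?_, ?_, ?_, ?_, ?_, ?_⟩, ?_, ?_, ?_⟩
    · intro x hx y hy hxy
      by_contra hne
      exact hRg x (memL x hx) y (memL y hy) hne (Or.inl ⟨hLs hx, hLs hy, Or.inl hxy⟩)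
    · intro x hx y hy hxy
      by_contra hne
      exact hRg x (memU x hx) y (memU y hy) hne (Or.inr (Or.inl ⟨hUs hx, hUs hy, Or.inl hxy⟩))
    · exact dLW.mono_left hLs
    · exact dLU.mono hLs hUs
    · exact dWU.mono_right hUs
    · intro x hx y hy hxy
      have h1 := hdown x (hsub hx) y (hLs hy) hxy
      rw [hAR, Finset.mem_sdiff] at hx
      exact Finset.mem_sdiff.2 ⟨h1, hx.2⟩
    · intro x hx y hy hxy
      have h1 := hup x (hUs hx) y (hsub hy) hxy
      rw [hAR, Finset.mem_sdiff] at hy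
      exact Finset.mem_sdiff.2 ⟨h1, hy.2⟩
    · intro x hx y hy
      by_contra hxy
      have hne : x ≠ y := by
        rintro rfl
        exact Finset.disjoint_left.1 dLU (hLs hx) (hUs hy)
      exact hRg x (memL x hx) y (memU y hy) hne (Or.inr (Or.inr (Or.inl ⟨hLs hx, hUs hy, hxy⟩)))
    · rw [hAR]
      exact Finset.sdiff_subset
    · rw [hAR]
      have h1 : A.card ≤ (A \ R).card + R.card := by
        have h2 := Finset.card_le_card_sdiff_add_card (s := A) (t := R)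
        omega
      omega
    · intro k hk
      rw [hAR] at hk
      have h1 := key _ (cov_remove hr hk)
      have h2 := Finset.card_le_card hLs
      have h3 := Finset.card_le_card hUs
      omega

end Pool.Agent.Helper14.LD
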