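import Pool.Agent.Helper14.LD.Base

/-!
# Block A06: three points with two maps
-/

namespace Pool.Agent.Helper14.LD

open Pool.Agent.Helper87.PD

open Classical in
/-- The map given by the chain of down-sets: down-closure of `P`, points below `a`, strictly below `c`, below `c`,
strictly below `d`, below `d`. -/
private noncomputable def a06_g {V : Type*} (r : V → V → Prop) (a : V) (P : V → Prop) (c d x : V) : ℕ :=
  if ∃ m, P m ∧ r x m then 0 else if r x a then 1 else if r x c ∧ x ≠ c then 2 else if r x c then 3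
  else if r x d ∧ x ≠ d then 4 else if r x d then 5 else 6

private theorem a06_mon {V : Type*} {r : V → V → Prop} (hr : IsPO r) (a : V) (P : V → Prop) (c d : V) {x y : V}
    (hxy : r x y) : a06_g r a P c d x ≤ a06_g r a P c d y := by
  have h1 : (∃ m, P m ∧ r y m) → ∃ m, P m ∧ r x m := fun ⟨m, hm, h⟩ => ⟨m, hm, hr.2.2 _ _ _ hxy h⟩
  have h2 : ∀ z, r y z → r x z := fun z h => hr.2.2 _ _ _ hxy h
  have h3 : ∀ z, (r y z ∧ y ≠ z) → (r x z ∧ x ≠ z) := by
    rintro z ⟨h, hne⟩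
    refine ⟨h2 z h, ?_⟩
    rintro rfl
    exact hne (hr.2.1 _ _ h hxy)
  unfold a06_g
  by_cases c1 : ∃ m, P m ∧ r y m
  · rw [if_pos c1, if_pos (h1 c1)]
  rw [if_neg c1]
  by_cases c2 : r y a
  · rw [if_pos c2, if_pos (h2 _ c2)]
    split_ifs <;> omega
  rw [if_neg c2]
  by_cases c3 : r y c ∧ y ≠ c
  · rw [if_pos c3, if_pos (h3 _ c3)]
    split_ifs <;> omega
  rw [if_neg c3]
  by_cases c4 : r y c
  · rw [if_pos c4, if_pos (h2 _ c4)]
    split_ifs <;> omega
  rw [if_neg c4]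
  by_cases c5 : r y d ∧ y ≠ d
  · rw [if_pos c5, if_pos (h3 _ c5)]
    split_ifs <;> omega
  rw [if_neg c5]
  by_cases c6 : r y d
  · rw [if_pos c6, if_pos (h2 _ c6)]
    split_ifs <;> omega
  rw [if_neg c6]
  split_ifs <;> omega

/-- `a ∈ L` is put above all points incomparable to it, and `b, b' ∈ U` are put below all points incomparable to them,
with two maps. -/
theorem cv_triple {V : Type*} [DecidableEq V] {r : V → V → Prop} (hr : IsPO r) {L W U : Finset V} (hW : Anti r W)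
    (hL' : Anti r L) (hU' : Anti r U) (hLW : Disjoint L W) (hLU : Disjoint L U) (hWU : Disjoint W U)
    (hL : ∀ x ∈ L ∪ W ∪ U, ∀ y ∈ L, r x y → x ∈ L) (hU : ∀ x ∈ U, ∀ y ∈ L ∪ W ∪ U, r x y → y ∈ U)
    (hall : ∀ x ∈ L, ∀ y ∈ U, r x y) {a b b' : V} (ha : a ∈ L) (hb : b ∈ U) (hb' : b' ∈ U) (hbb : b ≠ b') :
    Cv r (L ∪ W ∪ U) (fun x y => x = a ∨ y = b ∨ y = b') 2 := by
  classical
  -- upper points are not below `a`
  have hna : ∀ v, v ∈ W ∪ U → ¬ r v a := by
    intro v hv h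
    have h1 := hL v (by
      rcases Finset.mem_union.1 hv with h2 | h2
      · exact Finset.mem_union_left _ (Finset.mem_union_right _ h2)
      · exact Finset.mem_union_right _ h2) a ha h
    rcases Finset.mem_union.1 hv with h2 | h2
    · exact Finset.disjoint_left.1 hLW h1 h2
    · exact Finset.disjoint_left.1 hLU h1 h2
  have hmem : ∀ v, v ∈ W ∪ U → v ∈ L ∪ W ∪ U := by
    intro v hv
    rcases Finset.mem_union.1 hv with h2 | h2
    · exact Finset.mem_union_left _ (Finset.mem_union_right _ h2)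
    · exact Finset.mem_union_right _ h2
  -- incomparable to an upper point
  have hinc : ∀ v ∈ L ∪ W ∪ U, ∀ u ∈ U, ¬ r v u → v ∈ W ∪ U := by
    intro v hv u hu h
    rcases Finset.mem_union.1 hv with h2 | h2
    · rcases Finset.mem_union.1 h2 with h3 | h3
      · exact absurd (hall v h3 u hu) h
      · exact Finset.mem_union_left _ h3
    · exact Finset.mem_union_right _ h2
  -- down-closure of a set of points incomparable to `a`
  have hcl : ∀ P : V → Prop, (∀ m, P m → m ∈ L ∪ W ∪ U ∧ ¬ r a m) → ∀ v, v ∈ W ∪ U → ¬ P v →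
      ¬ ∃ m, P m ∧ r v m := by
    rintro P hP v hv hPv ⟨m, hm, hvm⟩
    obtain ⟨h1, h2⟩ := hP m hm
    have hmU : m ∉ U := fun h => h2 (hall a ha m h)
    rcases Finset.mem_union.1 hv with h3 | h3
    · rcases Finset.mem_union.1 h1 with h4 | h4
      · rcases Finset.mem_union.1 h4 with h5 | h5
        · exact Finset.disjoint_left.1 hLW (hL v (hmem v hv) m h5 hvm) h3
        · have := hW v h3 m h5 hvm
          exact hPv (this ▸ hm)
      · exact hmU h4
    · exact hmU (hU v h3 m h1 hvm)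
  have hPU : ∀ P : V → Prop, (∀ m, P m → m ∈ L ∪ W ∪ U ∧ ¬ r a m) → ∀ u ∈ U, ¬ P u :=
    fun P hP u hu h => (hP u h).2 (hall a ha u hu)
  have gc : ∀ P : V → Prop, (∀ m, P m → m ∈ L ∪ W ∪ U ∧ ¬ r a m) → ∀ c ∈ U, ∀ d, a06_g r a P c d c = 3 := by
    intro P hP c hc d
    have hc' : c ∈ W ∪ U := Finset.mem_union_right _ hc
    unfold a06_g
    rw [if_neg (hcl P hP c hc' (hPU P hP c hc)), if_neg (hna c hc'), if_neg (fun h => h.2 rfl), if_pos (hr.1 c)]
  have gd : ∀ P : V → Prop, ∀ c d, a06_g r a P c d d ≤ 5 := by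
    intro P c d
    unfold a06_g
    have := hr.1 d
    split_ifs <;> omega
  have gv : ∀ P : V → Prop, (∀ m, P m → m ∈ L ∪ W ∪ U ∧ ¬ r a m) → ∀ v, v ∈ W ∪ U → ¬ P v → ∀ c d, ¬ r v c →
      4 ≤ a06_g r a P c d v := by
    intro P hP v hv hPv c d hvc
    unfold a06_g
    rw [if_neg (hcl P hP v hv hPv), if_neg (hna v hv), if_neg (fun h => hvc h.1), if_neg hvc]
    split_ifs <;> omega
  have gv6 : ∀ P : V → Prop, (∀ m, P m → m ∈ L ∪ W ∪ U ∧ ¬ r a m) → ∀ v, v ∈ W ∪ U → ¬ P v → ∀ c d, ¬ r v c →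
      ¬ r v d → a06_g r a P c d v = 6 := by
    intro P hP v hv hPv c d hvc hvd
    unfold a06_g
    rw [if_neg (hcl P hP v hv hPv), if_neg (hna v hv), if_neg (fun h => hvc h.1), if_neg hvc,
      if_neg (fun h => hvd h.1), if_neg hvd]
  have ga : ∀ P : V → Prop, (∀ m, P m → m ∈ L ∪ W ∪ U ∧ ¬ r a m) → ∀ c d, a06_g r a P c d a = 1 := by
    intro P hP c d
    unfold a06_g
    rw [if_neg (fun ⟨m, hm, h⟩ => (hP m hm).2 h), if_pos (hr.1 a)]
  have g0 : ∀ P : V → Prop, ∀ v, P v → ∀ c d, a06_g r a P c d v = 0 := by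
    intro P v hv c d
    unfold a06_g
    rw [if_pos ⟨v, hv, hr.1 v⟩]
  set P1 : V → Prop := fun m => (m ∈ L ∪ W ∪ U ∧ ¬ r a m) ∧ (r m b ∨ ¬ r m b') with hP1
  set P2 : V → Prop := fun m => (m ∈ L ∪ W ∪ U ∧ ¬ r a m) ∧ r m b' with hP2
  have p1 : ∀ m, P1 m → m ∈ L ∪ W ∪ U ∧ ¬ r a m := fun m h => h.1
  have p2 : ∀ m, P2 m → m ∈ L ∪ W ∪ U ∧ ¬ r a m := fun m h => h.1
  refine ⟨{a06_g r a P1 b b', a06_g r a P2 b' b}, Finset.card_le_two, ?_, ?_⟩
  · intro ρ hρ x _ y _ hxy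
    rw [Finset.mem_insert, Finset.mem_singleton] at hρ
    rcases hρ with rfl | rfl
    · exact a06_mon hr a P1 b b' hxy
    · exact a06_mon hr a P2 b' b hxy
  · have m1 : a06_g r a P1 b b' ∈ ({a06_g r a P1 b b', a06_g r a P2 b' b} : Finset (V → ℕ)) :=
      Finset.mem_insert_self _ _
    have m2 : a06_g r a P2 b' b ∈ ({a06_g r a P1 b b', a06_g r a P2 b' b} : Finset (V → ℕ)) :=
      Finset.mem_insert_of_mem (Finset.mem_singleton_self _)
    intro x hx y hy hS h1 h2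
    rcases hS with rfl | rfl | rfl
    · -- x = a
      by_cases h3 : r y b ∨ ¬ r y b'
      · refine ⟨_, m1, ?_⟩
        rw [g0 P1 y ⟨⟨hy, h1⟩, h3⟩, ga P1 p1]
        exact Nat.zero_lt_one
      · rw [not_or, not_not] at h3
        refine ⟨_, m2, ?_⟩
        rw [g0 P2 y ⟨⟨hy, h1⟩, h3.2⟩, ga P2 p2]
        exact Nat.zero_lt_one
    · -- y = b
      have hv := hinc x hx y hb h1
      by_cases h3 : P1 x
      · refine ⟨_, m2, ?_⟩
        have h4 : ¬ r x b' := h3.2.resolve_left h1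
        have h5 : ¬ P2 x := fun h => h4 h.2
        rw [gv6 P2 p2 x hv h5 b' y h4 h1]
        exact Nat.lt_succ_of_le (gd P2 b' y)
      · refine ⟨_, m1, ?_⟩
        rw [gc P1 p1 y hb b']
        exact Nat.lt_of_succ_le (gv P1 p1 x hv h3 y b' h1)
    · -- y = b'
      have hv := hinc x hx y hb' h1
      refine ⟨_, m2, ?_⟩
      have h5 : ¬ P2 x := fun h => h1 h.2
      rw [gc P2 p2 y hb' b]
      exact Nat.lt_of_succ_le (gv P2 p2 x hv h5 y b h1)

end Pool.Agent.Helper14.LD
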