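import Pool.Agent.Helper14.LD.A05
import Pool.Agent.Helper14.LD.A06

/-!
# Block A07: one of the outer layers is small
-/

namespace Pool.Agent.Helper14.LD

open Pool.Agent.Helper87.PD

theorem small_side {V : Type*} [DecidableEq V] {r : V → V → Prop} (hr : IsPO r) {L W U : Finset V}
    (hT : Tri r L W U) {c : ℕ} (hc : ∀ k, Cov r (L ∪ W ∪ U) k → L.card + U.card ≤ k + c) :
    L.card ≤ 2 * c + 6 ∨ U.card ≤ 2 * c + 6 := by
  classical
  by_contra hcon
  rw [not_or, not_le, not_le] at hcon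
  obtain ⟨hL1, hU1⟩ := hcon
  obtain ⟨L', hL', hLc⟩ := Finset.exists_subset_card_eq (s := L) (n := c + 3) (by omega)
  obtain ⟨U', hU', hUc⟩ := Finset.exists_subset_card_eq (s := U) (n := 2 * (c + 3)) (by omega)
  let eL := (L'.equivFinOfCardEq hLc).symm
  let eU := (U'.equivFinOfCardEq hUc).symm
  let a : Fin (c + 3) → V := fun i => (eL i).1
  let b : Fin (c + 3) → V := fun i => (eU ⟨2 * i.1, by omega⟩).1
  let b' : Fin (c + 3) → V := fun i => (eU ⟨2 * i.1 + 1, by omega⟩).1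
  have ha : ∀ i, a i ∈ L := fun i => hL' (eL i).2
  have hb : ∀ i, b i ∈ U := fun i => hU' (eU _).2
  have hb' : ∀ i, b' i ∈ U := fun i => hU' (eU _).2
  have hbb : ∀ i, b i ≠ b' i := by
    intro i h
    have h1 := eU.injective (Subtype.ext h)
    have h2 := congrArg Fin.val h1
    simp only at h2
    omega
  have hasurj : ∀ x ∈ L', ∃ i, x = a i := by
    intro x hx
    refine ⟨eL.symm ⟨x, hx⟩, ?_⟩
    simp [a]
  have hbsurj : ∀ y ∈ U', ∃ i, y = b i ∨ y = b' i := by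
    intro y hy
    obtain ⟨j, hj⟩ : ∃ j, eU j = ⟨y, hy⟩ := eU.surjective _
    have hjy : y = (eU j).1 := by rw [hj]
    rcases Nat.even_or_odd' j.1 with ⟨m, hm | hm⟩
    · refine ⟨⟨m, by omega⟩, Or.inl ?_⟩
      rw [hjy]
      exact congrArg (fun t => (eU t).1) (Fin.ext hm)
    · refine ⟨⟨m, by omega⟩, Or.inr ?_⟩
      rw [hjy]
      exact congrArg (fun t => (eU t).1) (Fin.ext hm)
  have c1 : Cv r (L ∪ W ∪ U) (fun x y => ∃ i ∈ (Finset.univ : Finset (Fin (c + 3))), x = a i ∨ y = b i ∨ y = b' i)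
      ((Finset.univ : Finset (Fin (c + 3))).card * 2) :=
    Cv.biUnion _ fun i _ => cv_triple hr hT.antiW hT.antiL hT.antiU hT.LW hT.LU hT.WU hT.down hT.up hT.all
      (ha i) (hb i) (hb' i) (hbb i)
  have c2 : Cv r (L ∪ W ∪ U) (fun x y => ∃ i ∈ L \ L', x ∈ ({i} : Finset V)) ((L \ L').card * 1) :=
    Cv.biUnion _ fun i _ => cv_up hr (chain_single hr i)
  have c3 : Cv r (L ∪ W ∪ U) (fun x y => ∃ i ∈ U \ U', y ∈ ({i} : Finset V)) ((U \ U').card * 1) :=
    Cv.biUnion _ fun i _ => cv_dn hr (chain_single hr i)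
  have c4 := cv_mid hr hT.antiW hT.LW hT.LU hT.WU hT.down hT.up
  have hLcard : (L \ L').card = L.card - (c + 3) := by
    rw [Finset.card_sdiff_of_subset hL', hLc]
  have hUcard : (U \ U').card = U.card - 2 * (c + 3) := by
    rw [Finset.card_sdiff_of_subset hU', hUc]
  have key : Cov r (L ∪ W ∪ U) ((c + 3) * 2 + (L.card - (c + 3)) + (U.card - 2 * (c + 3)) + 2) := by
    refine (((c1.union c2).union c3).union c4).mono ?_ ?_
    · intro x hx y hy _ _ _
      by_cases hxL : x ∈ L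
      · by_cases hxL' : x ∈ L'
        · obtain ⟨i, hi⟩ := hasurj x hxL'
          exact Or.inl (Or.inl (Or.inl ⟨i, Finset.mem_univ _, Or.inl hi⟩))
        · exact Or.inl (Or.inl (Or.inr ⟨x, Finset.mem_sdiff.2 ⟨hxL, hxL'⟩, Finset.mem_singleton_self _⟩))
      by_cases hyU : y ∈ U
      · by_cases hyU' : y ∈ U'
        · obtain ⟨i, hi⟩ := hbsurj y hyU'
          exact Or.inl (Or.inl (Or.inl ⟨i, Finset.mem_univ _, Or.inr hi⟩))
        · exact Or.inl (Or.inr ⟨y, Finset.mem_sdiff.2 ⟨hyU, hyU'⟩, Finset.mem_singleton_self _⟩)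
      exact Or.inr ⟨hxL, hyU⟩
    · rw [hLcard, hUcard, Finset.card_univ, Fintype.card_fin]
      omega
  have := hc _ key
  omega

end Pool.Agent.Helper14.LD
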