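import Pool.Agent.Helper14.LD.A03

/-!
# Block A08: bipartite orders: an almost perfect matching of incomparable pairs
-/

namespace Pool.Agent.Helper14.LD

open Pool.Agent.Helper87.PD

private def a08_P {V : Type*} (r : V → V → Prop) (M : Finset (V × V)) : Prop :=
  (∀ p ∈ M, ¬ r p.1 p.2) ∧ (∀ p ∈ M, ∀ q ∈ M, p.1 = q.1 → p = q) ∧ ∀ p ∈ M, ∀ q ∈ M, p.2 = q.2 → p = q

theorem bip_step {V : Type*} [DecidableEq V] {r : V → V → Prop} (hr : IsPO r) {X Y : Finset V} (hX : Anti r X)
    (hY : Anti r Y) (hXY : Disjoint X Y) (h : ∀ x ∈ X, ∀ y ∈ Y, ¬ r y x) {c : ℕ} (hc : Hi r (X ∪ Y) c) :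
    ∃ M : Finset (V × V), Pre r M ∧ pts M ⊆ X ∪ Y ∧ (X ∪ Y).card ≤ 2 * M.card + c + 8 := by
  classical
  have hne : ((X ×ˢ Y).powerset.filter (a08_P r)).Nonempty :=
    ⟨∅, Finset.mem_filter.2 ⟨Finset.empty_mem_powerset _, by simp [a08_P]⟩⟩
  obtain ⟨M, hM, hmax⟩ := Finset.exists_max_image _ Finset.card hne
  rw [Finset.mem_filter, Finset.mem_powerset] at hM
  obtain ⟨hsub, hP1, hP2, hP3⟩ := hM
  have hmem : ∀ p ∈ M, p.1 ∈ X ∧ p.2 ∈ Y := fun p hp => Finset.mem_product.1 (hsub hp)
  refine ⟨M, ?_, ?_, ?_⟩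
  · intro p hp q hq
    refine ⟨?_, h _ (hmem p hp).1 _ (hmem q hq).2, fun h1 => hP2 p hp q hq (hX _ (hmem p hp).1 _ (hmem q hq).1 h1),
      fun h1 => hP3 p hp q hq (hY _ (hmem p hp).2 _ (hmem q hq).2 h1)⟩
    rintro rfl
    exact hP1 p hp
  · intro v hv
    unfold pts at hv
    rw [Finset.mem_union, Finset.mem_image, Finset.mem_image] at hv
    rw [Finset.mem_union]
    rcases hv with ⟨p, hp, rfl⟩ | ⟨p, hp, rfl⟩
    · exact Or.inl (hmem p hp).1
    · exact Or.inr (hmem p hp).2
  · have h1 : Cv r (X ∪ Y) (fun x y => ∃ i ∈ M, x = i.1 ∨ y = i.2) (M.card * 1) :=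
      Cv.biUnion M fun i hi => cv_merge hr (hP1 i hi)
    have h2 := (cv_bip hr hX hY hXY h).union h1
    have h3 : Cov r (X ∪ Y) (M.card + 4) := by
      refine h2.mono ?_ (by omega)
      intro x _ y _ hxy hyx _
      by_cases hxy' : x ∈ X ∧ y ∈ Y
      · refine Or.inr ?_
        by_contra hcon
        push Not at hcon
        have hnot : (x, y) ∉ M := fun hin => (hcon _ hin).1 rfl
        have h4 := hmax (insert (x, y) M) (by
          rw [Finset.mem_filter, Finset.mem_powerset]
          refine ⟨Finset.insert_subset (Finset.mem_product.2 hxy') hsub, ?_, ?_, ?_⟩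
          · intro p hp
            rcases Finset.mem_insert.1 hp with rfl | hp
            · exact hxy
            · exact hP1 p hp
          · intro p hp q hq hpq
            rcases Finset.mem_insert.1 hp with rfl | hp <;> rcases Finset.mem_insert.1 hq with rfl | hq
            · rfl
            · exact absurd hpq (hcon _ hq).1
            · exact absurd hpq.symm (hcon _ hp).1
            · exact hP2 p hp q hq hpq
          · intro p hp q hq hpq
            rcases Finset.mem_insert.1 hp with rfl | hp <;> rcases Finset.mem_insert.1 hq with rfl | hq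
            · rfl
            · exact absurd hpq (hcon _ hq).2
            · exact absurd hpq.symm (hcon _ hp).2
            · exact hP3 p hp q hq hpq)
        rw [Finset.card_insert_of_notMem hnot] at h4
        omega
      · exact Or.inl hxy'
    have h4 := hc _ h3
    omega

end Pool.Agent.Helper14.LD
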