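import Pool.Agent.Helper14.LD.Base

/-!
# Block A09: Ramsey's theorem for pairs and four colours
-/

namespace Pool.Agent.Helper14.LD

private lemma a09_pigeon (X : Finset ℕ) (g : ℕ → Fin 4) (n : ℕ) (hX : 4 * n ≤ X.card) :
    ∃ c, n ≤ (X.filter (fun j => g j = c)).card := by
  by_contra hc
  push Not at hc
  rcases Nat.eq_zero_or_pos n with h0 | h0
  · subst h0
    exact absurd (hc 0) (Nat.not_lt_zero _)
  have h1 : X.card = ∑ c : Fin 4, (X.filter (fun j => g j = c)).card :=
    Finset.card_eq_sum_card_fiberwise (fun x _ => Finset.mem_coe.2 (Finset.mem_univ (g x)))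
  rw [Fin.sum_univ_four] at h1
  have := hc 0
  have := hc 1
  have := hc 2
  have := hc 3
  omega

private lemma a09_end (m : ℕ) : ∃ N : ℕ, ∀ (f : ℕ → ℕ → Fin 4) (X : Finset ℕ), N ≤ X.card →
    ∃ A ⊆ X, A.card = m ∧ ∃ g : ℕ → Fin 4, ∀ i ∈ A, ∀ j ∈ A, i < j → f i j = g i := by
  induction m with
  | zero =>
    exact ⟨0, fun f X _ => ⟨∅, Finset.empty_subset _, Finset.card_empty, fun _ => 0, by simp⟩⟩
  | succ m ih =>
    obtain ⟨N, hN⟩ := ih
    refine ⟨4 * N + 1, fun f X hX => ?_⟩
    have hne : X.Nonempty := by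
      rw [← Finset.card_pos]
      omega
    set a := X.min' hne with ha
    have hamem : a ∈ X := X.min'_mem hne
    have hcard : (X.erase a).card = X.card - 1 := Finset.card_erase_of_mem hamem
    obtain ⟨c, hc⟩ := a09_pigeon (X.erase a) (f a) N (by omega)
    obtain ⟨A, hA, hAc, g, hg⟩ := hN f _ hc
    have haA : a ∉ A := by
      intro h
      have h1 := hA h
      simp at h1
    have hlt : ∀ j ∈ A, a < j ∧ f a j = c := by
      intro j hj
      have h1 := hA hj
      rw [Finset.mem_filter, Finset.mem_erase] at h1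
      have h2 := X.min'_le j h1.1.2
      exact ⟨lt_of_le_of_ne h2 (Ne.symm h1.1.1), h1.2⟩
    refine ⟨insert a A, ?_, ?_, Function.update g a c, ?_⟩
    · intro x hx
      rcases Finset.mem_insert.1 hx with h | h
      · rw [h]
        exact hamem
      · have h1 := hA h
        rw [Finset.mem_filter, Finset.mem_erase] at h1
        exact h1.1.2
    · rw [Finset.card_insert_of_notMem haA, hAc]
    · intro i hi j hj hij
      rcases Finset.mem_insert.1 hi with h | h
      · rcases Finset.mem_insert.1 hj with h' | h'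
        · omega
        · rw [h, Function.update_self]
          exact (hlt j h').2
      · rcases Finset.mem_insert.1 hj with h' | h'
        · have := (hlt i h).1
          omega
        · have hia : i ≠ a := by
            intro h1
            rw [h1] at h
            exact haA h
          rw [Function.update_of_ne hia]
          exact hg i h j h' hij

theorem ramsey (h : ℕ) : ∃ N : ℕ, ∀ f : ℕ → ℕ → Fin 4, ∃ S ⊆ Finset.range N, S.card = h ∧
    ∃ c, ∀ i ∈ S, ∀ j ∈ S, i < j → f i j = c := by
  obtain ⟨N, hN⟩ := a09_end (4 * h)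
  refine ⟨N, fun f => ?_⟩
  obtain ⟨A, hA, hAc, g, hg⟩ := hN f (Finset.range N) (by rw [Finset.card_range])
  obtain ⟨c, hc⟩ := a09_pigeon A g h (by omega)
  obtain ⟨S, hS, hSc⟩ := Finset.exists_subset_card_eq hc
  refine ⟨S, fun x hx => hA (Finset.mem_filter.1 (hS hx)).1, hSc, c, ?_⟩
  intro i hi j hj hij
  have h1 := Finset.mem_filter.1 (hS hi)
  have h2 := Finset.mem_filter.1 (hS hj)
  rw [hg i h1.1 j h2.1 hij]
  exact h1.2

end Pool.Agent.Helper14.LD
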