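import Pool.Agent.Helper14.LD.A03

/-!
# Block A10: a homogeneous family of arcs saves maps
-/

namespace Pool.Agent.Helper14.LD

open Pool.Agent.Helper87.PD

/-- one map for the pairs `(x i, y j)` with `κ i < κ j` -/
private theorem a10_row {V : Type*} {r : V → V → Prop} {A : Finset V} (hr : IsPO r) (S : Finset ℕ)
    (κ : ℕ → ℤ) (x y : ℕ → V) (hy : ∀ i ∈ S, ∀ j ∈ S, r (y i) (y j) → i = j)
    (hx : ∀ i ∈ S, ∀ j ∈ S, κ i < κ j → ¬ r (x i) (y j)) :
    Cv r A (fun u v => ∃ i ∈ S, ∃ j ∈ S, κ i < κ j ∧ u = x i ∧ v = y j) 1 := by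
  classical
  refine Cv.one (fun z => (S.filter fun l => ∀ u ∈ S, κ l ≤ κ u → ¬ r z (y u)).card) ?_ ?_
  · intro p _ q _ hpq
    refine Finset.card_le_card fun l hl => ?_
    rw [Finset.mem_filter] at hl ⊢
    exact ⟨hl.1, fun u hu hlu h => hl.2 u hu hlu (hr.2.2 _ _ _ hpq h)⟩
  · rintro p _ q _ ⟨i, hi, j, hj, hij, rfl, rfl⟩ _ _
    refine Finset.card_lt_card ⟨fun l hl => ?_, fun h => ?_⟩
    · rw [Finset.mem_filter] at hl ⊢
      refine ⟨hl.1, fun u hu hlu => hx i hi u hu ?_⟩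
      have h1 : ¬ κ l ≤ κ j := fun h => hl.2 j hj h (hr.1 _)
      omega
    · have h1 := h (Finset.mem_filter.2 ⟨hj, fun u hu hju => hx i hi u hu (by omega)⟩)
      exact (Finset.mem_filter.1 h1).2 j hj le_rfl (hr.1 _)

/-- one map for the arc `(a, b), (a', b')` -/
private theorem a10_arc {V : Type*} {r : V → V → Prop} {A : Finset V} (hr : IsPO r) {a b a' b' : V}
    (h1 : ¬ r a b) (h2 : ¬ r a' b') (h3 : ¬ r a b') (h4 : ¬ r b b') :
    Cv r A (fun x y => x = a ∨ y = b' ∨ (x = a' ∧ y = b)) 1 := by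
  classical
  refine Cv.one (fun x => if r x b' then 0 else if r x b then 1 else if r a x then 3 else 2) ?_ ?_
  · intro x _ y _ hxy
    by_cases e1 : r y b'
    · have e2 : r x b' := hr.2.2 _ _ _ hxy e1
      simp [e1, e2]
    by_cases e2 : r x b'
    · simp [e2]
    by_cases e3 : r y b
    · have e4 : r x b := hr.2.2 _ _ _ hxy e3
      simp [e1, e2, e3, e4]
    by_cases e4 : r x b
    · simp only [e1, e2, e3, e4, if_true, if_false]
      split_ifs <;> omega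
    by_cases e5 : r a x
    · have e6 : r a y := hr.2.2 _ _ _ e5 hxy
      simp [e1, e2, e3, e4, e5, e6]
    · simp only [e1, e2, e3, e4, e5, if_false]
      split_ifs <;> omega
  · rintro x _ y _ (rfl | rfl | ⟨rfl, rfl⟩) h5 h6
    · simp only [h1, h3, hr.1 x, h5, if_true, if_false]
      split_ifs <;> omega
    · simp only [hr.1 y, if_true, h5, if_false]
      split_ifs <;> omega
    · simp only [h2, h4, h5, hr.1 y, if_true, if_false]
      split_ifs <;> omega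

/-- `s i, e i` (`i ∈ S`) are different pairs of `M` with `(s i).1` and `(e i).2` incomparable. -/
theorem cov_arcs {V : Type*} [DecidableEq V] {r : V → V → Prop} (hr : IsPO r) {M : Finset (V × V)} (hM : Pre r M)
    (S : Finset ℕ) (s e : ℕ → V × V) (hs : ∀ i ∈ S, s i ∈ M) (he : ∀ i ∈ S, e i ∈ M)
    (hse : ∀ i ∈ S, ∀ j ∈ S, s i ≠ e j) (hss : ∀ i ∈ S, ∀ j ∈ S, s i = s j → i = j)
    (hee : ∀ i ∈ S, ∀ j ∈ S, e i = e j → i = j) (harc : ∀ i ∈ S, ¬ r (s i).1 (e i).2)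
    (h1 : (∀ i ∈ S, ∀ j ∈ S, i < j → r (e i).1 (s j).2) ∨ ∀ i ∈ S, ∀ j ∈ S, i < j → ¬ r (e i).1 (s j).2)
    (h2 : (∀ i ∈ S, ∀ j ∈ S, i < j → r (e j).1 (s i).2) ∨ ∀ i ∈ S, ∀ j ∈ S, i < j → ¬ r (e j).1 (s i).2) :
    Cov r (pts M) (M.card - S.card + 8) := by
  -- the part outside `X × Y`
  have c0 := cv_bip (X := M.image Prod.fst) (Y := M.image Prod.snd) hr
    (by
      intro x hx y hy hxy
      obtain ⟨p, hp, rfl⟩ := Finset.mem_image.1 hx
      obtain ⟨q, hq, rfl⟩ := Finset.mem_image.1 hy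
      rw [(hM p hp q hq).2.2.1 hxy])
    (by
      intro x hx y hy hxy
      obtain ⟨p, hp, rfl⟩ := Finset.mem_image.1 hx
      obtain ⟨q, hq, rfl⟩ := Finset.mem_image.1 hy
      rw [(hM p hp q hq).2.2.2 hxy])
    (by
      rw [Finset.disjoint_left]
      intro x hx hy
      obtain ⟨p, hp, rfl⟩ := Finset.mem_image.1 hx
      obtain ⟨q, hq, hqp⟩ := Finset.mem_image.1 hy
      refine (hM p hp q hq).2.1 ?_
      rw [hqp]
      exact hr.1 _)
    (by
      intro x hx y hy hxy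
      obtain ⟨p, hp, rfl⟩ := Finset.mem_image.1 hx
      obtain ⟨q, hq, rfl⟩ := Finset.mem_image.1 hy
      exact (hM p hp q hq).2.1 hxy)
  -- the pairs which do not belong to the arcs
  let T : Finset (V × V) := S.image s ∪ S.image e
  have hT : T ⊆ M := by
    intro p hp
    rcases Finset.mem_union.1 hp with h | h
    · obtain ⟨i, hi, rfl⟩ := Finset.mem_image.1 h
      exact hs i hi
    · obtain ⟨i, hi, rfl⟩ := Finset.mem_image.1 h
      exact he i hi
  have hTc : T.card = 2 * S.card := by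
    rw [Finset.card_union_of_disjoint, Finset.card_image_of_injOn fun i hi j hj h => hss i hi j hj h,
      Finset.card_image_of_injOn fun i hi j hj h => hee i hi j hj h, two_mul]
    rw [Finset.disjoint_left]
    intro p hp hp'
    obtain ⟨i, hi, rfl⟩ := Finset.mem_image.1 hp
    obtain ⟨j, hj, h⟩ := Finset.mem_image.1 hp'
    exact hse i hi j hj h.symm
  have hTM := Finset.card_le_card hT
  have c1 : Cv r (M.image Prod.fst ∪ M.image Prod.snd) (fun x y => ∃ p ∈ M \ T, x = p.1 ∨ y = p.2)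
      ((M \ T).card * 1) :=
    Cv.biUnion (M \ T) fun p hp => cv_merge hr ((hM p (Finset.mem_sdiff.1 hp).1 p
      (Finset.mem_sdiff.1 hp).1).1 rfl)
  -- the arcs
  have c2 : Cv r (M.image Prod.fst ∪ M.image Prod.snd)
      (fun x y => ∃ i ∈ S, (x = (s i).1 ∨ y = (e i).2 ∨ (x = (e i).1 ∧ y = (s i).2))) (S.card * 1) :=
    Cv.biUnion S fun i hi => a10_arc hr ((hM _ (hs i hi) _ (hs i hi)).1 rfl)
      ((hM _ (he i hi) _ (he i hi)).1 rfl) (harc i hi)
      (fun h => hse i hi i hi ((hM _ (hs i hi) _ (he i hi)).2.2.2 h))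
  have hyy : ∀ i ∈ S, ∀ j ∈ S, r (s i).2 (s j).2 → i = j := fun i hi j hj h =>
    hss i hi j hj ((hM _ (hs i hi) _ (hs j hj)).2.2.2 h)
  have c3 : Cv r (M.image Prod.fst ∪ M.image Prod.snd)
      (fun x y => ∃ i ∈ S, ∃ j ∈ S, i < j ∧ x = (e i).1 ∧ y = (s j).2) 1 := by
    rcases h1 with h1 | h1
    · refine Cv.zero.mono ?_ (Nat.zero_le 1)
      rintro x _ y _ hxy _ ⟨i, hi, j, hj, hij, rfl, rfl⟩
      exact hxy (h1 i hi j hj hij)
    · refine (a10_row hr S (fun i => (i : ℤ)) (fun i => (e i).1) (fun i => (s i).2) hyy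
        (fun i hi j hj hij => h1 i hi j hj (by omega))).mono ?_ le_rfl
      rintro x _ y _ _ _ ⟨i, hi, j, hj, hij, rfl, rfl⟩
      exact ⟨i, hi, j, hj, by omega, rfl, rfl⟩
  have c4 : Cv r (M.image Prod.fst ∪ M.image Prod.snd)
      (fun x y => ∃ i ∈ S, ∃ j ∈ S, j < i ∧ x = (e i).1 ∧ y = (s j).2) 1 := by
    rcases h2 with h2 | h2
    · refine Cv.zero.mono ?_ (Nat.zero_le 1)
      rintro x _ y _ hxy _ ⟨i, hi, j, hj, hij, rfl, rfl⟩
      exact hxy (h2 j hj i hi hij)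
    · refine (a10_row hr S (fun i => -(i : ℤ)) (fun i => (e i).1) (fun i => (s i).2) hyy
        (fun i hi j hj hij => h2 j hj i hi (by omega))).mono ?_ le_rfl
      rintro x _ y _ _ _ ⟨i, hi, j, hj, hij, rfl, rfl⟩
      exact ⟨i, hi, j, hj, by omega, rfl, rfl⟩
  have hc : (M \ T).card = M.card - T.card := Finset.card_sdiff_of_subset hT
  refine ((((c0.union c1).union c2).union c3).union c4).mono ?_ (by omega)
  intro x _ y _ _ _ _
  by_cases hxy : x ∈ M.image Prod.fst ∧ y ∈ M.image Prod.snd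
  swap
  · exact Or.inl (Or.inl (Or.inl (Or.inl hxy)))
  obtain ⟨p, hp, rfl⟩ := Finset.mem_image.1 hxy.1
  obtain ⟨q, hq, rfl⟩ := Finset.mem_image.1 hxy.2
  by_cases hpT : p ∈ T
  swap
  · exact Or.inl (Or.inl (Or.inl (Or.inr ⟨p, Finset.mem_sdiff.2 ⟨hp, hpT⟩, Or.inl rfl⟩)))
  by_cases hqT : q ∈ T
  swap
  · exact Or.inl (Or.inl (Or.inl (Or.inr ⟨q, Finset.mem_sdiff.2 ⟨hq, hqT⟩, Or.inr rfl⟩)))
  rcases Finset.mem_union.1 hpT with h | h
  · obtain ⟨i, hi, rfl⟩ := Finset.mem_image.1 h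
    exact Or.inl (Or.inl (Or.inr ⟨i, hi, Or.inl rfl⟩))
  obtain ⟨i, hi, rfl⟩ := Finset.mem_image.1 h
  rcases Finset.mem_union.1 hqT with h' | h'
  swap
  · obtain ⟨j, hj, rfl⟩ := Finset.mem_image.1 h'
    exact Or.inl (Or.inl (Or.inr ⟨j, hj, Or.inr (Or.inl rfl)⟩))
  obtain ⟨j, hj, rfl⟩ := Finset.mem_image.1 h'
  rcases lt_trichotomy i j with hij | rfl | hij
  · exact Or.inl (Or.inr ⟨i, hi, j, hj, hij, rfl, rfl⟩)
  · exact Or.inl (Or.inl (Or.inr ⟨i, hi, Or.inr (Or.inr ⟨rfl, rfl⟩)⟩))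
  · exact Or.inr ⟨i, hi, j, hj, hij, rfl, rfl⟩

end Pool.Agent.Helper14.LD
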