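import Pool.Agent.Helper14.LD.A09
import Pool.Agent.Helper14.LD.A10

/-!
# Block A11: from a perfect matching to a standard example
-/

namespace Pool.Agent.Helper14.LD

open Pool.Agent.Helper87.PD

private lemma a11_pts6 {V : Type*} [DecidableEq V] {r : V → V → Prop} (hr : IsPO r) {M : Finset (V × V)}
    (hM : Pre r M) : (pts M).card = 2 * M.card := by
  rw [pts, Finset.card_union_of_disjoint, Finset.card_image_of_injOn, Finset.card_image_of_injOn]
  · ring
  · intro p hp q hq h
    refine (hM p hp q hq).2.2.2 ?_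
    rw [show p.2 = q.2 from h]
    exact hr.1 _
  · intro p hp q hq h
    refine (hM p hp q hq).2.2.1 ?_
    rw [show p.1 = q.1 from h]
    exact hr.1 _
  · rw [Finset.disjoint_left]
    intro x hx hx'
    obtain ⟨p, hp, rfl⟩ := Finset.mem_image.1 hx
    obtain ⟨q, hq, hpq⟩ := Finset.mem_image.1 hx'
    refine (hM p hp q hq).2.1 ?_
    rw [hpq]
    exact hr.1 _

private def a11_Arcs6 {V : Type*} (r : V → V → Prop) (M : Finset (V × V)) (q : ℕ) : Prop :=
  ∃ s e : ℕ → V × V, (∀ i < q, s i ∈ M ∧ e i ∈ M ∧ ¬ r (s i).1 (e i).2) ∧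
    (∀ i < q, ∀ j < q, s i ≠ e j) ∧ (∀ i < q, ∀ j < q, s i = s j → i = j) ∧
    (∀ i < q, ∀ j < q, e i = e j → i = j)

private lemma a11_bits6 {A B A' B' : Prop} [Decidable A] [Decidable B] [Decidable A'] [Decidable B']
    (h : (if A then 1 else 0) + (if B then 2 else 0) = (if A' then 1 else 0) + (if B' then 2 else 0)) :
    (A ↔ A') ∧ (B ↔ B') := by
  by_cases hA : A <;> by_cases hB : B <;> by_cases hA' : A' <;> by_cases hB' : B' <;>
    simp_all

theorem arc_step (c : ℕ) : ∃ g : ℕ, ∀ (V : Type) [DecidableEq V] (r : V → V → Prop), IsPO r →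
    ∀ M : Finset (V × V), Pre r M → Hi r (pts M) c → ∃ E ⊆ M, Std r E ∧ M.card ≤ E.card + g := by
  classical
  obtain ⟨N, hN⟩ := ramsey (c + 9)
  refine ⟨2 * N, ?_⟩
  intro V _ r hr M hM hHi
  rcases M.eq_empty_or_nonempty with rfl | ⟨p₀, hp₀⟩
  · exact ⟨∅, Finset.Subset.refl _, by intro p hp; simp at hp, by simp⟩
  have h0 : a11_Arcs6 r M 0 :=
    ⟨fun _ => p₀, fun _ => p₀, by intro i hi; omega, by intro i hi; omega, by intro i hi; omega,
      by intro i hi; omega⟩
  -- no family of `N` arcs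
  have hNo : ¬ a11_Arcs6 r M N := by
    rintro ⟨s, e, h1, h2, h3, h4⟩
    obtain ⟨S, hS, hcard, c', hc'⟩ := hN (fun i j =>
      ⟨(if r (e i).1 (s j).2 then 1 else 0) + (if r (e j).1 (s i).2 then 2 else 0), by
        split_ifs <;> omega⟩)
    have hlt : ∀ i ∈ S, i < N := fun i hi => Finset.mem_range.1 (hS hi)
    have hbit : ∀ i ∈ S, ∀ j ∈ S, i < j → ∀ i' ∈ S, ∀ j' ∈ S, i' < j' →
        (r (e i).1 (s j).2 ↔ r (e i').1 (s j').2) ∧ (r (e j).1 (s i).2 ↔ r (e j').1 (s i').2) := by
      intro i hi j hj hij i' hi' j' hj' hij'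
      have h5 := (hc' i hi j hj hij).trans (hc' i' hi' j' hj' hij').symm
      exact a11_bits6 (congrArg Fin.val h5)
    have hcov := cov_arcs hr hM S s e (fun i hi => (h1 i (hlt i hi)).1) (fun i hi => (h1 i (hlt i hi)).2.1)
      (fun i hi j hj => h2 i (hlt i hi) j (hlt j hj)) (fun i hi j hj => h3 i (hlt i hi) j (hlt j hj))
      (fun i hi j hj => h4 i (hlt i hi) j (hlt j hj)) (fun i hi => (h1 i (hlt i hi)).2.2)
      (by
        by_cases H : ∃ i ∈ S, ∃ j ∈ S, i < j ∧ r (e i).1 (s j).2
        · obtain ⟨i', hi', j', hj', hij', hr'⟩ := H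
          exact Or.inl fun i hi j hj hij => ((hbit i hi j hj hij i' hi' j' hj' hij').1).2 hr'
        · exact Or.inr fun i hi j hj hij h => H ⟨i, hi, j, hj, hij, h⟩)
      (by
        by_cases H : ∃ i ∈ S, ∃ j ∈ S, i < j ∧ r (e j).1 (s i).2
        · obtain ⟨i', hi', j', hj', hij', hr'⟩ := H
          exact Or.inl fun i hi j hj hij => ((hbit i hi j hj hij i' hi' j' hj' hij').2).2 hr'
        · exact Or.inr fun i hi j hj hij h => H ⟨i, hi, j, hj, hij, h⟩)
    have h5 := hHi _ hcov
    rw [a11_pts6 hr hM, hcard] at h5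
    have h6 : S.card ≤ M.card := by
      refine Finset.card_le_card_of_injOn s (fun i hi => (h1 i (hlt i hi)).1) ?_
      intro i hi j hj hij
      exact h3 i (hlt i hi) j (hlt j hj) hij
    omega
  -- a maximal family
  obtain ⟨q, hqN, hq, hq'⟩ : ∃ q < N, a11_Arcs6 r M q ∧ ¬ a11_Arcs6 r M (q + 1) := by
    by_contra hcon
    push Not at hcon
    have : ∀ q ≤ N, a11_Arcs6 r M q := by
      intro q
      induction q with
      | zero => exact fun _ => h0
      | succ q ih => exact fun hq => hcon q (by omega) (ih (by omega))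
    exact hNo (this N le_rfl)
  obtain ⟨s, e, h1, h2, h3, h4⟩ := hq
  refine ⟨M \ ((Finset.range q).image s ∪ (Finset.range q).image e), Finset.sdiff_subset, ?_, ?_⟩
  · intro p hp p' hp'
    rw [Finset.mem_sdiff, Finset.mem_union, Finset.mem_image, Finset.mem_image] at hp hp'
    obtain ⟨hpM, hpn⟩ := hp
    obtain ⟨hpM', hpn'⟩ := hp'
    obtain ⟨ha, hb, hc1, hd⟩ := hM p hpM p' hpM'
    refine ⟨⟨fun h hpp => ha hpp h, fun hne => ?_⟩, hb, hc1, hd⟩
    by_contra hrn
    apply hq'
    have ns : ∀ i < q, s i ≠ p := fun i hi h => hpn (Or.inl ⟨i, Finset.mem_range.2 hi, h⟩)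
    have ne : ∀ i < q, e i ≠ p := fun i hi h => hpn (Or.inr ⟨i, Finset.mem_range.2 hi, h⟩)
    have ns' : ∀ i < q, s i ≠ p' := fun i hi h => hpn' (Or.inl ⟨i, Finset.mem_range.2 hi, h⟩)
    have ne' : ∀ i < q, e i ≠ p' := fun i hi h => hpn' (Or.inr ⟨i, Finset.mem_range.2 hi, h⟩)
    refine ⟨fun i => if i < q then s i else p, fun i => if i < q then e i else p', ?_, ?_, ?_, ?_⟩
    · intro i _
      by_cases hi : i < q
      · simp only [hi, if_true]
        exact h1 i hi
      · simp only [hi, if_false]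
        exact ⟨hpM, hpM', hrn⟩
    · intro i _ j _
      by_cases hi : i < q <;> by_cases hj : j < q <;> simp only [hi, hj, if_true, if_false]
      · exact h2 i hi j hj
      · exact ns' i hi
      · exact (ne j hj).symm
      · exact hne
    · intro i _ j _ hij
      by_cases hi : i < q <;> by_cases hj : j < q <;> simp only [hi, hj, if_true, if_false] at hij
      · exact h3 i hi j hj hij
      · exact absurd hij (ns i hi)
      · exact absurd hij.symm (ns j hj)
      · omega
    · intro i _ j _ hij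
      by_cases hi : i < q <;> by_cases hj : j < q <;> simp only [hi, hj, if_true, if_false] at hij
      · exact h4 i hi j hj hij
      · exact absurd hij (ne' i hi)
      · exact absurd hij.symm (ne' j hj)
      · omega
  · have h5 := Finset.le_card_sdiff ((Finset.range q).image s ∪ (Finset.range q).image e) M
    have h6 := Finset.card_union_le ((Finset.range q).image s) ((Finset.range q).image e)
    have h7 : ((Finset.range q).image s).card ≤ q := Finset.card_image_le.trans (by simp)
    have h8 : ((Finset.range q).image e).card ≤ q := Finset.card_image_le.trans (by simp)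
    omega

end Pool.Agent.Helper14.LD
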