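import Pool.Agent.Helper14.LD.A07
import Pool.Agent.Helper14.LD.A08
import Pool.Agent.Helper14.LD.A11

/-!
# A12: the structure theorem
-/

namespace Pool.Agent.Helper14.LD

open Pool.Agent.Helper87.PD

theorem bip_struct (c : ℕ) : ∃ g : ℕ, ∀ (V : Type) [DecidableEq V] (r : V → V → Prop), IsPO r →
    ∀ X Y : Finset V, Anti r X → Anti r Y → Disjoint X Y → (∀ x ∈ X, ∀ y ∈ Y, ¬ r y x) → Hi r (X ∪ Y) c →
      ∃ E, Std r E ∧ (X ∪ Y).card ≤ 2 * E.card + g := by
  obtain ⟨g, hg⟩ := arc_step (c + 4 * (c + 8))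
  refine ⟨2 * g + c + 8, ?_⟩
  intro V _ r hr X Y hX hY hXY h hc
  obtain ⟨M, hM, hMs, hMc⟩ := bip_step hr hX hY hXY h hc
  -- the points of `M`
  have hpts : (pts M).card = 2 * M.card := by
    unfold pts
    have h1 : (M.image Prod.fst).card = M.card := Finset.card_image_of_injOn fun p hp q hq hpq =>
      (hM p hp q hq).2.2.1 (by rw [hpq]; exact hr.1 _)
    have h2 : (M.image Prod.snd).card = M.card := Finset.card_image_of_injOn fun p hp q hq hpq =>
      (hM p hp q hq).2.2.2 (by rw [hpq]; exact hr.1 _)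
    rw [Finset.card_union_of_disjoint, h1, h2]
    · ring
    · rw [Finset.disjoint_left]
      intro v hv hv'
      obtain ⟨p, hp, rfl⟩ := Finset.mem_image.1 hv
      obtain ⟨q, hq, hpq⟩ := Finset.mem_image.1 hv'
      exact (hM p hp q hq).2.1 (by rw [hpq]; exact hr.1 _)
  have hHi : Hi r (pts M) (c + 4 * (c + 8)) := by
    have h1 := hc.remove hr (R := (X ∪ Y) \ pts M)
    rw [Finset.sdiff_sdiff_eq_self hMs] at h1
    have h2 : ((X ∪ Y) \ pts M).card = (X ∪ Y).card - (pts M).card := Finset.card_sdiff_of_subset hMs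
    intro k hk
    have := h1 k hk
    omega
  obtain ⟨E, _, hE, hEc⟩ := hg V r hr M hM hHi
  exact ⟨E, hE, by omega⟩

theorem structure_thm (c : ℕ) : ∃ f : ℕ, ∀ (V : Type) [DecidableEq V] (r : V → V → Prop), IsPO r →
    ∀ A : Finset V, Hi r A c → ∃ E, Std r E ∧ A.card ≤ 2 * E.card + f := by
  set c₁ := 5 * c + 12 with hc₁
  set c₂ := c + 4 * ((2 * c + 6) + (2 * c₁ + 6)) with hc₂
  obtain ⟨g, hg⟩ := bip_struct c₂
  refine ⟨g + (2 * c + 6) + (2 * c₁ + 6), ?_⟩
  intro V _ r hr A hA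
  obtain ⟨L, W, U, hT, hsub, hcard, hk⟩ := tri_step hr hA
  -- remove the set `S` and the points outside the three layers
  have key : ∀ S T : Finset V, Disjoint S T → S ∪ T = L ∪ W ∪ U → S.card ≤ 2 * c₁ + 6 → Hi r T c₂ ∧
      A.card ≤ T.card + (2 * c + 6) + (2 * c₁ + 6) := by
    intro S T hST hSTe hSc
    have hTA : T ⊆ A := (Finset.subset_union_right.trans hSTe.le).trans hsub
    have h0 : (L ∪ W ∪ U).card = S.card + T.card := by rw [← hSTe, Finset.card_union_of_disjoint hST]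
    have h1 := hA.remove hr (R := A \ T)
    rw [Finset.sdiff_sdiff_eq_self hTA] at h1
    have h2 : (A \ T).card = A.card - T.card := Finset.card_sdiff_of_subset hTA
    refine ⟨fun k hk => ?_, by omega⟩
    have := h1 k hk
    omega
  rcases small_side hr hT hk with h | h
  · obtain ⟨h1, h2⟩ := key L (W ∪ U) (Finset.disjoint_union_right.2 ⟨hT.LW, hT.LU⟩)
      (Finset.union_assoc _ _ _).symm h
    obtain ⟨E, hE, hEc⟩ := hg V r hr W U hT.antiW hT.antiU hT.WU (fun x hx y hy hyx => by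
      have : x ∈ U := hT.up y hy x (by simp [hx]) hyx
      exact Finset.disjoint_left.1 hT.WU hx this) h1
    exact ⟨E, hE, by omega⟩
  · obtain ⟨h1, h2⟩ := key U (L ∪ W) (Finset.disjoint_union_right.2 ⟨hT.LU.symm, hT.WU.symm⟩)
      (Finset.union_comm _ _) h
    obtain ⟨E, hE, hEc⟩ := hg V r hr L W hT.antiL hT.antiW hT.LW (fun x hx y hy hyx => by
      have : y ∈ L := hT.down y (by simp [hy]) x hx hyx
      exact Finset.disjoint_left.1 hT.LW this hy) h1
    exact ⟨E, hE, by omega⟩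

end Pool.Agent.Helper14.LD
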