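import Pool.Agent.Helper14.LD.Defs

/-!
# Block B01: twins
-/

namespace Pool.Agent.Helper14.LD

open Pool.Agent.Helper87.PD

variable {V : Type*} {r : V → V → Prop}

theorem Twin.ne (hr : IsPO r) {p q : V × V} (h : Twin r p q) : p ≠ q := fun hpq =>
  h.2.2.1.1 (by rw [hpq]; exact hr.1 _)

theorem Twin.symm {p q : V × V} (h : Twin r p q) : Twin r q p := by
  obtain ⟨⟨a1, a2, a3, a4⟩, ⟨b1, b2, b3, b4⟩, ⟨c1, c2, c3, c4⟩, hv⟩ := h
  refine ⟨⟨a3, a4, a1, a2⟩, ⟨b3, b4, b1, b2⟩, ⟨c2, c1, c4, c3⟩, fun v h1 h2 h3 h4 => ?_⟩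
  obtain ⟨d1, d2, d3, d4⟩ := hv v h3 h4 h1 h2
  exact ⟨d1.symm, d2.symm, d3.symm, d4.symm⟩

/-- the four points are different -/
theorem Twin.ne4 (hr : IsPO r) {p q : V × V} (h : Twin r p q) :
    p.1 ≠ p.2 ∧ q.1 ≠ q.2 ∧ p.1 ≠ q.1 ∧ p.1 ≠ q.2 ∧ p.2 ≠ q.1 ∧ p.2 ≠ q.2 := by
  obtain ⟨⟨a1, a2, a3, a4⟩, ⟨b1, b2, b3, b4⟩, ⟨c1, c2, c3, c4⟩, hv⟩ := h
  refine ⟨fun e => a1 ?_, fun e => a3 ?_, fun e => c1 ?_, fun e => b2 ?_, fun e => b4 ?_, fun e => c3 ?_⟩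
  all_goals rw [e]; exact hr.1 _

theorem Twin.trans (hr : IsPO r) {p q w : V × V} (h : Twin r p q) (h' : Twin r q w) (hpw : p ≠ w) :
    Twin r p w := by
  have n1 := h.ne4 hr
  have n2 := h'.ne4 hr
  have h0 := h
  have h0' := h'
  obtain ⟨⟨a1, a2, a3, a4⟩, ⟨b1, b2, b3, b4⟩, ⟨c1, c2, c3, c4⟩, hv⟩ := h
  obtain ⟨⟨a1', a2', a3', a4'⟩, ⟨b1', b2', b3', b4'⟩, ⟨c1', c2', c3', c4'⟩, hv'⟩ := h'
  obtain ⟨e1, e2, e3, e4, e5, e6⟩ := n1
  obtain ⟨f1, f2, f3, f4, f5, f6⟩ := n2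
  -- the points of `p` and `w` are different
  have g1 : p.1 ≠ w.2 := by
    intro e
    -- `q.1 < w.2 = p.1` but `q.1`, `p.1` are incomparable
    exact c2 (by rw [e]; exact b1')
  have g2 : p.2 ≠ w.1 := by
    intro e
    exact c4 (by rw [e]; exact absurd b3 (by rw [e]; exact fun hh => c1' hh))
  have g3 : p.1 ≠ w.1 := by
    intro e
    have hne : p.2 ≠ w.2 := fun e' => hpw (Prod.ext e e')
    by_cases hpw2 : w.2 = p.2
    · exact hne hpw2.symm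
    have := (hv w.2 (fun h => g1 h.symm) hpw2 (fun h => f4 h.symm) (fun h => f6 h.symm)).2.1
    exact a3' (by rw [← e]; exact this.2 b1')
  have g4 : p.2 ≠ w.2 := by
    intro e
    have := (hv w.1 (fun h => g3 h.symm) (fun h => g2 h.symm) (fun h => f3 h.symm) (fun h => f5 h.symm)).2.2.1
    exact a3' (by rw [← e]; exact this.2 b3')
  have v1 := hv w.1 (fun h => g3 h.symm) (fun h => g2 h.symm) (fun h => f3 h.symm) (fun h => f5 h.symm)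
  have v2 := hv w.2 (fun h => g1 h.symm) (fun h => g4 h.symm) (fun h => f4 h.symm) (fun h => f6 h.symm)
  have v3 := hv' p.1 e3 e4 g3 g1
  have v4 := hv' p.2 e5 e6 g2 g4
  obtain ⟨x1, x2, x3, x4⟩ := v1
  obtain ⟨y1, y2, y3, y4⟩ := v2
  refine ⟨⟨a1, a2, a3', a4'⟩, ⟨y2.2 b1', fun hh => b2' (y1.1 hh), x3.2 b3', fun hh => b4' (x4.1 hh)⟩,
    ⟨fun hh => c1' (x2.1 hh), fun hh => c2' (x1.1 hh), fun hh => c3' (y4.1 hh), fun hh => c4' (y3.1 hh)⟩, ?_⟩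
  intro v w1 w2 w3 w4
  by_cases u1 : v = q.1
  · subst u1
    exact ⟨⟨fun hh => absurd hh c2, fun hh => absurd hh c1'⟩, ⟨fun hh => absurd hh c1, fun hh => absurd hh c2'⟩,
      ⟨fun _ => b1', fun _ => b3⟩, ⟨fun hh => absurd hh b4, fun hh => absurd hh b2'⟩⟩
  by_cases u2 : v = q.2
  · subst u2
    exact ⟨⟨fun hh => absurd hh b2, fun hh => absurd hh b4'⟩, ⟨fun _ => b3', fun _ => b1⟩,
      ⟨fun hh => absurd hh c4, fun hh => absurd hh c3'⟩, ⟨fun hh => absurd hh c3, fun hh => absurd hh c4'⟩⟩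
  obtain ⟨z1, z2, z3, z4⟩ := hv v w1 w2 u1 u2
  obtain ⟨z1', z2', z3', z4'⟩ := hv' v u1 u2 w3 w4
  exact ⟨z1.trans z1', z2.trans z2', z3.trans z3', z4.trans z4'⟩

variable [Fintype V]

theorem mem_cl {p q : V × V} : q ∈ cl r p ↔ q = p ∨ Twin r p q := by
  classical
  unfold cl
  simp

theorem mem_Lg {G : ℕ} {p : V × V} : p ∈ Lg G r ↔ G ≤ (cl r p).card := by
  classical
  unfold Lg
  simp

theorem cl_sub (hr : IsPO r) {p q : V × V} (h : Twin r p q) : cl r q ⊆ cl r p := by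
  intro w hw
  rw [mem_cl] at hw ⊢
  rcases hw with rfl | hw
  · exact Or.inr h
  · by_cases hpw : p = w
    · exact Or.inl hpw.symm
    · exact Or.inr (h.trans hr hw hpw)

theorem cl_eq (hr : IsPO r) {p q : V × V} (h : Twin r p q) : cl r p = cl r q :=
  Finset.Subset.antisymm (cl_sub hr h.symm) (cl_sub hr h)

theorem Lg_of_twin (hr : IsPO r) {G : ℕ} {p q : V × V} (h : Twin r p q) (hp : p ∈ Lg G r) : q ∈ Lg G r := by
  rw [mem_Lg] at hp ⊢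
  rwa [← cl_eq hr h]

/-- A pair with many twins has a twin. -/
theorem exists_twin {G : ℕ} (hG : 2 ≤ G) {p : V × V} (hp : p ∈ Lg G r) : ∃ q, Twin r p q := by
  rw [mem_Lg] at hp
  obtain ⟨q, hq, hne⟩ := Finset.exists_mem_ne (lt_of_lt_of_le hG hp) p
  rw [mem_cl] at hq
  rcases hq with hq | hq
  · exact absurd hq hne
  · exact ⟨q, hq⟩

end Pool.Agent.Helper14.LD
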