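import Pool.Agent.Helper14.LD.B01

/-!
# Block B02: a pair with many twins belongs to every standard example of maximum size
-/

namespace Pool.Agent.Helper14.LD

open Pool.Agent.Helper87.PD

variable {V : Type*} [Fintype V] [DecidableEq V] {r : V → V → Prop}

theorem b02_mem_pts {E : Finset (V × V)} {v : V} : v ∈ pts E ↔ ∃ e ∈ E, v = e.1 ∨ v = e.2 := by
  unfold pts
  simp only [Finset.mem_union, Finset.mem_image]
  constructor
  · rintro (⟨e, he, rfl⟩ | ⟨e, he, rfl⟩)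
    · exact ⟨e, he, Or.inl rfl⟩
    · exact ⟨e, he, Or.inr rfl⟩
  · rintro ⟨e, he, rfl | rfl⟩
    · exact Or.inl ⟨e, he, rfl⟩
    · exact Or.inr ⟨e, he, rfl⟩

theorem pts_card (hr : IsPO r) {E : Finset (V × V)} (hE : Std r E) : (pts E).card = 2 * E.card := by
  unfold pts
  have h1 : (E.image Prod.fst).card = E.card := Finset.card_image_of_injOn fun p hp q hq hpq =>
    (hE p hp q hq).2.2.1 (by rw [hpq]; exact hr.1 _)
  have h2 : (E.image Prod.snd).card = E.card := Finset.card_image_of_injOn fun p hp q hq hpq =>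
    (hE p hp q hq).2.2.2 (by rw [hpq]; exact hr.1 _)
  rw [Finset.card_union_of_disjoint, h1, h2]
  · ring
  · rw [Finset.disjoint_left]
    intro v hv hv'
    obtain ⟨p, hp, rfl⟩ := Finset.mem_image.1 hv
    obtain ⟨q, hq, hpq⟩ := Finset.mem_image.1 hv'
    exact (hE p hp q hq).2.1 (by rw [hpq]; exact hr.1 _)

theorem b02_twin (hr : IsPO r) {p q w : V × V} (hq : q ∈ cl r p) (hw : w ∈ cl r p) (hqw : q ≠ w) :
    Twin r q w := by
  rw [mem_cl] at hq hw
  rcases hq with rfl | hq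
  · rcases hw with rfl | hw
    · exact absurd rfl hqw
    · exact hw
  · rcases hw with rfl | hw
    · exact hq.symm
    · exact hq.symm.trans hr hw hqw

/-- two twins inside the points of `E` -/
theorem b02_mem (hr : IsPO r) {E : Finset (V × V)} (hE : Std r E) {q w : V × V} (h : Twin r q w)
    (h1 : q.1 ∈ pts E) (h2 : q.2 ∈ pts E) (h3 : w.1 ∈ pts E) (h4 : w.2 ∈ pts E) : q ∈ E := by
  have n := h.ne4 hr
  obtain ⟨n1, n2, n3, n4, n5, n6⟩ := n
  obtain ⟨⟨a1, a2, a3, a4⟩, ⟨c1, c2, c3, c4⟩, -, -⟩ := h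
  rw [b02_mem_pts] at h1 h2 h3 h4
  obtain ⟨e, he, he'⟩ := h1
  obtain ⟨g, hg, hg'⟩ := h4
  obtain ⟨e₂, he₂, he₂'⟩ := h2
  obtain ⟨g₂, hg₂, hg₂'⟩ := h3
  have k1 : q.1 = e.1 := by
    rcases he' with he' | he'
    · exact he'
    · exfalso
      rcases hg' with hg' | hg'
      · rw [he', hg'] at c1
        exact (hE g hg e he).2.1 c1
      · rw [he', hg'] at c1
        have := (hE e he g hg).2.2.2 c1
        exact n4 (by rw [he', hg', this])
  have k2 : q.2 = e₂.2 := by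
    rcases he₂' with he₂' | he₂'
    · exfalso
      rcases hg₂' with hg₂' | hg₂'
      · rw [he₂', hg₂'] at c3
        have := (hE g₂ hg₂ e₂ he₂).2.2.1 c3
        exact n5 (by rw [he₂', hg₂', this])
      · rw [he₂', hg₂'] at c3
        exact (hE e₂ he₂ g₂ hg₂).2.1 c3
    · exact he₂'
  have k3 : e = e₂ := by
    by_contra hne
    exact a1 (by rw [k1, k2]; exact (hE e he e₂ he₂).1.2 hne)
  subst k3
  have : q = e := Prod.ext k1 k2
  rw [this]; exact he

/-- many members inside -/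
theorem b02_inside (hr : IsPO r) {f : ℕ} {E : Finset (V × V)} (hE : Std r E)
    (hf : Fintype.card V ≤ 2 * E.card + f) {p : V × V} (hp : p ∈ Lg (f + 3) r) :
    3 ≤ ((cl r p).filter fun q => q.1 ∈ pts E ∧ q.2 ∈ pts E).card := by
  rw [mem_Lg] at hp
  have h1 := Finset.card_filter_add_card_filter_not (s := cl r p) (fun q => q.1 ∈ pts E ∧ q.2 ∈ pts E)
  have h2 : ((cl r p).filter fun q => ¬ (q.1 ∈ pts E ∧ q.2 ∈ pts E)).card ≤ (Finset.univ \ pts E).card := by
    refine Finset.card_le_card_of_injOn (fun q => if q.1 ∈ pts E then q.2 else q.1) ?_ ?_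
    · intro q hq
      have hq' := (Finset.mem_filter.1 (Finset.mem_coe.1 hq)).2
      simp only [Finset.coe_sdiff, Finset.coe_univ, Set.mem_diff, Set.mem_univ, true_and, Finset.mem_coe]
      by_cases h : q.1 ∈ pts E
      · rw [if_pos h]; exact fun h' => hq' ⟨h, h'⟩
      · rw [if_neg h]; exact h
    · intro q hq w hw hqw
      by_contra hne
      have t := b02_twin hr (Finset.mem_filter.1 (Finset.mem_coe.1 hq)).1
        (Finset.mem_filter.1 (Finset.mem_coe.1 hw)).1 hne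
      obtain ⟨n1, n2, n3, n4, n5, n6⟩ := t.ne4 hr
      simp only at hqw
      split_ifs at hqw
      · exact n6 hqw
      · exact n5 hqw
      · exact n4 hqw
      · exact n3 hqw
  have h3 : (Finset.univ \ pts E).card = Fintype.card V - 2 * E.card := by
    rw [Finset.card_sdiff_of_subset (Finset.subset_univ _), Finset.card_univ, pts_card hr hE]
  omega

/-- A large standard example `E` which misses a point of a pair `p` with many twins misses both points, and one can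
add `p` to `E`. -/
theorem std_insert (hr : IsPO r) {f : ℕ} {E : Finset (V × V)} (hE : Std r E)
    (hf : Fintype.card V ≤ 2 * E.card + f) {p : V × V} (hp : p ∈ Lg (f + 3) r)
    (h : p.1 ∉ pts E ∨ p.2 ∉ pts E) : p ∉ E ∧ p.1 ∉ pts E ∧ p.2 ∉ pts E ∧ Std r (insert p E) := by
  have hin := b02_inside hr hE hf hp
  obtain ⟨q, hq, q', hq', hqq⟩ := Finset.one_lt_card.1 (by omega : 1 < ((cl r p).filter fun q =>
    q.1 ∈ pts E ∧ q.2 ∈ pts E).card)
  rw [Finset.mem_filter] at hq hq'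
  have hqE : q ∈ E := b02_mem hr hE (b02_twin hr hq.1 hq'.1 hqq) hq.2.1 hq.2.2 hq'.2.1 hq'.2.2
  have hpq : p ≠ q := by
    rintro rfl
    rcases h with h | h
    · exact h hq.2.1
    · exact h hq.2.2
  have ht : Twin r p q := by
    rcases mem_cl.1 hq.1 with h' | h'
    · exact absurd h'.symm hpq
    · exact h'
  obtain ⟨n1, n2, n3, n4, n5, n6⟩ := ht.ne4 hr
  have hpE : p ∉ E := fun hpE => by
    rcases h with h | h
    · exact h (b02_mem_pts.2 ⟨p, hpE, Or.inl rfl⟩)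
    · exact h (b02_mem_pts.2 ⟨p, hpE, Or.inr rfl⟩)
  have hne : ∀ a ∈ E, ∀ b ∈ E, a.1 ≠ b.2 := fun a ha b hb hab =>
    (hE a ha b hb).2.1 (by rw [hab]; exact hr.1 _)
  have hne1 : ∀ a ∈ E, ∀ b ∈ E, a ≠ b → a.1 ≠ b.1 := fun a ha b hb hab h' =>
    hab ((hE a ha b hb).2.2.1 (by rw [h']; exact hr.1 _))
  have hne2 : ∀ a ∈ E, ∀ b ∈ E, a ≠ b → a.2 ≠ b.2 := fun a ha b hb hab h' =>
    hab ((hE a ha b hb).2.2.2 (by rw [h']; exact hr.1 _))
  obtain ⟨⟨a1, a2, a3, a4⟩, ⟨c1, c2, c3, c4⟩, ⟨d1, d2, d3, d4⟩, hv⟩ := ht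
  have hp1 : p.1 ∉ pts E := by
    intro hcon
    have hp2 : p.2 ∉ pts E := by
      rcases h with h | h
      · exact absurd hcon h
      · exact h
    obtain ⟨e, he, he'⟩ := b02_mem_pts.1 hcon
    rcases he' with he' | he'
    · have heq : e ≠ q := fun h' => n3 (by rw [he', h'])
      have v := hv e.2 (fun h' => hne e he e he (by rw [← he', h']))
        (fun h' => hp2 (b02_mem_pts.2 ⟨e, he, Or.inr h'.symm⟩)) (fun h' => hne q hqE e he h'.symm)
        (hne2 e he q hqE heq)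
      have := v.2.1.2 ((hE q hqE e he).1.2 (fun h' => heq h'.symm))
      rw [he'] at this
      exact (hE e he e he).1.1 this rfl
    · rw [he'] at c1
      have := (hE e he q hqE).2.2.2 c1
      exact n4 (by rw [he', this])
  have hp2 : p.2 ∉ pts E := by
    intro hcon
    obtain ⟨e, he, he'⟩ := b02_mem_pts.1 hcon
    rcases he' with he' | he'
    · rw [he'] at c3
      have := (hE q hqE e he).2.2.1 c3
      exact n5 (by rw [he', this])
    · have heq : e ≠ q := fun h' => n6 (by rw [he', h'])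
      have v := hv e.1 (fun h' => hp1 (b02_mem_pts.2 ⟨e, he, Or.inl h'.symm⟩))
        (fun h' => hne e he e he (by rw [h', he'])) (hne1 e he q hqE heq) (hne e he q hqE)
      have := v.2.2.1.2 ((hE e he q hqE).1.2 heq)
      rw [he'] at this
      exact (hE e he e he).1.1 this rfl
  refine ⟨hpE, hp1, hp2, ?_⟩
  have key : ∀ e ∈ E, r p.1 e.2 ∧ ¬ r e.2 p.1 ∧ ¬ r p.1 e.1 ∧ ¬ r p.2 e.2 ∧ r e.1 p.2 ∧ ¬ r p.2 e.1 ∧
      ¬ r e.1 p.1 ∧ ¬ r e.2 p.2 := by
    intro e he
    by_cases heq : e = q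
    · subst heq
      exact ⟨c1, c2, d1, d3, c3, c4, d2, d4⟩
    have v := hv e.1 (fun h' => hp1 (b02_mem_pts.2 ⟨e, he, Or.inl h'.symm⟩))
      (fun h' => hp2 (b02_mem_pts.2 ⟨e, he, Or.inl h'.symm⟩)) (hne1 e he q hqE heq) (hne e he q hqE)
    have w := hv e.2 (fun h' => hp1 (b02_mem_pts.2 ⟨e, he, Or.inr h'.symm⟩))
      (fun h' => hp2 (b02_mem_pts.2 ⟨e, he, Or.inr h'.symm⟩)) (fun h' => hne q hqE e he h'.symm)
      (hne2 e he q hqE heq)
    have heq' : q ≠ e := fun h' => heq h'.symm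
    obtain ⟨s1, s2, s3, s4⟩ := hE e he q hqE
    obtain ⟨t1, t2, t3, t4⟩ := hE q hqE e he
    refine ⟨w.2.1.2 (t1.2 heq'), fun h' => t2 (w.1.1 h'), fun h' => heq' (t3 (v.2.1.1 h')),
      fun h' => heq' (t4 (w.2.2.2.1 h')), v.2.2.1.2 (s1.2 heq), fun h' => s2 (v.2.2.2.1 h'),
      fun h' => heq (s3 (v.1.1 h')), fun h' => heq (s4 (w.2.2.1.1 h'))⟩
  intro a ha b hb
  rcases Finset.mem_insert.1 ha with rfl | ha1
  · rcases Finset.mem_insert.1 hb with rfl | hb
    · exact ⟨⟨fun h' => absurd h' a1, fun h' => absurd rfl h'⟩, a2, fun _ => rfl, fun _ => rfl⟩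
    · obtain ⟨k1, k2, k3, k4, k5, k6, k7, k8⟩ := key b hb
      exact ⟨⟨fun _ h' => hpE (h' ▸ hb), fun _ => k1⟩, k2, fun h' => absurd h' k3, fun h' => absurd h' k4⟩
  · rcases Finset.mem_insert.1 hb with rfl | hb
    · obtain ⟨k1, k2, k3, k4, k5, k6, k7, k8⟩ := key a ha1
      exact ⟨⟨fun _ h' => hpE (h' ▸ ha1), fun _ => k5⟩, k6, fun h' => absurd h' k7, fun h' => absurd h' k8⟩
    · exact hE a ha1 b hb

theorem mem_of_max (hr : IsPO r) {f m : ℕ} (hm : MaxStd r m) (hf : Fintype.card V ≤ 2 * m + f)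
    {E : Finset (V × V)} (hE : Std r E) (hEm : E.card = m) {p : V × V} (hp : p ∈ Lg (f + 3) r) : p ∈ E := by
  by_cases h : p.1 ∉ pts E ∨ p.2 ∉ pts E
  · exfalso
    obtain ⟨h1, -, -, h4⟩ := std_insert hr hE (by rw [hEm]; exact hf) hp h
    have := hm.2 _ h4
    rw [Finset.card_insert_of_notMem h1] at this
    omega
  · push_neg at h
    have hin := b02_inside hr hE (by rw [hEm]; exact hf) hp
    obtain ⟨q, hq, hne⟩ := Finset.exists_mem_ne (by omega : 1 < ((cl r p).filter fun q =>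
      q.1 ∈ pts E ∧ q.2 ∈ pts E).card) p
    rw [Finset.mem_filter] at hq
    exact b02_mem hr hE (b02_twin hr (mem_cl.2 (Or.inl rfl)) hq.1 hne.symm) h.1 h.2 hq.2.1 hq.2.2

end Pool.Agent.Helper14.LD
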