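import Pool.Agent.Helper14.LD.B02

/-!
# Block B03: the common part of the two orders
-/

namespace Pool.Agent.Helper14.LD

open Pool.Agent.Helper87.PD

variable {V : Type*} [Fintype V] [DecidableEq V] {r s : V → V → Prop}

theorem b03_mem_pts {E : Finset (V × V)} {x : V} : x ∈ pts E ↔ ∃ q ∈ E, x = q.1 ∨ x = q.2 := by
  rw [pts, Finset.mem_union, Finset.mem_image, Finset.mem_image]
  constructor
  · rintro (⟨q, hq, rfl⟩ | ⟨q, hq, rfl⟩)
    · exact ⟨q, hq, Or.inl rfl⟩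
    · exact ⟨q, hq, Or.inr rfl⟩
  · rintro ⟨q, hq, rfl | rfl⟩
    · exact Or.inl ⟨q, hq, rfl⟩
    · exact Or.inr ⟨q, hq, rfl⟩

theorem b03_Lg_mono {G G' : ℕ} (h : G' ≤ G) {p : V × V} (hp : p ∈ Lg G r) : p ∈ Lg G' r :=
  mem_Lg.2 (h.trans (mem_Lg.1 hp))

theorem b03_std_off {x₀ : V} (hrs : Off r s x₀) {E : Finset (V × V)} (hE : Std s E) (hx : x₀ ∉ pts E) :
    Std r E := by
  intro q hq w hw
  have hq1 : q.1 ≠ x₀ := fun h => hx (b03_mem_pts.2 ⟨q, hq, Or.inl h.symm⟩)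
  have hq2 : q.2 ≠ x₀ := fun h => hx (b03_mem_pts.2 ⟨q, hq, Or.inr h.symm⟩)
  have hw1 : w.1 ≠ x₀ := fun h => hx (b03_mem_pts.2 ⟨w, hw, Or.inl h.symm⟩)
  have hw2 : w.2 ≠ x₀ := fun h => hx (b03_mem_pts.2 ⟨w, hw, Or.inr h.symm⟩)
  have h := hE q hq w hw
  rwa [← hrs _ _ hq1 hw2, ← hrs _ _ hw2 hq1, ← hrs _ _ hq1 hw1, ← hrs _ _ hq2 hw2] at h

theorem b03_disj (hs : IsPO s) {E : Finset (V × V)} (hE : Std s E) {q w : V × V} (hq : q ∈ E) (hw : w ∈ E)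
    (hne : q ≠ w) : q.1 ≠ w.1 ∧ q.1 ≠ w.2 ∧ q.2 ≠ w.1 ∧ q.2 ≠ w.2 := by
  have h1 := hE q hq w hw
  have h2 := hE w hw q hq
  refine ⟨fun h => ?_, fun h => ?_, fun h => ?_, fun h => ?_⟩
  · exact hne (h1.2.2.1 (by rw [h]; exact hs.1 _))
  · exact h1.2.1 (by rw [h]; exact hs.1 _)
  · exact h2.2.1 (by rw [h]; exact hs.1 _)
  · exact hne (h1.2.2.2 (by rw [h]; exact hs.1 _))

theorem exists_sit {f G m : ℕ} (h : Good f G m r s) {x₀ : V} (hrs : Off r s x₀) {p : V × V} (hp : p ∈ Lg G r)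
    (hx : x₀ = p.1 ∨ x₀ = p.2) : ∃ p' E, Sit f G m r s x₀ p p' E := by
  have hgood := h
  obtain ⟨hr, hs, hmr, hms, hcard, hfG, -, -⟩ := h
  obtain ⟨E', hE', hE'm⟩ := hms.1
  have hx₀ : x₀ ∈ pts E' := by
    by_contra hcon
    have h1 : Std r E' := b03_std_off hrs hE' hcon
    have h2 : p.1 ∉ pts E' ∨ p.2 ∉ pts E' := by
      rcases hx with hx | hx
      · exact Or.inl (hx ▸ hcon)
      · exact Or.inr (hx ▸ hcon)
    obtain ⟨h3, -, -, h4⟩ := std_insert hr h1 (by rw [hE'm]; exact hcard)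
      (b03_Lg_mono (by omega) hp) h2
    have h5 := hmr.2 _ h4
    rw [Finset.card_insert_of_notMem h3, hE'm] at h5
    omega
  obtain ⟨p', hp', hx'⟩ := b03_mem_pts.1 hx₀
  have hcE : (E'.erase p').card + 1 = m := by
    rw [Finset.card_erase_add_one hp', hE'm]
  have hxE : x₀ ∉ pts (E'.erase p') := by
    intro hcon
    obtain ⟨q, hq, hxq⟩ := b03_mem_pts.1 hcon
    rw [Finset.mem_erase] at hq
    obtain ⟨d1, d2, d3, d4⟩ := b03_disj hs hE' hq.2 hp' hq.1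
    rcases hx' with hx' | hx' <;> rcases hxq with hxq | hxq
    · exact d1 (hxq.symm.trans hx')
    · exact d3 (hxq.symm.trans hx')
    · exact d2 (hxq.symm.trans hx')
    · exact d4 (hxq.symm.trans hx')
  have hsE : Std s (E'.erase p') := fun q hq w hw =>
    hE' q (Finset.mem_of_mem_erase hq) w (Finset.mem_of_mem_erase hw)
  have hrE : Std r (E'.erase p') := b03_std_off hrs hsE hxE
  have h2 : p.1 ∉ pts (E'.erase p') ∨ p.2 ∉ pts (E'.erase p') := by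
    rcases hx with hx | hx
    · exact Or.inl (hx ▸ hxE)
    · exact Or.inr (hx ▸ hxE)
  obtain ⟨h3, -, -, h4⟩ := std_insert (f := f + 2) hr hrE (by omega) (b03_Lg_mono (by omega) hp) h2
  refine ⟨p', E'.erase p', hgood, hrs, hp, hx, hx', hcE, hxE, h3, Finset.notMem_erase _ _, h4, ?_⟩
  rw [Finset.insert_erase hp']
  exact hE'

end Pool.Agent.Helper14.LD
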