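import Pool.Agent.Helper14.LD.B02

/-!
# Block B04: comparison of the pairs with many twins
-/

namespace Pool.Agent.Helper14.LD

open Pool.Agent.Helper87.PD

variable {V : Type*} [Fintype V] [DecidableEq V] {r s : V → V → Prop} {f G m : ℕ} {x₀ : V} {p p' : V × V}
  {E : Finset (V × V)}

omit [Fintype V] in
private theorem b04_uni (hE : Std r (insert p E)) (hx : x₀ = p.1 ∨ x₀ = p.2) (hp : p ∉ E)
    {q w : V × V} (hq : q ∈ E) (hw : w ∈ E) :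
    (r x₀ q.1 ↔ r x₀ w.1) ∧ (r q.1 x₀ ↔ r w.1 x₀) ∧ (r x₀ q.2 ↔ r x₀ w.2) ∧
      (r q.2 x₀ ↔ r w.2 x₀) := by
  have key : ∀ {u : V × V}, u ∈ E → (x₀ = p.1 → ¬ r x₀ u.1 ∧ ¬ r u.1 x₀ ∧ r x₀ u.2 ∧ ¬ r u.2 x₀) ∧
      (x₀ = p.2 → ¬ r x₀ u.1 ∧ r u.1 x₀ ∧ ¬ r x₀ u.2 ∧ ¬ r u.2 x₀) := by
    intro u hu
    have hpu : p ≠ u := fun h => hp (h ▸ hu)
    have h1 := hE p (Finset.mem_insert_self _ _) u (Finset.mem_insert_of_mem hu)
    have h2 := hE u (Finset.mem_insert_of_mem hu) p (Finset.mem_insert_self _ _)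
    constructor
    · rintro rfl
      exact ⟨fun h => hpu (h1.2.2.1 h), fun h => hpu (h2.2.2.1 h).symm, h1.1.mpr hpu, h1.2.1⟩
    · rintro rfl
      exact ⟨h2.2.1, h2.1.mpr hpu.symm, fun h => hpu (h1.2.2.2 h), fun h => hpu (h2.2.2.2 h).symm⟩
  rcases hx with h | h
  · obtain ⟨a1, a2, a3, a4⟩ := (key hq).1 h
    obtain ⟨b1, b2, b3, b4⟩ := (key hw).1 h
    exact ⟨iff_of_false a1 b1, iff_of_false a2 b2, iff_of_true a3 b3, iff_of_false a4 b4⟩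
  · obtain ⟨a1, a2, a3, a4⟩ := (key hq).2 h
    obtain ⟨b1, b2, b3, b4⟩ := (key hw).2 h
    exact ⟨iff_of_false a1 b1, iff_of_true a2 b2, iff_of_false a3 b3, iff_of_false a4 b4⟩

omit [Fintype V] in
private theorem b04_pts {q : V × V} (h : x₀ ∉ pts E) (hq : q ∈ E) : q.1 ≠ x₀ ∧ q.2 ≠ x₀ := by
  constructor
  · rintro rfl
    exact h (Finset.mem_union_left _ (Finset.mem_image_of_mem _ hq))
  · rintro rfl
    exact h (Finset.mem_union_right _ (Finset.mem_image_of_mem _ hq))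

omit [Fintype V] [DecidableEq V] in
private theorem b04_half (hoff : Off r s x₀) {q w : V × V} (hq : q.1 ≠ x₀ ∧ q.2 ≠ x₀)
    (hw : w.1 ≠ x₀ ∧ w.2 ≠ x₀)
    (hu : (s x₀ q.1 ↔ s x₀ w.1) ∧ (s q.1 x₀ ↔ s w.1 x₀) ∧ (s x₀ q.2 ↔ s x₀ w.2) ∧
      (s q.2 x₀ ↔ s w.2 x₀)) (h : Twin r q w) : Twin s q w := by
  obtain ⟨⟨a1, a2, a3, a4⟩, ⟨b1, b2, b3, b4⟩, ⟨c1, c2, c3, c4⟩, hv⟩ := h
  obtain ⟨q1, q2⟩ := hq
  obtain ⟨w1, w2⟩ := hw
  refine ⟨⟨?_, ?_, ?_, ?_⟩, ⟨?_, ?_, ?_, ?_⟩, ⟨?_, ?_, ?_, ?_⟩, ?_⟩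
  · rwa [← hoff _ _ q1 q2]
  · rwa [← hoff _ _ q2 q1]
  · rwa [← hoff _ _ w1 w2]
  · rwa [← hoff _ _ w2 w1]
  · rwa [← hoff _ _ q1 w2]
  · rwa [← hoff _ _ w2 q1]
  · rwa [← hoff _ _ w1 q2]
  · rwa [← hoff _ _ q2 w1]
  · rwa [← hoff _ _ q1 w1]
  · rwa [← hoff _ _ w1 q1]
  · rwa [← hoff _ _ q2 w2]
  · rwa [← hoff _ _ w2 q2]
  · intro v v1 v2 v3 v4
    by_cases hvx : v = x₀
    · rw [hvx]
      exact hu
    · rw [← hoff _ _ hvx q1, ← hoff _ _ hvx w1, ← hoff _ _ q1 hvx, ← hoff _ _ w1 hvx,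
        ← hoff _ _ hvx q2, ← hoff _ _ hvx w2, ← hoff _ _ q2 hvx, ← hoff _ _ w2 hvx]
      exact hv v v1 v2 v3 v4

omit [Fintype V] [DecidableEq V] in
private theorem b04_off (hoff : Off r s x₀) : Off s r x₀ := fun u v hu hv => (hoff u v hu hv).symm

theorem Sit.twin_iff (h : Sit f G m r s x₀ p p' E) {q w : V × V} (hq : q ∈ E) (hw : w ∈ E) :
    Twin r q w ↔ Twin s q w := by
  obtain ⟨-, hoff, -, hx, hx', -, hxE, hp, hp', hEr, hEs⟩ := h
  have h1 := b04_pts hxE hq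
  have h2 := b04_pts hxE hw
  exact ⟨b04_half hoff h1 h2 (b04_uni hEs hx' hp' hq hw),
    b04_half (b04_off hoff) h1 h2 (b04_uni hEr hx hp hq hw)⟩

theorem Sit.lg_sub (h : Sit f G m r s x₀ p p' E) : Lg G r ⊆ insert p E ∧ Lg G s ⊆ insert p' E := by
  obtain ⟨⟨hr, hs, hmr, hms, hV, hG, -, -⟩, -, -, -, -, hcard, -, hp, hp', hEr, hEs⟩ := h
  constructor
  · intro q hq
    refine mem_of_max hr hmr hV hEr ?_ ?_
    · rw [Finset.card_insert_of_notMem hp, hcard]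
    · rw [mem_Lg] at hq ⊢
      omega
  · intro q hq
    refine mem_of_max hs hms hV hEs ?_ ?_
    · rw [Finset.card_insert_of_notMem hp', hcard]
    · rw [mem_Lg] at hq ⊢
      omega

/-- Twins of a pair with many twins have many twins. -/
private theorem b04_cl_sub {L : Finset (V × V)} (hr : IsPO r) (hL : Lg G r ⊆ L) {q : V × V}
    (hq : q ∈ Lg G r) : cl r q ⊆ L := by
  intro w hw
  rw [mem_cl] at hw
  rcases hw with rfl | hw
  · exact hL hq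
  · exact hL (Lg_of_twin hr hw hq)

private theorem b04_lg (hr : IsPO r) (hcl : ∀ p, (cl r p).card ≠ G) (hL : Lg G r ⊆ insert p E)
    (htw : ∀ {q w : V × V}, q ∈ E → w ∈ E → Twin r q w → Twin s q w) {q : V × V} (hq : q ∈ E)
    (hqL : q ∈ Lg G r) : q ∈ Lg G s := by
  have h1 := b04_cl_sub hr hL hqL
  have h2 : (cl r q).erase p ⊆ cl s q := by
    intro w hw
    rw [Finset.mem_erase] at hw
    have hwE : w ∈ E := Finset.mem_of_mem_insert_of_ne (h1 hw.2) hw.1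
    rw [mem_cl] at hw ⊢
    rcases hw.2 with h3 | h3
    · exact Or.inl h3
    · exact Or.inr (htw hq hwE h3)
  have h3 := Finset.card_le_card h2
  have h4 := Finset.pred_card_le_card_erase (s := cl r q) (a := p)
  rw [mem_Lg] at hqL ⊢
  have h5 := hcl q
  omega

theorem Sit.lg_iff (h : Sit f G m r s x₀ p p' E) {q : V × V} (hq : q ∈ E) : q ∈ Lg G r ↔ q ∈ Lg G s := by
  have hsub := h.lg_sub
  have htw : ∀ {q w : V × V}, q ∈ E → w ∈ E → (Twin r q w ↔ Twin s q w) := fun h1 h2 =>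
    h.twin_iff h1 h2
  obtain ⟨⟨hr, hs, -, -, -, -, hc, hc'⟩, -⟩ := h
  exact ⟨b04_lg hr hc hsub.1 (fun h1 h2 => (htw h1 h2).mp) hq,
    b04_lg hs hc' hsub.2 (fun h1 h2 => (htw h1 h2).mpr) hq⟩

/-- The number of pairs with many twins does not grow, and if it is equal, then `p'` is such a pair. -/
theorem Sit.lg_card (h : Sit f G m r s x₀ p p' E) :
    (Lg G s).card ≤ (Lg G r).card ∧ ((Lg G r).card ≤ (Lg G s).card → p' ∈ Lg G s) := by
  have hsub := h.lg_sub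
  have hiff : ∀ {q : V × V}, q ∈ E → (q ∈ Lg G r ↔ q ∈ Lg G s) := fun hq => h.lg_iff hq
  obtain ⟨-, -, hpL, -, -, -, -, hp, hp', -, -⟩ := h
  have h1 : (Lg G s).erase p' ⊆ (Lg G r).erase p := by
    intro q hq
    rw [Finset.mem_erase] at hq ⊢
    have hqE : q ∈ E := Finset.mem_of_mem_insert_of_ne (hsub.2 hq.2) hq.1
    exact ⟨fun h => hp (h ▸ hqE), (hiff hqE).mpr hq.2⟩
  have h2 := Finset.card_le_card h1
  rw [Finset.card_erase_of_mem hpL] at h2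
  have h3 : 1 ≤ (Lg G r).card := Finset.card_pos.mpr ⟨p, hpL⟩
  by_cases hp's : p' ∈ Lg G s
  · rw [Finset.card_erase_of_mem hp's] at h2
    exact ⟨by omega, fun _ => hp's⟩
  · rw [Finset.erase_eq_of_notMem hp's] at h2
    exact ⟨by omega, fun h => by omega⟩

/-- A twin of `p` in `r` which is not a twin of `p'` in `s` has fewer twins in `s` than in `r`. -/
theorem Sit.cl_lt (h : Sit f G m r s x₀ p p' E) {q : V × V} (hq : q ∈ E) (h1 : Twin r p q) (h2 : ¬ Twin s p' q) :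
    (cl s q).card < (cl r q).card := by
  have hsub := h.lg_sub
  have hiff := h.lg_iff hq
  have htw : ∀ {w : V × V}, w ∈ E → (Twin r q w ↔ Twin s q w) := fun h3 => h.twin_iff hq h3
  obtain ⟨⟨hr, hs, -, -, -, -, -, -⟩, -, hpL, -, -, -, -, hp, hp', -, -⟩ := h
  have hqs : q ∈ Lg G s := hiff.mp (Lg_of_twin hr h1 hpL)
  have hclE : cl s q ⊆ E := by
    intro w hw
    have h3 := b04_cl_sub hs hsub.2 hqs hw
    refine Finset.mem_of_mem_insert_of_ne h3 ?_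
    rintro rfl
    rw [mem_cl] at hw
    rcases hw with h4 | h4
    · exact hp' (h4 ▸ hq)
    · exact h2 h4.symm
  refine Finset.card_lt_card ((Finset.ssubset_iff_of_subset ?_).mpr ⟨p, ?_, ?_⟩)
  · intro w hw
    have hwE := hclE hw
    rw [mem_cl] at hw ⊢
    rcases hw with h3 | h3
    · exact Or.inl h3
    · exact Or.inr ((htw hwE).mpr h3)
  · rw [mem_cl]
    exact Or.inr h1.symm
  · exact fun h3 => hp (hclE h3)

end Pool.Agent.Helper14.LD
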