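import Pool.Agent.Helper14.LD.B04

/-!
# Block B05: comparison of the numbers of top points
-/

namespace Pool.Agent.Helper14.LD

open Pool.Agent.Helper87.PD

variable {V : Type*} [Fintype V] [DecidableEq V] {r s : V → V → Prop} {f G m : ℕ} {x₀ : V} {p p' : V × V}
  {E : Finset (V × V)}

omit [Fintype V] in
private theorem b05_pts {q : V × V} (h : x₀ ∉ pts E) (hq : q ∈ E) : q.1 ≠ x₀ ∧ q.2 ≠ x₀ := by
  constructor
  · rintro rfl
    exact h (Finset.mem_union_left _ (Finset.mem_image_of_mem _ hq))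
  · rintro rfl
    exact h (Finset.mem_union_right _ (Finset.mem_image_of_mem _ hq))

private theorem b05_top_half (hs : IsPO s) (hoff : Off r s x₀) (hLs : Lg G s ⊆ insert p' E)
    (hE : ∀ q ∈ E, q.1 ≠ x₀ ∧ q.2 ≠ x₀) (hiff : ∀ q ∈ E, q ∈ Lg G s → q ∈ Lg G r)
    (hEs : Std s (insert p' E)) (hG : 2 ≤ G) {v : V} (hv : v ≠ x₀) (h : Top G r v) :
    Top G s v := by
  -- the pairs in `E`
  have hin : ∀ q ∈ E, q ∈ Lg G s → q.2 ≠ v → s q.1 v ∧ ¬ s v q.1 ∧ ¬ s v q.2 ∧ ¬ s q.2 v := by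
    intro q hq hqs hqv
    obtain ⟨h1, h2, h3, h4⟩ := h q (hiff q hq hqs) hqv
    obtain ⟨n1, n2⟩ := hE q hq
    exact ⟨(hoff _ _ n1 hv).mp h1, fun hh => h2 ((hoff _ _ hv n1).mpr hh),
      fun hh => h3 ((hoff _ _ hv n2).mpr hh), fun hh => h4 ((hoff _ _ n2 hv).mpr hh)⟩
  intro q hq hqv
  rcases Finset.mem_insert.mp (hLs hq) with hqp | hqE
  · subst hqp
    obtain ⟨w, hw⟩ := exists_twin hG hq
    have hwL : w ∈ Lg G s := Lg_of_twin hs hw hq
    have hne := hw.ne hs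
    have hwE : w ∈ E := Finset.mem_of_mem_insert_of_ne (hLs hwL) (Ne.symm hne)
    obtain ⟨e1, e2, e3, e4, e5, e6⟩ := hw.ne4 hs
    obtain ⟨⟨a1, a2, a3, a4⟩, ⟨b1, b2, b3, b4⟩, ⟨c1, c2, c3, c4⟩, hvv⟩ := hw
    by_cases v1 : v = w.2
    · subst v1
      exact ⟨b1, b2, c4, c3⟩
    · obtain ⟨h1, h2, h3, h4⟩ := hin w hwE hwL (Ne.symm v1)
      by_cases v2 : v = w.1
      · subst v2
        exact absurd h1 h2
      · by_cases v3 : v = q.1
        · subst v3
          exact absurd h1 c2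
        · obtain ⟨d1, d2, d3, d4⟩ := hvv v v3 (Ne.symm hqv) v2 v1
          exact ⟨d2.mpr h1, fun hh => h2 (d1.mp hh), fun hh => h3 (d3.mp hh),
            fun hh => h4 (d4.mp hh)⟩
  · exact hin q hqE hq hqv

private theorem b05_top_x (hs : IsPO s) (hLs : Lg G s ⊆ insert p' E)
    (hEs : Std s (insert p' E)) (hp' : p' ∈ Lg G s) (hx' : x₀ = p'.1 ∨ x₀ = p'.2)
    (hne : p'.1 ≠ p'.2) : Top G s x₀ ↔ x₀ = p'.2 := by
  constructor
  · intro h
    rcases hx' with hx | hx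
    · exfalso
      have h1 := h p' hp' (by rw [hx]; exact Ne.symm hne)
      rw [hx] at h1
      exact h1.2.1 (hs.1 _)
    · exact hx
  · intro hx q hq hqv
    have hqp : p' ≠ q := by
      rintro rfl
      exact hqv hx.symm
    have hqE := hLs hq
    have h1 := hEs p' (Finset.mem_insert_self _ _) q hqE
    have h2 := hEs q hqE p' (Finset.mem_insert_self _ _)
    rw [hx]
    exact ⟨h2.1.mpr (Ne.symm hqp), h2.2.1, fun hh => hqp (h1.2.2.2 hh),
      fun hh => hqp (h2.2.2.2 hh).symm⟩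

open Classical in
private theorem b05_bt (G : ℕ) (r : V → V → Prop) (x₀ : V) :
    bt G r = ((Finset.univ.erase x₀).filter fun v => Top G r v).card +
      (if Top G r x₀ then 1 else 0) := by
  unfold bt
  rw [← Finset.insert_erase (Finset.mem_univ x₀), Finset.filter_insert]
  split_ifs with h
  · rw [Finset.card_insert_of_notMem]
    · simp
    · simp
  · simp

theorem Sit.bt_eq (h : Sit f G m r s x₀ p p' E) (hp' : p' ∈ Lg G s) :
    bt G r + (if x₀ = p'.2 then 1 else 0) = bt G s + (if x₀ = p.2 then 1 else 0) := by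
  classical
  have hsub := h.lg_sub
  have hiff : ∀ {q : V × V}, q ∈ E → (q ∈ Lg G r ↔ q ∈ Lg G s) := fun hq => h.lg_iff hq
  obtain ⟨⟨hr, hs, hmr, hms, hV, hG, -, -⟩, hoff, hpL, hx, hx', hcard, hxE, hp, hp'E, hEr, hEs⟩ := h
  have hG2 : 2 ≤ G := by omega
  have hEx : ∀ q ∈ E, q.1 ≠ x₀ ∧ q.2 ≠ x₀ := fun q hq => b05_pts hxE hq
  have hoff' : Off s r x₀ := fun u v hu hv => (hoff u v hu hv).symm
  have h1 : ∀ v, v ≠ x₀ → (Top G r v ↔ Top G s v) := by
    intro v hv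
    constructor
    · exact b05_top_half hs hoff hsub.2 hEx (fun q hq hqs => (hiff hq).mpr hqs) hEs hG2 hv
    · exact b05_top_half hr hoff' hsub.1 hEx (fun q hq hqs => (hiff hq).mp hqs) hEr hG2 hv
  have hne : ∀ {t : V → V → Prop} {q : V × V}, IsPO t → q ∈ Lg G t → q.1 ≠ q.2 := by
    intro t q ht hq
    obtain ⟨w, hw⟩ := exists_twin hG2 hq
    exact (hw.ne4 ht).1
  have h2 : Top G r x₀ ↔ x₀ = p.2 := b05_top_x hr hsub.1 hEr hpL hx (hne hr hpL)
  have h3 : Top G s x₀ ↔ x₀ = p'.2 := b05_top_x hs hsub.2 hEs hp' hx' (hne hs hp')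
  rw [b05_bt G r x₀, b05_bt G s x₀]
  have h4 : ((Finset.univ.erase x₀).filter fun v => Top G r v) =
      (Finset.univ.erase x₀).filter fun v => Top G s v := by
    apply Finset.filter_congr
    intro v hv
    exact h1 v (Finset.ne_of_mem_erase hv)
  rw [h4]
  simp only [h2, h3]
  omega

end Pool.Agent.Helper14.LD
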