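import Pool.Agent.Helper14.LD.Defs

/-!
# Block B06: the isomorphism
-/

namespace Pool.Agent.Helper14.LD

open Pool.Agent.Helper87.PD

theorem iso_of_twin {V : Type*} [DecidableEq V] {r s : V → V → Prop} (hr : IsPO r) (hs : IsPO s) {x₀ : V}
    (hrs : Off r s x₀) {p p' q : V × V} (hp : x₀ = p.1) (hp' : x₀ = p'.1) (h : Twin r p q) (h' : Twin s p' q) :
    Iso r s := by
  obtain ⟨a, b⟩ := p
  obtain ⟨a', z⟩ := p'
  obtain ⟨c, d⟩ := q
  simp only at hp hp'
  subst hp
  subst hp'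
  obtain ⟨⟨h1, h2, h3, h4⟩, ⟨h5, h6, h7, h8⟩, ⟨h9, h10, h11, h12⟩, h13⟩ := h
  obtain ⟨⟨k1, k2, k3, k4⟩, ⟨k5, k6, k7, k8⟩, ⟨k9, k10, k11, k12⟩, k13⟩ := h'
  simp only at h1 h2 h3 h4 h5 h6 h7 h8 h9 h10 h11 h12 h13 k1 k2 k3 k4 k5 k6 k7 k8 k9 k10 k11 k12 k13
  have nr : ∀ {x y : V}, ¬ r x y → x ≠ y := fun h e => h (e ▸ hr.1 _)
  have ns : ∀ {x y : V}, ¬ s x y → x ≠ y := fun h e => h (e ▸ hs.1 _)
  have hca : c ≠ x₀ := nr h10
  have hda : d ≠ x₀ := nr h6
  have hba : b ≠ x₀ := nr h2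
  have hza : z ≠ x₀ := ns k2
  have hbc : b ≠ c := nr h8
  have hbd : b ≠ d := nr h11
  have hzc : z ≠ c := ns k8
  have hzd : z ≠ d := ns k11
  -- the points other than `x₀`, `b`, `z`
  have key : ∀ v, v ≠ x₀ → v ≠ b → v ≠ z →
      (r b v ↔ s z v) ∧ (r v b ↔ s v z) ∧ (r x₀ v ↔ s x₀ v) ∧ (r v x₀ ↔ s v x₀) := by
    intro v hva hvb hvz
    by_cases hvc : v = c
    · subst hvc
      exact ⟨iff_of_false h8 k8, iff_of_true h7 k7, iff_of_false h9 k9, iff_of_false h10 k10⟩
    by_cases hvd : v = d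
    · subst hvd
      exact ⟨iff_of_false h11 k11, iff_of_false h12 k12, iff_of_true h5 k5, iff_of_false h6 k6⟩
    obtain ⟨i1, i2, i3, i4⟩ := h13 v hva hvb hvc hvd
    obtain ⟨j1, j2, j3, j4⟩ := k13 v hva hvz hvc hvd
    exact ⟨i4.trans ((hrs d v hda hva).trans j4.symm), i3.trans ((hrs v d hva hda).trans j3.symm),
      i2.trans ((hrs c v hca hva).trans j2.symm), i1.trans ((hrs v c hva hca).trans j1.symm)⟩
  by_cases hbz : b = z
  · subst hbz
    refine ⟨Equiv.refl _, fun u v => ?_⟩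
    simp only [Equiv.refl_apply]
    by_cases hu : u = x₀
    · subst hu
      by_cases hv : v = u
      · subst hv; exact iff_of_true (hr.1 _) (hs.1 _)
      by_cases hv' : v = b
      · subst hv'; exact iff_of_false h1 k1
      exact (key v hv hv' hv').2.2.1
    · by_cases hv : v = x₀
      · subst hv
        by_cases hu' : u = b
        · subst hu'; exact iff_of_false h2 k2
        exact (key u hu hu' hu').2.2.2
      · exact hrs u v hu hv
  · -- the two points `b` and `z`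
    obtain ⟨i1, i2, i3, i4⟩ := h13 z hza (Ne.symm hbz) hzc hzd
    obtain ⟨j1, j2, j3, j4⟩ := k13 b hba hbz hbc hbd
    have r1 : ¬ r z x₀ := fun h => k8 ((hrs z c hza hca).1 (i1.1 h))
    have r2 : r x₀ z := i2.2 ((hrs c z hca hza).2 k7)
    have r3 : ¬ r z b := fun h => k11 ((hrs z d hza hda).1 (i3.1 h))
    have r4 : ¬ r b z := fun h => k12 ((hrs d z hda hza).1 (i4.1 h))
    have s1 : ¬ s b x₀ := fun h => h8 ((hrs b c hba hca).2 (j1.1 h))
    have s2 : s x₀ b := j2.2 ((hrs c b hca hba).1 h7)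
    have s3 : ¬ s b z := fun h => h11 ((hrs b d hba hda).2 (j3.1 h))
    have s4 : ¬ s z b := fun h => h12 ((hrs d b hda hba).2 (j4.1 h))
    have fb : Equiv.swap b z b = z := Equiv.swap_apply_left _ _
    have fz : Equiv.swap b z z = b := Equiv.swap_apply_right _ _
    have fv : ∀ v, v ≠ b → v ≠ z → Equiv.swap b z v = v := fun v h1 h2 => Equiv.swap_apply_of_ne_of_ne h1 h2
    have fx : Equiv.swap b z x₀ = x₀ := fv _ hba.symm hza.symm
    refine ⟨Equiv.swap b z, fun u v => ?_⟩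
    by_cases huv : u = v
    · subst huv; exact iff_of_true (hr.1 _) (hs.1 _)
    by_cases hu1 : u = x₀
    · subst hu1
      rw [fx]
      by_cases hv1 : v = b
      · subst hv1; rw [fb]; exact iff_of_false h1 k1
      by_cases hv2 : v = z
      · subst hv2; rw [fz]; exact iff_of_true r2 s2
      rw [fv v hv1 hv2]
      exact (key v (Ne.symm huv) hv1 hv2).2.2.1
    by_cases hv0 : v = x₀
    · subst hv0
      rw [fx]
      by_cases hv1 : u = b
      · subst hv1; rw [fb]; exact iff_of_false h2 k2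
      by_cases hv2 : u = z
      · subst hv2; rw [fz]; exact iff_of_false r1 s1
      rw [fv u hv1 hv2]
      exact (key u huv hv1 hv2).2.2.2
    by_cases hu2 : u = b
    · subst hu2
      rw [fb]
      by_cases hv2 : v = z
      · subst hv2; rw [fz]; exact iff_of_false r4 s4
      rw [fv v (Ne.symm huv) hv2]
      exact (key v hv0 (Ne.symm huv) hv2).1
    by_cases hu3 : u = z
    · subst hu3
      rw [fz]
      by_cases hv2 : v = b
      · subst hv2; rw [fb]; exact iff_of_false r3 s3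
      rw [fv v hv2 (Ne.symm huv)]
      exact (hrs u v hu1 hv0).trans ((key v hv0 hv2 (Ne.symm huv)).1.symm.trans (hrs b v hba hv0))
    by_cases hv1 : v = b
    · subst hv1
      rw [fb, fv u hu2 hu3]
      exact (key u hu1 hu2 hu3).2.1
    by_cases hv2 : v = z
    · subst hv2
      rw [fz, fv u hu2 hu3]
      exact (hrs u v hu1 hv0).trans ((key u hu1 hu2 hu3).2.1.symm.trans (hrs u b hu1 hba))
    rw [fv u hu2 hu3, fv v hv1 hv2]
    exact hrs u v hu1 hv0

end Pool.Agent.Helper14.LD
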