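import Pool.Agent.Helper14.LD.Defs

/-!
# Block B07: invariance under a change of names
-/

namespace Pool.Agent.Helper14.LD

open Pool.Agent.Helper87.PD

variable {V : Type*} [Fintype V] [DecidableEq V] {s : V → V → Prop}

/-- `s` with the names of the points changed. -/
def re (s : V → V → Prop) (e : Equiv.Perm V) : V → V → Prop := fun u v => s (e u) (e v)

theorem re_iso (e : Equiv.Perm V) : Iso (re s e) s := ⟨e, fun _ _ => Iff.rfl⟩

theorem re_po (hs : IsPO s) (e : Equiv.Perm V) : IsPO (re s e) :=
  ⟨fun a => hs.1 (e a), fun _ _ h h' => e.injective (hs.2.1 _ _ h h'),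
    fun _ _ _ h h' => hs.2.2 _ _ _ h h'⟩

/-- The map on pairs. -/
private def b07_pair (e : Equiv.Perm V) : V × V ≃ V × V := e.prodCongr e

private theorem b07_pair_apply (e : Equiv.Perm V) (p : V × V) : b07_pair e p = (e p.1, e p.2) := rfl

private theorem b07_std (e : Equiv.Perm V) (E : Finset (V × V)) :
    Std (re s e) E ↔ Std s (E.map (b07_pair e).toEmbedding) := by
  constructor
  · intro h p hp q hq
    rw [Finset.mem_map_equiv] at hp hq
    obtain ⟨h1, h2, h3, h4⟩ := h _ hp _ hq
    have hinj : ((b07_pair e).symm p = (b07_pair e).symm q) ↔ p = q :=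
      (b07_pair e).symm.injective.eq_iff
    have e1 : ∀ p : V × V, e ((b07_pair e).symm p).1 = p.1 := fun p => e.apply_symm_apply _
    have e2 : ∀ p : V × V, e ((b07_pair e).symm p).2 = p.2 := fun p => e.apply_symm_apply _
    simp only [re, e1, e2, ne_eq, hinj] at h1 h2 h3 h4
    exact ⟨h1, h2, h3, h4⟩
  · intro h p hp q hq
    have hp' : b07_pair e p ∈ E.map (b07_pair e).toEmbedding := Finset.mem_map_of_mem _ hp
    have hq' : b07_pair e q ∈ E.map (b07_pair e).toEmbedding := Finset.mem_map_of_mem _ hq
    obtain ⟨h1, h2, h3, h4⟩ := h _ hp' _ hq'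
    have hinj : (b07_pair e p = b07_pair e q) ↔ p = q := (b07_pair e).injective.eq_iff
    simp only [b07_pair_apply] at h1 h2 h3 h4
    simp only [b07_pair_apply] at hinj
    simp only [ne_eq, hinj] at h1 h3 h4
    exact ⟨h1, h2, h3, h4⟩

theorem re_max {m : ℕ} (h : MaxStd s m) (e : Equiv.Perm V) : MaxStd (re s e) m := by
  obtain ⟨⟨E, hE, hm⟩, hmax⟩ := h
  refine ⟨⟨E.map (b07_pair e).symm.toEmbedding, ?_, ?_⟩, ?_⟩
  · rw [b07_std]
    have : (E.map (b07_pair e).symm.toEmbedding).map (b07_pair e).toEmbedding = E := by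
      ext q
      simp [Finset.mem_map_equiv]
    rwa [this]
  · rw [Finset.card_map, hm]
  · intro E' hE'
    have := hmax _ ((b07_std e E').1 hE')
    rwa [Finset.card_map] at this

private theorem b07_twin (e : Equiv.Perm V) (p q : V × V) :
    Twin (re s e) p q ↔ Twin s (b07_pair e p) (b07_pair e q) := by
  unfold Twin
  simp only [b07_pair_apply, re]
  refine and_congr Iff.rfl (and_congr Iff.rfl (and_congr Iff.rfl ?_))
  constructor
  · intro h v h1 h2 h3 h4
    have := h (e.symm v) (fun hh => h1 (by rw [← hh, e.apply_symm_apply]))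
      (fun hh => h2 (by rw [← hh, e.apply_symm_apply]))
      (fun hh => h3 (by rw [← hh, e.apply_symm_apply]))
      (fun hh => h4 (by rw [← hh, e.apply_symm_apply]))
    simpa only [e.apply_symm_apply] using this
  · intro h v h1 h2 h3 h4
    exact h (e v) (fun hh => h1 (e.injective hh)) (fun hh => h2 (e.injective hh))
      (fun hh => h3 (e.injective hh)) (fun hh => h4 (e.injective hh))

private theorem b07_cl (e : Equiv.Perm V) (p : V × V) :
    (cl (re s e) p).map (b07_pair e).toEmbedding = cl s (b07_pair e p) := by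
  ext q
  rw [Finset.mem_map_equiv]
  simp only [cl, Finset.mem_filter, Finset.mem_univ, true_and, b07_twin, Equiv.apply_symm_apply,
    Equiv.symm_apply_eq]

theorem re_cl (e : Equiv.Perm V) (p : V × V) : (cl (re s e) p).card = (cl s (e p.1, e p.2)).card := by
  rw [← b07_pair_apply, ← b07_cl, Finset.card_map]

private theorem b07_mem_lg (e : Equiv.Perm V) (G : ℕ) (p : V × V) :
    p ∈ Lg G (re s e) ↔ b07_pair e p ∈ Lg G s := by
  simp only [Lg, Finset.mem_filter, Finset.mem_univ, true_and, re_cl, ← b07_pair_apply]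

theorem re_lg (e : Equiv.Perm V) (G : ℕ) : (Lg G (re s e)).card = (Lg G s).card := by
  have : (Lg G (re s e)).map (b07_pair e).toEmbedding = Lg G s := by
    ext q
    rw [Finset.mem_map_equiv, b07_mem_lg, Equiv.apply_symm_apply]
  rw [← this, Finset.card_map]

private theorem b07_top (e : Equiv.Perm V) (G : ℕ) (v : V) : Top G (re s e) v ↔ Top G s (e v) := by
  constructor
  · intro h p hp hpv
    have hp' : (b07_pair e).symm p ∈ Lg G (re s e) := by
      rw [b07_mem_lg, Equiv.apply_symm_apply]
      exact hp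
    have e1 : e ((b07_pair e).symm p).1 = p.1 := e.apply_symm_apply _
    have e2 : e ((b07_pair e).symm p).2 = p.2 := e.apply_symm_apply _
    have := h _ hp' (fun hh => hpv (by rw [← hh, e2]))
    simpa only [re, e1, e2] using this
  · intro h p hp hpv
    exact h _ ((b07_mem_lg e G p).1 hp) (fun hh => hpv (e.injective hh))

theorem re_bt (e : Equiv.Perm V) (G : ℕ) : bt G (re s e) = bt G s := by
  classical
  unfold bt
  refine Finset.card_bij (fun v _ => e v) ?_ ?_ ?_
  · intro v hv
    rw [Finset.mem_filter] at hv ⊢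
    exact ⟨Finset.mem_univ _, (b07_top e G v).1 hv.2⟩
  · intro u _ v _ h
    exact e.injective h
  · intro v hv
    rw [Finset.mem_filter] at hv
    refine ⟨e.symm v, ?_, e.apply_symm_apply v⟩
    rw [Finset.mem_filter, b07_top, e.apply_symm_apply]
    exact ⟨Finset.mem_univ _, hv.2⟩

end Pool.Agent.Helper14.LD
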