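import Pool.Agent.Helper14.LD.B02

/-!
# Block B08: the pigeonhole principle
-/

namespace Pool.Agent.Helper14.LD

open Pool.Agent.Helper87.PD

variable {V : Type*} [Fintype V] [DecidableEq V] {r : V → V → Prop}

/-- The type of a pair: its relations to the points of `O`. -/
private noncomputable def b08_ty (r : V → V → Prop) (O : Finset V) (p : V × V) :
    O → Bool × Bool × Bool × Bool := by
  classical
  exact fun v => (decide (r v p.1), decide (r p.1 v), decide (r v p.2), decide (r p.2 v))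

private theorem b08_ty_eq {O : Finset V} {p q : V × V} (h : b08_ty r O p = b08_ty r O q) {v : V}
    (hv : v ∈ O) :
    (r v p.1 ↔ r v q.1) ∧ (r p.1 v ↔ r q.1 v) ∧ (r v p.2 ↔ r v q.2) ∧ (r p.2 v ↔ r q.2 v) := by
  have h1 := congrFun h ⟨v, hv⟩
  unfold b08_ty at h1
  simp only [Prod.mk.injEq, decide_eq_decide] at h1
  exact h1

private theorem b08_types (O : Finset V) :
    Fintype.card (O → Bool × Bool × Bool × Bool) = 16 ^ O.card := by
  simp

private theorem b08_image {α γ : Type*} [DecidableEq γ] (L : Finset α) (g : α → ℕ) (T : α → γ)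
    (h : ∀ p ∈ L, ∀ q ∈ L, T p = T q → g p = g q) : (L.image g).card ≤ (L.image T).card := by
  classical
  refine Finset.card_le_card_of_surjOn
    (fun c => if h : ∃ p ∈ L, T p = c then g h.choose else 0) ?_
  intro k hk
  rw [Finset.mem_coe, Finset.mem_image] at hk
  obtain ⟨p, hp, rfl⟩ := hk
  refine ⟨T p, Finset.mem_coe.2 (Finset.mem_image_of_mem _ hp), ?_⟩
  have hex : ∃ q ∈ L, T q = T p := ⟨p, hp, rfl⟩
  simp only [dif_pos hex]
  exact h _ hex.choose_spec.1 _ hp hex.choose_spec.2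

/-- Pairs of the same type in a standard example are equal or twins. -/
private theorem b08_twin {E : Finset (V × V)} (hE : Std r E) {p q : V × V} (hp : p ∈ E) (hq : q ∈ E)
    (hpq : p ≠ q) (h : b08_ty r (Finset.univ \ pts E) p = b08_ty r (Finset.univ \ pts E) q) :
    Twin r p q := by
  have h1 := hE p hp p hp
  have h2 := hE q hq q hq
  have h3 := hE p hp q hq
  have h4 := hE q hq p hp
  refine ⟨⟨?_, ?_, ?_, ?_⟩, ⟨?_, ?_, ?_, ?_⟩, ⟨?_, ?_, ?_, ?_⟩, ?_⟩
  · exact fun h5 => (h1.1.1 h5) rfl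
  · exact h1.2.1
  · exact fun h5 => (h2.1.1 h5) rfl
  · exact h2.2.1
  · exact h3.1.2 hpq
  · exact h3.2.1
  · exact h4.1.2 hpq.symm
  · exact h4.2.1
  · exact fun h5 => hpq (h3.2.2.1 h5)
  · exact fun h5 => hpq.symm (h4.2.2.1 h5)
  · exact fun h5 => hpq (h3.2.2.2 h5)
  · exact fun h5 => hpq.symm (h4.2.2.2 h5)
  · intro v v1 v2 v3 v4
    by_cases hv : v ∈ pts E
    · unfold pts at hv
      rw [Finset.mem_union, Finset.mem_image, Finset.mem_image] at hv
      rcases hv with ⟨e, he, rfl⟩ | ⟨e, he, rfl⟩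
      · have hep : e ≠ p := fun h5 => v1 (by rw [h5])
        have heq : e ≠ q := fun h5 => v3 (by rw [h5])
        have a1 := hE e he p hp
        have a2 := hE e he q hq
        have a3 := hE p hp e he
        have a4 := hE q hq e he
        refine ⟨?_, ?_, ?_, ?_⟩
        · exact ⟨fun h5 => absurd (a1.2.2.1 h5) hep, fun h5 => absurd (a2.2.2.1 h5) heq⟩
        · exact ⟨fun h5 => absurd (a3.2.2.1 h5) hep.symm, fun h5 => absurd (a4.2.2.1 h5) heq.symm⟩
        · exact ⟨fun _ => a2.1.2 heq, fun _ => a1.1.2 hep⟩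
        · exact ⟨fun h5 => absurd h5 a1.2.1, fun h5 => absurd h5 a2.2.1⟩
      · have hep : e ≠ p := fun h5 => v2 (by rw [h5])
        have heq : e ≠ q := fun h5 => v4 (by rw [h5])
        have a1 := hE e he p hp
        have a2 := hE e he q hq
        have a3 := hE p hp e he
        have a4 := hE q hq e he
        refine ⟨?_, ?_, ?_, ?_⟩
        · exact ⟨fun h5 => absurd h5 a3.2.1, fun h5 => absurd h5 a4.2.1⟩
        · exact ⟨fun _ => a4.1.2 heq.symm, fun _ => a3.1.2 hep.symm⟩
        · exact ⟨fun h5 => absurd (a1.2.2.2 h5) hep, fun h5 => absurd (a2.2.2.2 h5) heq⟩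
        · exact ⟨fun h5 => absurd (a3.2.2.2 h5) hep.symm, fun h5 => absurd (a4.2.2.2 h5) heq.symm⟩
    · exact b08_ty_eq h (by simp [hv])

private theorem b08_out (hr : IsPO r) {f : ℕ} {E : Finset (V × V)} (hE : Std r E)
    (hf : Fintype.card V ≤ 2 * E.card + f) : (Finset.univ \ pts E).card ≤ f := by
  rw [Finset.card_sdiff_of_subset (Finset.subset_univ _), pts_card hr hE, Finset.card_univ]
  omega

/-- Few numbers `≥ f + 3` are numbers of twins. -/
theorem few_sizes (hr : IsPO r) {f m : ℕ} (hm : MaxStd r m) (hf : Fintype.card V ≤ 2 * m + f) :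
    ((Lg (f + 3) r).image fun p => (cl r p).card).card ≤ 16 ^ f := by
  classical
  obtain ⟨E, hE, hEm⟩ := hm.1
  have hO := b08_out hr hE (by rw [hEm]; exact hf)
  have h1 := b08_image (Lg (f + 3) r) (fun p => (cl r p).card) (b08_ty r (Finset.univ \ pts E)) (by
    intro p hp q hq hpq
    have hp' := mem_of_max hr hm hf hE hEm hp
    have hq' := mem_of_max hr hm hf hE hEm hq
    by_cases h : p = q
    · rw [h]
    · show (cl r p).card = (cl r q).card
      rw [cl_eq hr (b08_twin hE hp' hq' h hpq)])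
  calc _ ≤ _ := h1
    _ ≤ Fintype.card ((Finset.univ \ pts E : Finset V) → Bool × Bool × Bool × Bool) :=
        Finset.card_le_univ _
    _ = 16 ^ (Finset.univ \ pts E).card := b08_types _
    _ ≤ _ := Nat.pow_le_pow_right (by norm_num) hO

/-- There is a pair with many twins. -/
theorem big_class (hr : IsPO r) {f m : ℕ} (hm : MaxStd r m) (hf : Fintype.card V ≤ 2 * m + f) {G : ℕ}
    (hG : 16 ^ f * G < m) : (Lg G r).Nonempty := by
  classical
  obtain ⟨E, hE, hEm⟩ := hm.1
  have hO := b08_out hr hE (by rw [hEm]; exact hf)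
  have h1 : (Finset.univ : Finset ((Finset.univ \ pts E : Finset V) → Bool × Bool × Bool × Bool)).card
      * G < E.card := by
    rw [Finset.card_univ, b08_types, hEm]
    calc _ ≤ 16 ^ f * G := Nat.mul_le_mul_right _ (Nat.pow_le_pow_right (by norm_num) hO)
      _ < _ := hG
  obtain ⟨c, _, hc⟩ := Finset.exists_lt_card_fiber_of_mul_lt_card_of_maps_to
    (f := b08_ty r (Finset.univ \ pts E)) (fun a _ => Finset.mem_univ _) h1
  have hne : (E.filter fun x => b08_ty r (Finset.univ \ pts E) x = c).Nonempty := by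
    rw [← Finset.card_pos]
    omega
  obtain ⟨p, hp⟩ := hne
  rw [Finset.mem_filter] at hp
  refine ⟨p, mem_Lg.2 (hc.le.trans (Finset.card_le_card ?_))⟩
  intro q hq
  rw [Finset.mem_filter] at hq
  rw [mem_cl]
  by_cases h : q = p
  · exact Or.inl h
  · exact Or.inr (b08_twin hE hp.1 hq.1 (Ne.symm h) (hp.2.trans hq.2.symm))

/-- There is a threshold which is not the number of twins of a pair. -/
theorem gap {s : V → V → Prop} (hr : IsPO r) (hs : IsPO s) {f m : ℕ} (hm : MaxStd r m) (hm' : MaxStd s m)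
    (hf : Fintype.card V ≤ 2 * m + f) : ∃ G, f + 5 ≤ G ∧ G ≤ f + 5 + 2 * 16 ^ f ∧ (∀ p, (cl r p).card ≠ G) ∧
      ∀ p, (cl s p).card ≠ G := by
  classical
  have h1 := few_sizes hr hm hf
  have h2 := few_sizes hs hm' hf
  have h3 := Finset.card_union_le ((Lg (f + 3) r).image fun p => (cl r p).card)
    ((Lg (f + 3) s).image fun p => (cl s p).card)
  have h4 : (((Lg (f + 3) r).image fun p => (cl r p).card) ∪
      ((Lg (f + 3) s).image fun p => (cl s p).card)).card <
      (Finset.Icc (f + 5) (f + 5 + 2 * 16 ^ f)).card := by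
    rw [Nat.card_Icc]
    omega
  obtain ⟨G, hG, hG'⟩ := Finset.exists_mem_notMem_of_card_lt_card h4
  rw [Finset.mem_Icc] at hG
  rw [Finset.mem_union, not_or] at hG'
  refine ⟨G, hG.1, hG.2, fun p hp => hG'.1 ?_, fun p hp => hG'.2 ?_⟩
  · rw [Finset.mem_image]
    exact ⟨p, mem_Lg.2 (by omega), hp⟩
  · rw [Finset.mem_image]
    exact ⟨p, mem_Lg.2 (by omega), hp⟩

end Pool.Agent.Helper14.LD
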