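import Pool.Agent.Helper14.LD.Defs

/-!
# Block B09: decks
-/

namespace Pool.Agent.Helper14.LD

open Pool.Agent.Helper87.PD

variable {n : ℕ} {r s : Fin n → Fin n → Prop}

theorem iso_symm' {α β : Type*} {r : α → α → Prop} {s : β → β → Prop} (h : Iso r s) : Iso s r := by
  obtain ⟨f, hf⟩ := h
  exact ⟨f.symm, fun a b => by rw [hf, f.apply_symm_apply, f.apply_symm_apply]⟩

theorem deck_symm (h : SameDeck r s) : SameDeck s r := by
  obtain ⟨π, hπ⟩ := h
  refine ⟨π.symm, fun x => ?_⟩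
  have := hπ (π.symm x)
  rw [π.apply_symm_apply] at this
  exact iso_symm' this

theorem iso_symm (h : Iso r s) : Iso s r := iso_symm' h

/-- A card of `r` is a card of `s`. -/
theorem card_perm (h : SameDeck r s) (x₀ : Fin n) :
    ∃ e : Equiv.Perm (Fin n), Off r (fun u v => s (e u) (e v)) x₀ := by
  obtain ⟨π, hπ⟩ := h
  obtain ⟨f, hf⟩ := hπ x₀
  let e₁ : {a : Fin n // (a ≠ x₀)} ≃ {a : Fin n // (a ≠ π x₀)} := f
  have hex : ∃ e : Equiv.Perm (Fin n), ∀ a : {a : Fin n // a ≠ x₀}, e a = f a := by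
    classical
    refine ⟨f.extendSubtype, fun a => ?_⟩
    exact Equiv.extendSubtype_apply_of_mem f a.1 a.2
  obtain ⟨e, he⟩ := hex
  refine ⟨e, fun u v hu hv => ?_⟩
  have := hf ⟨u, hu⟩ ⟨v, hv⟩
  simp only [del] at this
  rw [this, ← he ⟨u, hu⟩, ← he ⟨v, hv⟩]

theorem std_of_deck (h : SameDeck r s) {E : Finset (Fin n × Fin n)} (hE : Std r E) (hn : 2 * E.card < n) :
    ∃ E', Std s E' ∧ E'.card = E.card := by
  classical
  have hex : ∃ x₀, x₀ ∉ pts E := by
    by_contra hcon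
    push_neg at hcon
    have h1 : (pts E) = Finset.univ := Finset.eq_univ_iff_forall.2 hcon
    have h2 : (pts E).card ≤ 2 * E.card := by
      unfold pts
      have e1 := Finset.card_union_le (E.image Prod.fst) (E.image Prod.snd)
      have e2 : (E.image Prod.fst).card ≤ E.card := Finset.card_image_le
      have e3 : (E.image Prod.snd).card ≤ E.card := Finset.card_image_le
      omega
    rw [h1, Finset.card_univ, Fintype.card_fin] at h2
    omega
  obtain ⟨x₀, hx₀⟩ := hex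
  obtain ⟨e, he⟩ := card_perm h x₀
  have hpt : ∀ p ∈ E, p.1 ≠ x₀ ∧ p.2 ≠ x₀ := by
    intro p hp
    unfold pts at hx₀
    simp only [Finset.mem_union, Finset.mem_image, not_or, not_exists, not_and] at hx₀
    exact ⟨hx₀.1 p hp, hx₀.2 p hp⟩
  let g : Fin n × Fin n → Fin n × Fin n := fun p => (e p.1, e p.2)
  have hg : Function.Injective g := by
    intro p q hpq
    have h1 := (Prod.mk.inj hpq).1
    have h2 := (Prod.mk.inj hpq).2
    exact Prod.ext (e.injective h1) (e.injective h2)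
  refine ⟨E.image g, ?_, Finset.card_image_of_injective _ hg⟩
  intro p hp q hq
  obtain ⟨p, hp', rfl⟩ := Finset.mem_image.1 hp
  obtain ⟨q, hq', rfl⟩ := Finset.mem_image.1 hq
  clear hp hq
  have hp := hp'
  have hq := hq'
  obtain ⟨h1, h2, h3, h4⟩ := hE p hp q hq
  obtain ⟨p1, p2⟩ := hpt p hp
  obtain ⟨q1, q2⟩ := hpt q hq
  refine ⟨?_, ?_, ?_, ?_⟩
  · rw [hg.ne_iff, ← h1]; exact (he _ _ p1 q2).symm
  · exact fun hh => h2 ((he _ _ q2 p1).2 hh)
  · exact fun hh => congrArg g (h3 ((he _ _ p1 q1).2 hh))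
  · exact fun hh => congrArg g (h4 ((he _ _ p2 q2).2 hh))

end Pool.Agent.Helper14.LD
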