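import Pool.Agent.Helper14.LD.B09

/-!
# Block B10: standard examples are reconstructible
-/

namespace Pool.Agent.Helper14.LD

open Pool.Agent.Helper87.PD

section counting

open Classical

variable {n : ℕ}

/-- The points comparable to `v`. -/
private noncomputable def b10N (r : Fin n → Fin n → Prop) (v : Fin n) : Finset (Fin n) :=
  Finset.univ.filter fun w => w ≠ v ∧ (r v w ∨ r w v)

/-- The comparable pairs. -/
private noncomputable def b10E (r : Fin n → Fin n → Prop) : Finset (Fin n × Fin n) :=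
  Finset.univ.filter fun q => q.1 ≠ q.2 ∧ (r q.1 q.2 ∨ r q.2 q.1)

/-- The comparable pairs without `x`. -/
private noncomputable def b10D (r : Fin n → Fin n → Prop) (x : Fin n) : Finset (Fin n × Fin n) :=
  Finset.univ.filter fun q => (q.1 ≠ q.2 ∧ (r q.1 q.2 ∨ r q.2 q.1)) ∧ q.1 ≠ x ∧ q.2 ≠ x

private theorem b10_mem_N {r : Fin n → Fin n → Prop} {v w : Fin n} :
    w ∈ b10N r v ↔ w ≠ v ∧ (r v w ∨ r w v) := by
  simp [b10N]

private theorem b10_mem_E {r : Fin n → Fin n → Prop} {q : Fin n × Fin n} :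
    q ∈ b10E r ↔ q.1 ≠ q.2 ∧ (r q.1 q.2 ∨ r q.2 q.1) := by
  simp [b10E]

private theorem b10_mem_D {r : Fin n → Fin n → Prop} {x : Fin n} {q : Fin n × Fin n} :
    q ∈ b10D r x ↔ (q.1 ≠ q.2 ∧ (r q.1 q.2 ∨ r q.2 q.1)) ∧ q.1 ≠ x ∧ q.2 ≠ x := by
  simp [b10D]

private theorem b10_fst (r : Fin n → Fin n → Prop) (x : Fin n) :
    ((b10E r).filter fun q => q.1 = x).card = (b10N r x).card := by
  symm
  refine Finset.card_bij (fun w _ => (x, w)) ?_ ?_ ?_
  · intro w hw
    rw [b10_mem_N] at hw
    rw [Finset.mem_filter, b10_mem_E]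
    exact ⟨⟨fun h => hw.1 h.symm, hw.2⟩, rfl⟩
  · intro w _ w' _ h
    exact (Prod.mk.inj h).2
  · intro q hq
    rw [Finset.mem_filter, b10_mem_E] at hq
    obtain ⟨⟨h1, h2⟩, h3⟩ := hq
    refine ⟨q.2, ?_, ?_⟩
    · rw [b10_mem_N, ← h3]
      exact ⟨fun h => h1 h.symm, h2⟩
    · rw [← h3]

private theorem b10_snd (r : Fin n → Fin n → Prop) (x : Fin n) :
    ((b10E r).filter fun q => q.2 = x).card = (b10N r x).card := by
  symm
  refine Finset.card_bij (fun w _ => (w, x)) ?_ ?_ ?_
  · intro w hw
    rw [b10_mem_N] at hw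
    rw [Finset.mem_filter, b10_mem_E]
    exact ⟨⟨hw.1, hw.2.symm⟩, rfl⟩
  · intro w _ w' _ h
    exact (Prod.mk.inj h).1
  · intro q hq
    rw [Finset.mem_filter, b10_mem_E] at hq
    obtain ⟨⟨h1, h2⟩, h3⟩ := hq
    refine ⟨q.1, ?_, ?_⟩
    · rw [b10_mem_N, ← h3]
      exact ⟨h1, h2.symm⟩
    · rw [← h3]

private theorem b10_split (r : Fin n → Fin n → Prop) (x : Fin n) :
    (b10E r).card = (b10D r x).card + 2 * (b10N r x).card := by
  have h1 : b10E r = b10D r x ∪ (((b10E r).filter fun q => q.1 = x) ∪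
      ((b10E r).filter fun q => q.2 = x)) := by
    ext q
    rw [Finset.mem_union, Finset.mem_union, Finset.mem_filter, Finset.mem_filter, b10_mem_D,
      b10_mem_E]
    tauto
  have h2 : Disjoint (b10D r x) (((b10E r).filter fun q => q.1 = x) ∪
      ((b10E r).filter fun q => q.2 = x)) := by
    rw [Finset.disjoint_left]
    intro q hq hq'
    rw [b10_mem_D] at hq
    rw [Finset.mem_union, Finset.mem_filter, Finset.mem_filter] at hq'
    tauto
  have h3 : Disjoint ((b10E r).filter fun q => q.1 = x) ((b10E r).filter fun q => q.2 = x) := by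
    rw [Finset.disjoint_left]
    intro q hq hq'
    rw [Finset.mem_filter, b10_mem_E] at hq hq'
    exact hq.1.1 (hq.2.trans hq'.2.symm)
  calc (b10E r).card = (b10D r x ∪ (((b10E r).filter fun q => q.1 = x) ∪
      ((b10E r).filter fun q => q.2 = x))).card := by rw [← h1]
    _ = (b10D r x).card + (((b10E r).filter fun q => q.1 = x).card +
      ((b10E r).filter fun q => q.2 = x).card) := by
        rw [Finset.card_union_of_disjoint h2, Finset.card_union_of_disjoint h3]
    _ = (b10D r x).card + 2 * (b10N r x).card := by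
        rw [b10_fst, b10_snd]
        ring

private theorem b10_sum (r : Fin n → Fin n → Prop) :
    (b10E r).card = ∑ x, (b10N r x).card := by
  rw [Finset.card_eq_sum_card_fiberwise (f := Prod.fst) (t := Finset.univ)
    (fun q _ => Finset.mem_coe.2 (Finset.mem_univ _))]
  exact Finset.sum_congr rfl fun x _ => b10_fst r x

private theorem b10_del {r s : Fin n → Fin n → Prop} {x y : Fin n}
    (h : Iso (del r x) (del s y)) : (b10D r x).card = (b10D s y).card := by
  obtain ⟨f, hf⟩ := h
  refine Finset.card_bij (fun q hq => ((f ⟨q.1, (b10_mem_D.1 hq).2.1⟩).1,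
    (f ⟨q.2, (b10_mem_D.1 hq).2.2⟩).1)) ?_ ?_ ?_
  · intro q hq
    have hq' := b10_mem_D.1 hq
    rw [b10_mem_D]
    refine ⟨⟨?_, ?_⟩, (f _).2, (f _).2⟩
    · intro h1
      have h2 := f.injective (Subtype.ext h1)
      exact hq'.1.1 (congrArg Subtype.val h2)
    · rcases hq'.1.2 with h1 | h1
      · exact Or.inl ((hf ⟨q.1, hq'.2.1⟩ ⟨q.2, hq'.2.2⟩).1 h1)
      · exact Or.inr ((hf ⟨q.2, hq'.2.2⟩ ⟨q.1, hq'.2.1⟩).1 h1)
  · intro q hq q' hq' h1
    rw [Prod.mk.injEq] at h1
    have h2 := congrArg Subtype.val (f.injective (Subtype.ext h1.1))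
    have h3 := congrArg Subtype.val (f.injective (Subtype.ext h1.2))
    exact Prod.ext h2 h3
  · intro q hq
    have hq' := b10_mem_D.1 hq
    have e1 : (f (f.symm ⟨q.1, hq'.2.1⟩)) = ⟨q.1, hq'.2.1⟩ := f.apply_symm_apply _
    have e2 : (f (f.symm ⟨q.2, hq'.2.2⟩)) = ⟨q.2, hq'.2.2⟩ := f.apply_symm_apply _
    refine ⟨((f.symm ⟨q.1, hq'.2.1⟩).1, (f.symm ⟨q.2, hq'.2.2⟩).1), ?_, ?_⟩
    · rw [b10_mem_D]
      refine ⟨⟨?_, ?_⟩, (f.symm _).2, (f.symm _).2⟩
      · intro h1
        have h2 := f.symm.injective (Subtype.ext h1)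
        exact hq'.1.1 (congrArg Subtype.val h2)
      · rcases hq'.1.2 with h1 | h1
        · refine Or.inl ((hf _ _).2 ?_)
          rw [e1, e2]
          exact h1
        · refine Or.inr ((hf _ _).2 ?_)
          rw [e1, e2]
          exact h1
    · exact Prod.ext (congrArg Subtype.val e1) (congrArg Subtype.val e2)

private theorem b10_deg {r s : Fin n → Fin n → Prop} (hn : 3 ≤ n) (π : Equiv.Perm (Fin n))
    (h : ∀ x, Iso (del r x) (del s (π x))) (x : Fin n) :
    (b10N r x).card = (b10N s (π x)).card := by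
  have h1 : n * (b10E r).card = ∑ x, (b10D r x).card + 2 * (b10E r).card := by
    conv_rhs => rw [b10_sum r, Finset.mul_sum, ← Finset.sum_add_distrib]
    rw [Finset.sum_congr rfl fun x _ => (b10_split r x).symm, Finset.sum_const, Finset.card_univ,
      Fintype.card_fin, smul_eq_mul]
  have h2 : n * (b10E s).card = ∑ x, (b10D s x).card + 2 * (b10E s).card := by
    conv_rhs => rw [b10_sum s, Finset.mul_sum, ← Finset.sum_add_distrib]
    rw [Finset.sum_congr rfl fun x _ => (b10_split s x).symm, Finset.sum_const, Finset.card_univ,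
      Fintype.card_fin, smul_eq_mul]
  have h3 : ∑ x, (b10D r x).card = ∑ x, (b10D s x).card := by
    rw [← Equiv.sum_comp π fun x => (b10D s x).card]
    exact Finset.sum_congr rfl fun x _ => b10_del (h x)
  have h4 : (b10E r).card = (b10E s).card := by
    obtain ⟨k, rfl⟩ : ∃ k, n = k + 3 := ⟨n - 3, by omega⟩
    have h5 : (k + 1) * (b10E r).card = (k + 1) * (b10E s).card := by
      have h6 : (k + 3) * (b10E r).card = (k + 1) * (b10E r).card + 2 * (b10E r).card := by ring
      have h7 : (k + 3) * (b10E s).card = (k + 1) * (b10E s).card + 2 * (b10E s).card := by ring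
      omega
    exact Nat.eq_of_mul_eq_mul_left (Nat.succ_pos k) h5
  have h5 := b10_split r x
  have h6 := b10_split s (π x)
  have h7 := b10_del (h x)
  omega

end counting

theorem iso_full {n : ℕ} {r s : Fin n → Fin n → Prop} (hr : IsPO r) (hs : IsPO s) (hn : 6 ≤ n)
    {E : Finset (Fin n × Fin n)} (hE : Std r E) (hEn : 2 * E.card = n) (h : SameDeck r s) : Iso r s := by
  classical
  -- elementary facts on `E`
  have inj1 : ∀ p ∈ E, ∀ q ∈ E, p.1 = q.1 → p = q := by
    intro p hp q hq h1
    have h2 := (hE p hp q hq).2.2.1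
    rw [← h1] at h2
    exact h2 (hr.1 _)
  have inj2 : ∀ p ∈ E, ∀ q ∈ E, p.2 = q.2 → p = q := by
    intro p hp q hq h1
    have h2 := (hE p hp q hq).2.2.2
    rw [← h1] at h2
    exact h2 (hr.1 _)
  have hdis : ∀ p ∈ E, ∀ q ∈ E, p.1 ≠ q.2 := by
    intro p hp q hq h1
    have h2 := (hE p hp q hq).2.1
    rw [← h1] at h2
    exact h2 (hr.1 _)
  have hcard : (pts E).card = n := by
    rw [pts, Finset.card_union_of_disjoint]
    · rw [Finset.card_image_of_injOn (fun p hp q hq h1 => inj1 p hp q hq h1),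
        Finset.card_image_of_injOn (fun p hp q hq h1 => inj2 p hp q hq h1)]
      omega
    · rw [Finset.disjoint_left]
      intro v h1 h2
      obtain ⟨p, hp, hp'⟩ := Finset.mem_image.1 h1
      obtain ⟨q, hq, hq'⟩ := Finset.mem_image.1 h2
      exact hdis p hp q hq (hp'.trans hq'.symm)
  have hall : ∀ v : Fin n, (∃ p ∈ E, v = p.1) ∨ ∃ p ∈ E, v = p.2 := by
    intro v
    have h1 : pts E = Finset.univ := Finset.eq_univ_of_card _ (by rw [hcard, Fintype.card_fin])
    have h2 : v ∈ pts E := by rw [h1]; exact Finset.mem_univ v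
    rw [pts, Finset.mem_union] at h2
    rcases h2 with h2 | h2
    · obtain ⟨p, hp, hp'⟩ := Finset.mem_image.1 h2
      exact Or.inl ⟨p, hp, hp'.symm⟩
    · obtain ⟨p, hp, hp'⟩ := Finset.mem_image.1 h2
      exact Or.inr ⟨p, hp, hp'.symm⟩
  -- the degrees of `r`
  have hdeg : ∀ v, (b10N r v).card = E.card - 1 := by
    intro v
    rcases hall v with ⟨p, hp, rfl⟩ | ⟨p, hp, rfl⟩
    · have h1 : b10N r p.1 = (E.erase p).image Prod.snd := by
        ext w
        rw [b10_mem_N, Finset.mem_image]
        constructor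
        · rintro ⟨h1, h2⟩
          rcases hall w with ⟨q, hq, rfl⟩ | ⟨q, hq, rfl⟩
          · exfalso
            rcases h2 with h2 | h2
            · have := (hE p hp q hq).2.2.1 h2
              subst this
              exact h1 rfl
            · have := (hE q hq p hp).2.2.1 h2
              subst this
              exact h1 rfl
          · rcases h2 with h2 | h2
            · exact ⟨q, Finset.mem_erase.2 ⟨((hE p hp q hq).1.1 h2).symm, hq⟩, rfl⟩
            · exact absurd h2 (hE p hp q hq).2.1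
        · rintro ⟨q, hq, rfl⟩
          obtain ⟨h1, h2⟩ := Finset.mem_erase.1 hq
          exact ⟨(hdis p hp q h2).symm, Or.inl ((hE p hp q h2).1.2 h1.symm)⟩
      rw [h1, Finset.card_image_of_injOn, Finset.card_erase_of_mem hp]
      intro q hq q' hq' h2
      exact inj2 q (Finset.mem_of_mem_erase hq) q' (Finset.mem_of_mem_erase hq') h2
    · have h1 : b10N r p.2 = (E.erase p).image Prod.fst := by
        ext w
        rw [b10_mem_N, Finset.mem_image]
        constructor
        · rintro ⟨h1, h2⟩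
          rcases hall w with ⟨q, hq, rfl⟩ | ⟨q, hq, rfl⟩
          · rcases h2 with h2 | h2
            · exact absurd h2 (hE q hq p hp).2.1
            · exact ⟨q, Finset.mem_erase.2 ⟨(hE q hq p hp).1.1 h2, hq⟩, rfl⟩
          · exfalso
            rcases h2 with h2 | h2
            · have := (hE p hp q hq).2.2.2 h2
              subst this
              exact h1 rfl
            · have := (hE q hq p hp).2.2.2 h2
              subst this
              exact h1 rfl
        · rintro ⟨q, hq, rfl⟩
          obtain ⟨h1, h2⟩ := Finset.mem_erase.1 hq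
          exact ⟨hdis q h2 p hp, Or.inr ((hE q h2 p hp).1.2 h1)⟩
      rw [h1, Finset.card_image_of_injOn, Finset.card_erase_of_mem hp]
      intro q hq q' hq' h2
      exact inj1 q (Finset.mem_of_mem_erase hq) q' (Finset.mem_of_mem_erase hq') h2
  -- the degrees of `s`
  obtain ⟨π, hπ⟩ := h
  have hdegs : ∀ v, (b10N s v).card = E.card - 1 := by
    intro v
    have h1 := b10_deg (by omega) π hπ (π.symm v)
    rw [π.apply_symm_apply, hdeg] at h1
    exact h1.symm
  obtain ⟨p, hp⟩ : E.Nonempty := by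
    rw [← Finset.card_pos]
    omega
  obtain ⟨e, he⟩ := card_perm (⟨π, hπ⟩ : SameDeck r s) p.1
  have hdeg' : ∀ v, (b10N (fun u v => s (e u) (e v)) v).card = E.card - 1 := by
    intro v
    rw [← hdegs (e v)]
    refine Finset.card_bij (fun w _ => e w) ?_ ?_ ?_
    · intro w hw
      rw [b10_mem_N] at hw ⊢
      exact ⟨fun h1 => hw.1 (e.injective h1), hw.2⟩
    · intro w _ w' _ h1
      exact e.injective h1
    · intro w hw
      rw [b10_mem_N] at hw
      refine ⟨e.symm w, ?_, e.apply_symm_apply w⟩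
      rw [b10_mem_N]
      refine ⟨?_, ?_⟩
      · rintro rfl
        exact hw.1 (e.apply_symm_apply w).symm
      · simp only [e.apply_symm_apply]
        exact hw.2
  -- comparability to the point `p.1`
  have hA : ∀ v, v ≠ p.1 → ((r v p.1 ∨ r p.1 v) ↔ (s (e v) (e p.1) ∨ s (e p.1) (e v))) := by
    intro v hv
    have h1 : (b10N r v).erase p.1 = (b10N (fun u v => s (e u) (e v)) v).erase p.1 := by
      ext w
      rw [Finset.mem_erase, Finset.mem_erase, b10_mem_N, b10_mem_N]
      constructor
      · rintro ⟨h1, h2, h3⟩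
        exact ⟨h1, h2, h3.imp (he v w hv h1).1 (he w v h1 hv).1⟩
      · rintro ⟨h1, h2, h3⟩
        exact ⟨h1, h2, h3.imp (he v w hv h1).2 (he w v h1 hv).2⟩
    have h2 := hdeg v
    have h3 := hdeg' v
    have h4 : p.1 ∈ b10N r v ↔ p.1 ∈ b10N (fun u v => s (e u) (e v)) v := by
      constructor
      · intro h5
        by_contra h6
        have h7 := Finset.card_erase_of_mem h5
        rw [h1, Finset.erase_eq_of_notMem h6] at h7
        omega
      · intro h5
        by_contra h6
        have h7 := Finset.card_erase_of_mem h5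
        rw [← h1, Finset.erase_eq_of_notMem h6] at h7
        omega
    rw [b10_mem_N, b10_mem_N] at h4
    constructor
    · intro h5
      exact (h4.1 ⟨fun h => hv h.symm, h5⟩).2
    · intro h5
      exact (h4.2 ⟨fun h => hv h.symm, h5⟩).2
  have hnr : ∀ v, v ≠ p.1 → ¬ r v p.1 := by
    intro v hv h1
    rcases hall v with ⟨q, hq, rfl⟩ | ⟨q, hq, rfl⟩
    · have := (hE q hq p hp).2.2.1 h1
      subst this
      exact hv rfl
    · exact (hE p hp q hq).2.1 h1
  have hns : ∀ v, v ≠ p.1 → ¬ s (e v) (e p.1) := by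
    intro v hv h1
    have h2 : r p.1 v := by
      rcases (hA v hv).2 (Or.inl h1) with h3 | h3
      · exact absurd h3 (hnr v hv)
      · exact h3
    rcases hall v with ⟨q, hq, rfl⟩ | ⟨q, hq, rfl⟩
    · have := (hE p hp q hq).2.2.1 h2
      subst this
      exact hv rfl
    · obtain ⟨k, hk⟩ : ((E.erase p).erase q).Nonempty := by
        rw [← Finset.card_pos]
        have h3 := Finset.pred_card_le_card_erase (s := E) (a := p)
        have h4 := Finset.pred_card_le_card_erase (s := E.erase p) (a := q)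
        omega
      obtain ⟨h3, h4⟩ := Finset.mem_erase.1 hk
      obtain ⟨h5, h6⟩ := Finset.mem_erase.1 h4
      have h7 : k.1 ≠ p.1 := fun h8 => h5 (inj1 k h6 p hp h8)
      have h8 : s (e k.1) (e q.2) := (he k.1 q.2 h7 hv).1 ((hE k h6 q hq).1.2 h3)
      have h9 : s (e k.1) (e p.1) := hs.2.2 _ _ _ h8 h1
      rcases (hA k.1 h7).2 (Or.inl h9) with h10 | h10
      · exact h5 ((hE k h6 p hp).2.2.1 h10)
      · exact h5 ((hE p hp k h6).2.2.1 h10).symm
  refine ⟨e, fun a b => ?_⟩
  by_cases ha : a = p.1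
  · by_cases hb : b = p.1
    · rw [ha, hb]
      exact ⟨fun _ => hs.1 _, fun _ => hr.1 _⟩
    · rw [ha]
      constructor
      · intro h1
        rcases (hA b hb).1 (Or.inr h1) with h2 | h2
        · exact absurd h2 (hns b hb)
        · exact h2
      · intro h1
        rcases (hA b hb).2 (Or.inr h1) with h2 | h2
        · exact absurd h2 (hnr b hb)
        · exact h2
  · by_cases hb : b = p.1
    · rw [hb]
      exact ⟨fun h1 => absurd h1 (hnr a ha), fun h1 => absurd h1 (hns a ha)⟩
    · exact he a b ha hb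

end Pool.Agent.Helper14.LD
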