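import Pool.Agent.Helper14.LD.B03
import Pool.Agent.Helper14.LD.B05
import Pool.Agent.Helper14.LD.B06
import Pool.Agent.Helper14.LD.B07
import Pool.Agent.Helper14.LD.B08
import Pool.Agent.Helper14.LD.B10

/-!
# B11: ordered sets with a standard example on almost all points are reconstructible
-/

namespace Pool.Agent.Helper14.LD

open Pool.Agent.Helper87.PD

theorem Good.symm {V : Type*} [Fintype V] {f G m : ℕ} {r s : V → V → Prop} (h : Good f G m r s) :
    Good f G m s r := by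
  obtain ⟨h1, h2, h3, h4, h5, h6, h7, h8⟩ := h
  exact ⟨h2, h1, h4, h3, h5, h6, h8, h7⟩

theorem exists_maxStd {V : Type*} [Fintype V] (r : V → V → Prop) : ∃ m, MaxStd r m := by
  classical
  obtain ⟨E, hE, hmax⟩ := Finset.exists_max_image (Finset.univ.filter fun E : Finset (V × V) => Std r E)
    Finset.card ⟨∅, by simp [Std]⟩
  refine ⟨E.card, ⟨E, (Finset.mem_filter.1 hE).2, rfl⟩, fun E' hE' => hmax E' ?_⟩
  simp [hE']

variable {n f G m : ℕ} {r s : Fin n → Fin n → Prop}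

theorem step (h : Good f G m r s) (hd : SameDeck r s) {p : Fin n × Fin n} (hp : p ∈ Lg G r) {x₀ : Fin n}
    (hx : x₀ = p.1 ∨ x₀ = p.2) : ∃ e p' E, Sit f G m r (re s e) x₀ p p' E := by
  obtain ⟨e, he⟩ := card_perm hd x₀
  obtain ⟨h1, h2, h3, h4, h5, h6, h7, h8⟩ := h
  have hG : Good f G m r (re s e) := ⟨h1, re_po h2 e, h3, re_max h4 e, h5, h6, h7, fun p => by
    rw [re_cl]; exact h8 _⟩
  obtain ⟨p', E, hS⟩ := exists_sit hG he hp hx
  exact ⟨e, p', E, hS⟩

theorem lg_le (h : Good f G m r s) (hd : SameDeck r s) (hL : (Lg G r).Nonempty) :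
    (Lg G s).card ≤ (Lg G r).card := by
  obtain ⟨p, hp⟩ := hL
  obtain ⟨e, p', E, hS⟩ := step h hd hp (Or.inl rfl)
  rw [← re_lg e G]
  exact hS.lg_card.1

theorem lg_eq (h : Good f G m r s) (hd : SameDeck r s) (hL : (Lg G r).Nonempty) (hL' : (Lg G s).Nonempty) :
    (Lg G r).card = (Lg G s).card :=
  le_antisymm (lg_le h.symm (deck_symm hd) hL') (lg_le h hd hL)

theorem step' (h : Good f G m r s) (hd : SameDeck r s) (hL' : (Lg G s).Nonempty) {p : Fin n × Fin n}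
    (hp : p ∈ Lg G r) {x₀ : Fin n} (hx : x₀ = p.1 ∨ x₀ = p.2) :
    ∃ e p' E, Sit f G m r (re s e) x₀ p p' E ∧ p' ∈ Lg G (re s e) ∧
      bt G r + (if x₀ = p'.2 then 1 else 0) = bt G s + (if x₀ = p.2 then 1 else 0) := by
  obtain ⟨e, p', E, hS⟩ := step h hd hp hx
  have h1 := hS.lg_card.2 (by rw [re_lg]; exact (lg_eq h hd ⟨p, hp⟩ hL').le)
  refine ⟨e, p', E, hS, h1, ?_⟩
  rw [← re_bt (s := s) e G]
  exact hS.bt_eq h1

theorem bt_le (h : Good f G m r s) (hd : SameDeck r s) (hL : (Lg G r).Nonempty) (hL' : (Lg G s).Nonempty) :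
    bt G s ≤ bt G r := by
  obtain ⟨p, hp⟩ := hL
  obtain ⟨e, p', E, -, -, h3⟩ := step' h hd hL' hp (Or.inr rfl)
  rw [if_pos rfl] at h3
  split_ifs at h3 <;> omega

theorem recon_core (h : Good f G m r s) (hd : SameDeck r s) (hL' : (Lg G s).Nonempty) {p : Fin n × Fin n}
    (hp : p ∈ Lg G r) (hmin : ∀ q ∈ Lg G s, (cl r p).card ≤ (cl s q).card) : Iso r s := by
  have hr := h.1
  have hs := h.2.1
  have hb : bt G r = bt G s := le_antisymm (bt_le h.symm (deck_symm hd) hL' ⟨p, hp⟩) (bt_le h hd ⟨p, hp⟩ hL')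
  obtain ⟨e, p', E, hS, hp', h3⟩ := step' h hd hL' hp (Or.inl rfl)
  obtain ⟨q, hq⟩ := exists_twin (by have := h.2.2.2.2.2.1; omega) hp
  have hp12 : p.1 ≠ p.2 := fun hpp => hq.1.1 (by rw [← hpp]; exact hr.1 _)
  rw [if_neg hp12, hb] at h3
  have hx' : p.1 = p'.1 := by
    obtain ⟨_, _, _, _, h5, _⟩ := hS
    rcases h5 with h5 | h5
    · exact h5
    · rw [if_pos h5] at h3; omega
  have hqL : q ∈ Lg G r := Lg_of_twin hr hq hp
  have hqE : q ∈ E := by
    rcases Finset.mem_insert.1 (hS.lg_sub.1 hqL) with h6 | h6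
    · exact absurd h6.symm (hq.ne hr)
    · exact h6
  by_cases ht : Twin (re s e) p' q
  · obtain ⟨φ, hφ⟩ := iso_of_twin hr (re_po hs e) hS.2.1 rfl hx' hq ht
    obtain ⟨ψ, hψ⟩ := re_iso (s := s) e
    exact ⟨φ.trans ψ, fun a b => by rw [hφ, hψ]; rfl⟩
  · exfalso
    have h6 := hS.cl_lt hqE hq ht
    have h7 : q ∈ Lg G (re s e) := (hS.lg_iff hqE).1 hqL
    rw [mem_Lg, re_cl] at h7
    have h8 := hmin _ (mem_Lg.2 h7)
    rw [re_cl, ← cl_eq hr hq] at h6
    omega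

theorem recon (f : ℕ) : ∃ N : ℕ, ∀ n ≥ N, ∀ r s : Fin n → Fin n → Prop, IsPO r → IsPO s →
    ∀ E, Std r E → n ≤ 2 * E.card + f → SameDeck r s → Iso r s := by
  refine ⟨2 * (16 ^ f * (f + 5 + 2 * 16 ^ f)) + f + 6, ?_⟩
  intro n hn r s hr hs E hE hEn hd
  obtain ⟨m, hm⟩ := exists_maxStd r
  obtain ⟨m', hm'⟩ := exists_maxStd s
  have hEm := hm.2 E hE
  have b1 : ∀ {r : Fin n → Fin n → Prop} {m : ℕ}, IsPO r → MaxStd r m → 2 * m ≤ n := by
    intro r m hr hm
    obtain ⟨E, hE, rfl⟩ := hm.1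
    have h1 := Finset.card_le_univ (pts E)
    rw [pts_card hr hE, Fintype.card_fin] at h1
    exact h1
  have h1 := b1 hr hm
  have h2 := b1 hs hm'
  by_cases c1 : 2 * m = n
  · obtain ⟨E', hE', rfl⟩ := hm.1
    exact iso_full hr hs (by omega) hE' c1 hd
  by_cases c2 : 2 * m' = n
  · obtain ⟨E', hE', rfl⟩ := hm'.1
    exact iso_symm (iso_full hs hr (by omega) hE' c2 (deck_symm hd))
  have hmm : m = m' := by
    apply le_antisymm
    · obtain ⟨E', hE', rfl⟩ := hm.1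
      obtain ⟨E'', hE'', h4⟩ := std_of_deck hd hE' (by omega)
      rw [← h4]
      exact hm'.2 _ hE''
    · obtain ⟨E', hE', rfl⟩ := hm'.1
      obtain ⟨E'', hE'', h4⟩ := std_of_deck (deck_symm hd) hE' (by omega)
      rw [← h4]
      exact hm.2 _ hE''
  subst hmm
  have hf : Fintype.card (Fin n) ≤ 2 * m + f := by rw [Fintype.card_fin]; omega
  obtain ⟨G, g1, g2, g3, g4⟩ := gap hr hs hm hm' hf
  have hG : Good f G m r s := ⟨hr, hs, hm, hm', hf, g1, g3, g4⟩
  have hGm : 16 ^ f * G < m := by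
    have : 16 ^ f * G ≤ 16 ^ f * (f + 5 + 2 * 16 ^ f) := Nat.mul_le_mul_left _ g2
    omega
  have hL := big_class hr hm hf hGm
  have hL' := big_class hs hm' hf hGm
  obtain ⟨p, hp, hpm⟩ := Finset.exists_min_image (Lg G r) (fun p => (cl r p).card) hL
  obtain ⟨q, hq, hqm⟩ := Finset.exists_min_image (Lg G s) (fun p => (cl s p).card) hL'
  rcases le_total (cl r p).card (cl s q).card with h5 | h5
  · exact recon_core hG hd hL' hp fun w hw => h5.trans (hqm w hw)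
  · exact iso_symm (recon_core hG.symm (deck_symm hd) hL hq fun w hw => h5.trans (hpm w hw))

end Pool.Agent.Helper14.LD
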