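import Pool.Agent.Helper14.LD.Defs

/-!
# Base: the calculus of covers
-/

namespace Pool.Agent.Helper14.LD

open Pool.Agent.Helper87.PD

variable {V : Type*} {r : V → V → Prop} {A : Finset V}

theorem Cv.mono {S T : V → V → Prop} {k l : ℕ} (h : Cv r A S k)
    (hST : ∀ x ∈ A, ∀ y ∈ A, ¬ r x y → ¬ r y x → T x y → S x y) (hkl : k ≤ l) : Cv r A T l := by
  obtain ⟨F, h1, h2, h3⟩ := h
  exact ⟨F, h1.trans hkl, h2, fun x hx y hy hT h4 h5 => h3 x hx y hy (hST x hx y hy h4 h5 hT) h4 h5⟩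

theorem Cv.union {S T : V → V → Prop} {k l : ℕ} (h : Cv r A S k) (h' : Cv r A T l) :
    Cv r A (fun x y => S x y ∨ T x y) (k + l) := by
  classical
  obtain ⟨F, h1, h2, h3⟩ := h
  obtain ⟨F', h1', h2', h3'⟩ := h'
  refine ⟨F ∪ F', (Finset.card_union_le _ _).trans (by omega), ?_, ?_⟩
  · intro ρ hρ
    rcases Finset.mem_union.1 hρ with h | h
    · exact h2 ρ h
    · exact h2' ρ h
  · rintro x hx y hy (hS | hT) h4 h5
    · obtain ⟨ρ, hρ, hlt⟩ := h3 x hx y hy hS h4 h5
      exact ⟨ρ, Finset.mem_union_left _ hρ, hlt⟩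
    · obtain ⟨ρ, hρ, hlt⟩ := h3' x hx y hy hT h4 h5
      exact ⟨ρ, Finset.mem_union_right _ hρ, hlt⟩

theorem Cv.zero : Cv r A (fun _ _ => False) 0 :=
  ⟨∅, by simp, by simp, fun _ _ _ _ h => h.elim⟩

theorem Cv.biUnion {ι : Type*} (I : Finset ι) {S : ι → V → V → Prop} {k : ℕ} (h : ∀ i ∈ I, Cv r A (S i) k) :
    Cv r A (fun x y => ∃ i ∈ I, S i x y) (I.card * k) := by
  classical
  induction I using Finset.induction_on with
  | empty => exact Cv.zero.mono (by simp) (by simp)
  | insert a I ha ih =>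
    have h1 := ih fun i hi => h i (Finset.mem_insert_of_mem hi)
    have h2 := (h a (Finset.mem_insert_self _ _)).union h1
    refine h2.mono ?_ (by rw [Finset.card_insert_of_notMem ha]; ring_nf; omega)
    rintro x _ y _ _ _ ⟨i, hi, hS⟩
    rcases Finset.mem_insert.1 hi with rfl | hi
    · exact Or.inl hS
    · exact Or.inr ⟨i, hi, hS⟩

/-- one map -/
theorem Cv.one {S : V → V → Prop} (ρ : V → ℕ) (h : Mon r A ρ)
    (h' : ∀ x ∈ A, ∀ y ∈ A, S x y → ¬ r x y → ¬ r y x → ρ y < ρ x) : Cv r A S 1 :=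
  ⟨{ρ}, by simp, by simpa using h, fun x hx y hy hS h4 h5 => ⟨ρ, by simp, h' x hx y hy hS h4 h5⟩⟩

/-- All points of a chain can be put above all points incomparable to them. -/
theorem cv_up (hr : IsPO r) {C : Finset V} (hC : Chain r C) : Cv r A (fun x _ => x ∈ C) 1 := by
  classical
  refine Cv.one (fun p => (C.filter fun c => r c p).card) ?_ ?_
  · intro x _ y _ hxy
    refine Finset.card_le_card fun c hc => ?_
    rw [Finset.mem_filter] at hc ⊢
    exact ⟨hc.1, hr.2.2 _ _ _ hc.2 hxy⟩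
  · intro x _ y _ hx h1 h2
    refine Finset.card_lt_card ⟨fun c hc => ?_, fun h => ?_⟩
    · rw [Finset.mem_filter] at hc ⊢
      refine ⟨hc.1, ?_⟩
      rcases hC c hc.1 x hx with h3 | h3
      · exact h3
      · exact absurd (hr.2.2 _ _ _ h3 hc.2) h1
    · have := h (Finset.mem_filter.2 ⟨hx, hr.1 x⟩)
      exact h1 (Finset.mem_filter.1 this).2

/-- All points of a chain can be put below all points incomparable to them. -/
theorem cv_dn (hr : IsPO r) {C : Finset V} (hC : Chain r C) : Cv r A (fun _ y => y ∈ C) 1 := by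
  classical
  refine Cv.one (fun p => (C.filter fun c => ¬ r p c).card) ?_ ?_
  · intro x _ y _ hxy
    refine Finset.card_le_card fun c hc => ?_
    rw [Finset.mem_filter] at hc ⊢
    exact ⟨hc.1, fun h => hc.2 (hr.2.2 _ _ _ hxy h)⟩
  · intro x _ y _ hy h1 h2
    refine Finset.card_lt_card ⟨fun c hc => ?_, fun h => ?_⟩
    · rw [Finset.mem_filter] at hc ⊢
      refine ⟨hc.1, fun h3 => ?_⟩
      rcases hC c hc.1 y hy with h4 | h4
      · exact h1 (hr.2.2 _ _ _ h3 h4)
      · exact hc.2 h4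
    · have := h (Finset.mem_filter.2 ⟨hy, h1⟩)
      exact (Finset.mem_filter.1 this).2 (hr.1 y)

/-- If `a` is not below `b` then one map puts `a` above all points incomparable to `a` and `b` below all points
incomparable to `b`. -/
theorem cv_merge (hr : IsPO r) {a b : V} (hab : ¬ r a b) : Cv r A (fun x y => x = a ∨ y = b) 1 := by
  classical
  refine Cv.one (fun p => if r p b then 0 else if r a p then 2 else 1) ?_ ?_
  · intro x _ y _ hxy
    by_cases h1 : r x b
    · simp [h1]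
    · have h2 : ¬ r y b := fun h => h1 (hr.2.2 _ _ _ hxy h)
      by_cases h3 : r a x
      · have h4 : r a y := hr.2.2 _ _ _ h3 hxy
        simp [h1, h2, h3, h4]
      · simp only [h1, h2, h3, if_false]
        split_ifs <;> omega
  · rintro x _ y _ (rfl | rfl) h1 h2
    · simp only [hab, hr.1 x, if_true, if_false, h1]
      split_ifs <;> omega
    · simp only [hr.1 y, if_true, h1, if_false]
      split_ifs <;> omega

/-- A cover of the points not in `R` extends. -/
theorem cv_extend [DecidableEq V] (hr : IsPO r) {R : Finset V} {S : V → V → Prop} {k : ℕ} (h : Cv r (A \ R) S k) :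
    Cv r A (fun x y => x ∉ R ∧ y ∉ R ∧ S x y) k := by
  classical
  obtain ⟨F, h1, h2, h3⟩ := h
  let e : (V → ℕ) → V → ℕ := fun ρ x => ((A \ R).filter fun q => r q x).sup ρ
  have he : ∀ ρ ∈ F, ∀ x ∈ A \ R, e ρ x = ρ x := by
    intro ρ hρ x hx
    apply le_antisymm
    · refine Finset.sup_le fun q hq => ?_
      rw [Finset.mem_filter] at hq
      exact h2 ρ hρ q hq.1 x hx hq.2
    · exact Finset.le_sup (f := ρ) (Finset.mem_filter.2 ⟨hx, hr.1 x⟩)
  refine ⟨F.image e, Finset.card_image_le.trans h1, ?_, ?_⟩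
  · intro ρ' hρ'
    obtain ⟨ρ, hρ, rfl⟩ := Finset.mem_image.1 hρ'
    intro x _ y _ hxy
    refine Finset.sup_mono fun q hq => ?_
    rw [Finset.mem_filter] at hq ⊢
    exact ⟨hq.1, hr.2.2 _ _ _ hq.2 hxy⟩
  · rintro x hx y hy ⟨hxR, hyR, hS⟩ h4 h5
    have hx' : x ∈ A \ R := Finset.mem_sdiff.2 ⟨hx, hxR⟩
    have hy' : y ∈ A \ R := Finset.mem_sdiff.2 ⟨hy, hyR⟩
    obtain ⟨ρ, hρ, hlt⟩ := h3 x hx' y hy' hS h4 h5
    exact ⟨e ρ, Finset.mem_image_of_mem _ hρ, by rw [he ρ hρ x hx', he ρ hρ y hy']; exact hlt⟩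

theorem chain_single (hr : IsPO r) (x : V) : Chain r {x} := by
  intro a ha b hb
  rw [Finset.mem_singleton] at ha hb
  subst ha; subst hb
  exact Or.inl (hr.1 _)

/-- Removing `R` lowers the covering number by at most `2 |R|`. -/
theorem cov_remove [DecidableEq V] (hr : IsPO r) {R : Finset V} {k : ℕ} (h : Cov r (A \ R) k) :
    Cov r A (k + 2 * R.card) := by
  classical
  have h1 := cv_extend hr h
  have h2 : Cv r A (fun x y => ∃ i ∈ R, x ∈ ({i} : Finset V)) (R.card * 1) :=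
    Cv.biUnion R fun i _ => cv_up hr (chain_single hr i)
  have h3 : Cv r A (fun x y => ∃ i ∈ R, y ∈ ({i} : Finset V)) (R.card * 1) :=
    Cv.biUnion R fun i _ => cv_dn hr (chain_single hr i)
  refine ((h1.union h2).union h3).mono ?_ (by omega)
  intro x _ y _ _ _ _
  by_cases hx : x ∈ R
  · exact Or.inl (Or.inr ⟨x, hx, by simp⟩)
  by_cases hy : y ∈ R
  · exact Or.inr ⟨y, hy, by simp⟩
  exact Or.inl (Or.inl ⟨hx, hy, trivial⟩)

theorem Hi.remove [DecidableEq V] (hr : IsPO r) {R : Finset V} {c : ℕ} (h : Hi r A c) :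
    Hi r (A \ R) (c + 4 * R.card) := by
  intro k hk
  have h1 := h _ (cov_remove hr hk)
  have h2 : (A \ R).card ≤ A.card := Finset.card_le_card Finset.sdiff_subset
  omega

end Pool.Agent.Helper14.LD
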