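import Mathlib
import Pool.Agent.Helper87.PD.Defs

/-!
# Ordered sets of nearly maximal dimension: definitions (MP_dbf53e_co, helper14)

All orders are given by relations; `r x y` means `x ≤ y`.
-/

namespace Pool.Agent.Helper14.LD

open Pool.Agent.Helper87.PD

variable {V : Type*}

/-- `ρ` is monotone on `A`. -/
def Mon (r : V → V → Prop) (A : Finset V) (ρ : V → ℕ) : Prop := ∀ x ∈ A, ∀ y ∈ A, r x y → ρ x ≤ ρ y

/-- There are `k` monotone maps on `A` such that for all incomparable `x, y ∈ A` with `S x y` one of them puts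
`x` above `y`. -/
def Cv (r : V → V → Prop) (A : Finset V) (S : V → V → Prop) (k : ℕ) : Prop :=
  ∃ F : Finset (V → ℕ), F.card ≤ k ∧ (∀ ρ ∈ F, Mon r A ρ) ∧
    ∀ x ∈ A, ∀ y ∈ A, S x y → ¬ r x y → ¬ r y x → ∃ ρ ∈ F, ρ y < ρ x

/-- There are `k` monotone maps on `A` such that for all incomparable `x, y ∈ A` one of them puts `x` above `y`. -/
def Cov (r : V → V → Prop) (A : Finset V) (k : ℕ) : Prop := Cv r A (fun _ _ => True) k

/-- Every such family of monotone maps on `A` has at least `(|A| - c) / 2` members. -/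
def Hi (r : V → V → Prop) (A : Finset V) (c : ℕ) : Prop := ∀ k, Cov r A k → A.card ≤ 2 * k + c

/-- No two different points of `A` are comparable. -/
def Anti (r : V → V → Prop) (A : Finset V) : Prop := ∀ x ∈ A, ∀ y ∈ A, r x y → x = y

/-- Any two points of `A` are comparable. -/
def Chain (r : V → V → Prop) (A : Finset V) : Prop := ∀ x ∈ A, ∀ y ∈ A, r x y ∨ r y x

/-- `E` is a set of pairs `(a, b)`, which are incomparable, with different and pairwise incomparable first points and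
different and pairwise incomparable second points, such that no second point is below a first point. -/
def Pre (r : V → V → Prop) (E : Finset (V × V)) : Prop := ∀ p ∈ E, ∀ q ∈ E,
  (p = q → ¬ r p.1 q.2) ∧ ¬ r q.2 p.1 ∧ (r p.1 q.1 → p = q) ∧ (r p.2 q.2 → p = q)

/-- `E` is a standard example: a set of pairs `(a, b)` such that `a < b'` for different pairs, and there are no
other comparabilities. -/
def Std (r : V → V → Prop) (E : Finset (V × V)) : Prop := ∀ p ∈ E, ∀ q ∈ E,
  (r p.1 q.2 ↔ p ≠ q) ∧ ¬ r q.2 p.1 ∧ (r p.1 q.1 → p = q) ∧ (r p.2 q.2 → p = q)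

/-- The largest standard example has `m` pairs. -/
def MaxStd (r : V → V → Prop) (m : ℕ) : Prop :=
  (∃ E, Std r E ∧ E.card = m) ∧ ∀ E, Std r E → E.card ≤ m

/-- The points of the pairs in `E`. -/
def pts [DecidableEq V] (E : Finset (V × V)) : Finset V := E.image Prod.fst ∪ E.image Prod.snd

/-- The pairs `p`, `q` form a standard example, and are related in the same way to all other points. -/
def Twin (r : V → V → Prop) (p q : V × V) : Prop :=
  (¬ r p.1 p.2 ∧ ¬ r p.2 p.1 ∧ ¬ r q.1 q.2 ∧ ¬ r q.2 q.1) ∧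
  (r p.1 q.2 ∧ ¬ r q.2 p.1 ∧ r q.1 p.2 ∧ ¬ r p.2 q.1) ∧
  (¬ r p.1 q.1 ∧ ¬ r q.1 p.1 ∧ ¬ r p.2 q.2 ∧ ¬ r q.2 p.2) ∧
  ∀ v, v ≠ p.1 → v ≠ p.2 → v ≠ q.1 → v ≠ q.2 →
    (r v p.1 ↔ r v q.1) ∧ (r p.1 v ↔ r q.1 v) ∧ (r v p.2 ↔ r v q.2) ∧ (r p.2 v ↔ r q.2 v)

open Classical in
/-- The pair `p` and its twins. -/
noncomputable def cl [Fintype V] (r : V → V → Prop) (p : V × V) : Finset (V × V) :=
  Finset.univ.filter fun q => q = p ∨ Twin r p q

open Classical in
/-- The pairs with at least `G - 1` twins. -/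
noncomputable def Lg [Fintype V] (G : ℕ) (r : V → V → Prop) : Finset (V × V) :=
  Finset.univ.filter fun p => G ≤ (cl r p).card

/-- `v` is related to all pairs with at least `G - 1` twins, not counting those whose second point is `v`, like a
second point. -/
def Top [Fintype V] (G : ℕ) (r : V → V → Prop) (v : V) : Prop :=
  ∀ p ∈ Lg G r, p.2 ≠ v → r p.1 v ∧ ¬ r v p.1 ∧ ¬ r v p.2 ∧ ¬ r p.2 v

open Classical in
/-- The number of points with the property `Top`. -/
noncomputable def bt [Fintype V] (G : ℕ) (r : V → V → Prop) : ℕ := (Finset.univ.filter fun v => Top G r v).card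

/-- `r` and `s` are equal outside `x₀`. -/
def Off (r s : V → V → Prop) (x₀ : V) : Prop := ∀ u v, u ≠ x₀ → v ≠ x₀ → (r u v ↔ s u v)

/-- The hypotheses on the pair `r`, `s`. -/
def Good [Fintype V] (f G m : ℕ) (r s : V → V → Prop) : Prop :=
  IsPO r ∧ IsPO s ∧ MaxStd r m ∧ MaxStd s m ∧ Fintype.card V ≤ 2 * m + f ∧ f + 5 ≤ G ∧
    (∀ p, (cl r p).card ≠ G) ∧ ∀ p, (cl s p).card ≠ G

/-- `r` and `s` are equal outside `x₀`, and `E` together with `p` is a standard example of `r` of maximum size and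
`E` together with `p'` is a standard example of `s` of maximum size, where `x₀` belongs to `p` and to `p'`. -/
def Sit [Fintype V] [DecidableEq V] (f G m : ℕ) (r s : V → V → Prop) (x₀ : V) (p p' : V × V)
    (E : Finset (V × V)) : Prop :=
  Good f G m r s ∧ Off r s x₀ ∧ p ∈ Lg G r ∧ (x₀ = p.1 ∨ x₀ = p.2) ∧ (x₀ = p'.1 ∨ x₀ = p'.2) ∧
    E.card + 1 = m ∧ x₀ ∉ pts E ∧ p ∉ E ∧ p' ∉ E ∧ Std r (insert p E) ∧ Std s (insert p' E)

end Pool.Agent.Helper14.LD
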