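import Pool.Agent.Helper14.LD.A01
import Pool.Agent.Helper14.LD.A12
import Pool.Agent.Helper14.LD.B11
import Pool.Agent.Helper87.PD.Cls

/-!
# Ordered sets of nearly maximal dimension are reconstructible
-/

namespace Pool.Agent.Helper14.LD

open Pool.Agent.Helper87.PD

theorem main : ∀ c : ℕ, ∃ N : ℕ, ∀ n ≥ N, ∀ r s : Fin n → Fin n → Prop, IsPO r → IsPO s → n ≤ 2 * dim r + c →
    SameDeck r s → Iso r s ∧ dim r = dim s := by
  intro c
  obtain ⟨f, hf⟩ := structure_thm (c + 2)
  obtain ⟨N, hN⟩ := recon f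
  refine ⟨N, ?_⟩
  intro n hn r s hr hs hdim hd
  have hHi : Hi r Finset.univ (c + 2) := by
    intro k hk
    have := dim_le_of_cov hr hk
    rw [Finset.card_univ, Fintype.card_fin]
    omega
  obtain ⟨E, hE, hEc⟩ := hf (Fin n) r hr Finset.univ hHi
  rw [Finset.card_univ, Fintype.card_fin] at hEc
  have hI := hN n hn r s hr hs E hE hEc hd
  exact ⟨hI, dim_eq_of_iso hI⟩

end Pool.Agent.Helper14.LD
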